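import Pool.Agent.K7.H1.UM.Split
import Pool.Agent.W928.MF.NT2

/-!
# Blocks of roots and automorphisms
-/

set_option autoImplicit false

open Polynomial NumberField

namespace Pool.Agent.K7.H1.UM

open Pool.Agent.W458.MF Pool.Agent.W521.Frob Pool.Agent.W521.Criterion

section Aut

variable {E : Type} [Field E] [NumberField E] {f : ℤ[X]} {θ : 𝓞 E} {D : ℕ}
  {L : Type} [Field L] [NumberField L] [IsGalois ℚ L]

/-- The Galois group is transitive on the embeddings. -/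
lemma Prim.exists_aut (H : Prim E f θ D) (φ₀ φ : E →+* L) :
    ∃ τ : L ≃ₐ[ℚ] L, ∀ x, τ (φ₀ x) = φ x := by
  have h1 : ∀ φ : E →+* L, minpoly ℚ (φ (θ : E)) = minpoly ℚ (θ : E) := fun φ =>
    minpoly.algHom_eq (φ.toRatAlgHom) φ.injective (θ : E)
  obtain ⟨τ, hτ⟩ := isConjRoot_iff_exists_algEquiv.1
    ((h1 φ).trans (h1 φ₀).symm : IsConjRoot ℚ (φ (θ : E)) (φ₀ (θ : E)))
  refine ⟨τ, fun x => ?_⟩
  have h2 : ((τ : L →+* L).comp φ₀) = φ := H.ext _ _ hτ
  exact DFunLike.congr_fun h2 x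

/-- The automorphisms which fix the image of `E` are transitive on the roots of an irreducible
polynomial. -/
lemma exists_aut_root {P : E[X]} (hP : P.Monic) (hirr : Irreducible P) (φ : E →+* L) {z z' : L}
    (hz : (P.map φ).IsRoot z) (hz' : (P.map φ).IsRoot z') :
    ∃ τ : L ≃ₐ[ℚ] L, (∀ x, τ (φ x) = φ x) ∧ τ z = z' := by
  let _ : Algebra E L := φ.toAlgebra
  have : IsScalarTower ℚ E L := IsScalarTower.of_algebraMap_eq fun x => by
    rw [eq_ratCast, eq_ratCast, map_ratCast]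
  have : Normal E L := Normal.tower_top_of_normal ℚ E L
  have h1 : ∀ y : L, (P.map φ).IsRoot y → minpoly E y = P := by
    intro y hy
    refine (minpoly.eq_of_irreducible_of_monic hirr ?_ hP).symm
    rw [IsRoot.def, eval_map] at hy
    exact hy
  obtain ⟨g, hg⟩ := isConjRoot_iff_exists_algEquiv.1
    ((h1 z' hz').trans (h1 z hz).symm : IsConjRoot E z' z)
  refine ⟨g.restrictScalars ℚ, fun x => ?_, hg⟩
  exact g.commutes x

/-- Both together. -/
lemma Prim.exists_aut_root (H : Prim E f θ D) {P : E[X]} (hP : P.Monic) (hirr : Irreducible P)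
    (φ₀ φ : E →+* L) {z z' : L} (hz : (P.map φ₀).IsRoot z) (hz' : (P.map φ).IsRoot z') :
    ∃ τ : L ≃ₐ[ℚ] L, (∀ x, τ (φ₀ x) = φ x) ∧ τ z = z' := by
  obtain ⟨τ₁, h1⟩ := H.exists_aut φ₀ φ
  have h2 : (P.map φ).IsRoot (τ₁ z) := by
    have h3 : P.map φ = (P.map φ₀).map (τ₁ : L →+* L) := by
      rw [Polynomial.map_map]
      congr 1
      ext x
      exact (h1 x).symm
    rw [h3, IsRoot.def, eval_map, ← RingHom.coe_coe τ₁, eval₂_at_apply]
    rw [IsRoot.def] at hz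
    rw [hz, map_zero]
  obtain ⟨τ₂, h3, h4⟩ := UM.exists_aut_root hP hirr φ h2 hz'
  exact ⟨τ₁.trans τ₂, fun x => by rw [AlgEquiv.trans_apply, h1, h3], h4⟩

lemma isRoot_aut (P : E[X]) (τ : L ≃ₐ[ℚ] L) (φ φ' : E →+* L) (h : ∀ x, τ (φ x) = φ' x) (z : L) :
    (P.map φ').IsRoot (τ z) ↔ (P.map φ).IsRoot z := by
  have h3 : P.map φ' = (P.map φ).map (τ : L →+* L) := by
    rw [Polynomial.map_map]
    congr 1
    ext x
    exact (h x).symm
  rw [h3, IsRoot.def, IsRoot.def, eval_map, ← RingHom.coe_coe τ, eval₂_at_apply]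
  exact (map_eq_zero (τ : L →+* L))

end Aut

section Swap

variable {J : Type} {q : J → ℕ} {h : J → ℤ[X]} {R : ℤ[X]}
  {E : Type} [Field E] [NumberField E] {f : ℤ[X]} {θ : 𝓞 E} {D : ℕ}
  {L : Type} [Field L] [NumberField L] [IsGalois ℚ L]

/-- an automorphism which exchanges the roots `α` and `α'` of the block of `φ`, and fixes all other
roots except possibly those of the block of `φ ∘ c` -/
def Swp (q : J → ℕ) (h : J → ℤ[X]) (R : ℤ[X]) (i : J) (P : E[X]) (c : E →+* E) (φ : E →+* L)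
    (α α' : L) : Prop :=
  ∃ σ : L ≃ₐ[ℚ] L, (P.map φ).IsRoot α ∧ (P.map φ).IsRoot α' ∧ α ≠ α' ∧ σ α = α' ∧ σ α' = α ∧
    (∀ β, (P.map φ).IsRoot β → β ≠ α → β ≠ α' → σ β = β) ∧
    (∀ φ' : E →+* L, φ' ≠ φ → φ' ≠ φ.comp c → ∀ β, (P.map φ').IsRoot β → σ β = β) ∧
    (∀ i', i' ≠ i → ∀ β : L, aeval β (weil (q i') (h i')) = 0 → σ β = β) ∧
    ∀ β : L, aeval β R = 0 → σ β = β

lemma swp_conj {i : J} {P : E[X]} {c : E →+* E} {φ φ' : E →+* L} {α α' : L} (τ : L ≃ₐ[ℚ] L)
    (hτ : ∀ x, τ (φ x) = φ' x) (hS : Swp q h R i P c φ α α') :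
    Swp q h R i P c φ' (τ α) (τ α') := by
  obtain ⟨σ, h1, h2, h3, h4, h5, h6, h7, h8, h9⟩ := hS
  have hτs : ∀ x, τ (τ.symm x) = x := fun x => τ.apply_symm_apply x
  have hσ : ∀ x, ((τ.symm.trans σ).trans τ) x = τ (σ (τ.symm x)) := fun x => rfl
  refine ⟨(τ.symm.trans σ).trans τ, (isRoot_aut P τ φ φ' hτ α).2 h1,
    (isRoot_aut P τ φ φ' hτ α').2 h2, fun e => h3 (τ.injective e), ?_, ?_, ?_, ?_, ?_, ?_⟩
  · rw [hσ, τ.symm_apply_apply, h4]
  · rw [hσ, τ.symm_apply_apply, h5]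
  · intro β hβ n1 n2
    rw [hσ, h6, hτs]
    · rw [← isRoot_aut P τ φ φ' hτ, hτs]
      exact hβ
    · intro e
      apply n1
      rw [← e, hτs]
    · intro e
      apply n2
      rw [← e, hτs]
  · intro φ₁ n1 n2 β hβ
    rw [hσ, h7 ((τ.symm : L →+* L).comp φ₁), hτs]
    · intro e
      apply n1
      ext x
      have h10 := DFunLike.congr_fun e x
      rw [← hτ, ← h10]
      exact (hτs _).symm
    · intro e
      apply n2
      ext x
      have h10 := DFunLike.congr_fun e x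
      rw [RingHom.comp_apply, ← hτ]
      have h11 : φ (c x) = τ.symm (φ₁ x) := h10.symm
      rw [h11, hτs]
    · rw [← isRoot_aut P τ ((τ.symm : L →+* L).comp φ₁) φ₁ (fun x => hτs _), hτs]
      exact hβ
  · intro i' hi' β hβ
    rw [hσ, h8 i' hi' _ (aeval_alg L _ _ _ hβ), hτs]
  · intro β hβ
    rw [hσ, h9 _ (aeval_alg L _ _ _ hβ), hτs]

/-- an automorphism which fixes one root of the block of `φ` and permutes the others
transitively -/
def Fxp (P : E[X]) (φ : E →+* L) : Prop :=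
  ∃ (σ : L ≃ₐ[ℚ] L) (ϑ : L), (∀ x, σ (φ x) = φ x) ∧ (P.map φ).IsRoot ϑ ∧ σ ϑ = ϑ ∧
    ∀ β, (P.map φ).IsRoot β → β ≠ ϑ → ∀ β', (P.map φ).IsRoot β' → β' ≠ ϑ →
      ∃ n : ℕ, (σ : L → L)^[n] β = β'

lemma fxp_conj {P : E[X]} {φ φ' : E →+* L} (τ : L ≃ₐ[ℚ] L)
    (hτ : ∀ x, τ (φ x) = φ' x) (hS : Fxp P φ) : Fxp P φ' := by
  obtain ⟨σ, ϑ, h1, h2, h3, h4⟩ := hS
  have hτs : ∀ x, τ (τ.symm x) = x := fun x => τ.apply_symm_apply x
  have hσ : ∀ x, ((τ.symm.trans σ).trans τ) x = τ (σ (τ.symm x)) := fun x => rfl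
  have hit : ∀ (n : ℕ) (x : L), (((τ.symm.trans σ).trans τ : L ≃ₐ[ℚ] L) : L → L)^[n] (τ x) =
      τ ((σ : L → L)^[n] x) := by
    intro n
    induction n with
    | zero => intro x; rfl
    | succ n ih =>
      intro x
      rw [Function.iterate_succ_apply, hσ, τ.symm_apply_apply, ih, Function.iterate_succ_apply]
  refine ⟨(τ.symm.trans σ).trans τ, τ ϑ, ?_, (isRoot_aut P τ φ φ' hτ ϑ).2 h2, ?_, ?_⟩
  · intro x
    rw [hσ, ← hτ, τ.symm_apply_apply, h1]
  · rw [hσ, τ.symm_apply_apply, h3]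
  · intro β hβ n1 β' hβ' n2
    obtain ⟨n, hn⟩ := h4 (τ.symm β) ((isRoot_aut P τ φ φ' hτ _).1 (by rw [hτs]; exact hβ))
      (fun e => n1 (by rw [← e, hτs])) (τ.symm β')
      ((isRoot_aut P τ φ φ' hτ _).1 (by rw [hτs]; exact hβ')) (fun e => n2 (by rw [← e, hτs]))
    refine ⟨n, ?_⟩
    have h5 := hit n (τ.symm β)
    rw [hτs, hn, hτs] at h5
    exact h5

/-- The swaps connect the roots in a block. -/
lemma const_of_swp {i : J} {P : E[X]} {c : E →+* E} {φ : E →+* L} {V : Type} (e : L → V)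
    (hP : P.Monic) (hswp : 2 ≤ P.natDegree → ∀ z, (P.map φ).IsRoot z →
      ∃ z', Swp q h R i P c φ z z' ∧ ∀ s : ℕ, 0 < s → z ^ s ≠ z' ^ s)
    (he : ∀ z z', Swp q h R i P c φ z z' → (∀ s : ℕ, 0 < s → z ^ s ≠ z' ^ s) → e z = e z')
    (hfix : 3 ≤ P.natDegree → Fxp P φ) {z z' : L} (hz : (P.map φ).IsRoot z)
    (hz' : (P.map φ).IsRoot z') : e z = e z' := by
  classical
  have hne : P.map φ ≠ 0 := (hP.map φ).ne_zero
  have hcard : ∀ S : Finset L, (∀ x ∈ S, (P.map φ).IsRoot x) → S.card ≤ P.natDegree := by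
    intro S hS
    have h1 : S ⊆ (P.map φ).roots.toFinset := by
      intro x hx
      rw [Multiset.mem_toFinset, mem_roots hne]
      exact hS x hx
    refine (Finset.card_le_card h1).trans ((Multiset.toFinset_card_le _).trans
      ((card_roots' _).trans ?_))
    rw [hP.natDegree_map]
  by_cases hzz : z = z'
  · rw [hzz]
  rcases Nat.lt_or_ge P.natDegree 3 with h3 | h3
  · have h2 : 2 ≤ P.natDegree := by
      have := hcard {z, z'} (by
        intro x hx
        rw [Finset.mem_insert, Finset.mem_singleton] at hx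
        rcases hx with rfl | rfl
        · exact hz
        · exact hz')
      rwa [Finset.card_pair hzz] at this
    obtain ⟨z'', hz'', hrz⟩ := hswp h2 z hz
    have h4 : z'' = z' := by
      by_contra hne'
      obtain ⟨σ, h1, h2, h3', -⟩ := id hz''
      have := hcard {z, z', z''} (by
        intro x hx
        rw [Finset.mem_insert, Finset.mem_insert, Finset.mem_singleton] at hx
        rcases hx with rfl | rfl | rfl
        · exact hz
        · exact hz'
        · exact h2)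
      rw [Finset.card_insert_of_notMem (by
        rw [Finset.mem_insert, Finset.mem_singleton]
        push Not
        exact ⟨hzz, h3'⟩), Finset.card_pair (fun e => hne' e.symm)] at this
      omega
    rw [← h4]
    exact he _ _ hz'' hrz
  · obtain ⟨σ, ϑ, h1, h2, h4, h5⟩ := hfix h3
    obtain ⟨ϑ', hϑ', hrϑ⟩ := hswp (by omega) ϑ h2
    have hall : ∀ b, (P.map φ).IsRoot b → e b = e ϑ := by
      intro b hb
      by_cases hbϑ : b = ϑ
      · rw [hbϑ]
      obtain ⟨-, -, r2, r3, -⟩ := id hϑ'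
      obtain ⟨n, hn⟩ := h5 ϑ' r2 r3.symm b hb hbϑ
      have hit : ∀ n : ℕ, Swp q h R i P c φ ϑ ((σ : L → L)^[n] ϑ') ∧
          ∀ s : ℕ, 0 < s → ϑ ^ s ≠ ((σ : L → L)^[n] ϑ') ^ s := by
        intro n
        induction n with
        | zero => exact ⟨hϑ', hrϑ⟩
        | succ n ih =>
          rw [Function.iterate_succ_apply']
          have h6 := swp_conj σ h1 ih.1
          rw [h4] at h6
          refine ⟨h6, fun s hs e => ih.2 s hs ?_⟩
          apply σ.injective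
          rw [map_pow, map_pow, h4]
          exact e
      rw [← hn]
      exact (he _ _ (hit n).1 (hit n).2).symm
    rw [hall z hz, hall z' hz']

end Swap

end Pool.Agent.K7.H1.UM
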