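import Pool.Agent.K7.H1.UM.UDefs
import Pool.Agent.W458.MF.OStm

/-!
# Matrices over finite fields with a given determinant: sets of polynomials
-/

set_option autoImplicit false

open Polynomial

namespace Pool.Agent.K7.H1.UM

open Pool.Agent.W458.MF

/-- Products of `r` different linear factors. -/
def linSet (r l : ℕ) : Set (ZMod l)[X] :=
  {f | ∃ T : Finset (ZMod l), T.card = r ∧ f = ∏ t ∈ T, (X - C t)}

/-- Products of `r - 2` different linear factors and of an irreducible quadratic polynomial
`X ^ 2 - u X + v`, where `luc v N` does not vanish at `u`. -/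
def swapSet (r N l : ℕ) : Set (ZMod l)[X] :=
  {f | ∃ (T : Finset (ZMod l)) (u : ZMod l) (v : ℕ), T.card + 2 = r ∧
    ¬ IsSquare (u ^ 2 - 4 * (v : ZMod l)) ∧
    ((luc v N).map (Int.castRingHom (ZMod l))).eval u ≠ 0 ∧
    f = (X ^ 2 - C u * X + C (v : ZMod l)) * ∏ t ∈ T, (X - C t)}

end Pool.Agent.K7.H1.UM
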