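import Pool.Agent.K7.H1.UM.Mat
import Pool.Agent.K7.H1.UM.PDefs

/-!
# Proportions of characteristic polynomials
-/

set_option autoImplicit false

open Polynomial

namespace Pool.Agent.K7.H1.UM

open Pool.Agent.W458.MF

section Props

variable {r l : ℕ}

lemma uproportion_nonneg {d : ZMod l} (E : Set (ZMod l)[X]) : 0 ≤ uproportion r l d E := by
  unfold uproportion
  positivity

lemma uproportion_mono (hl : l.Prime) {d : ZMod l} {E E' : Set (ZMod l)[X]} (h : E ⊆ E') :
    uproportion r l d E ≤ uproportion r l d E' := by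
  have : NeZero l := ⟨hl.ne_zero⟩
  unfold uproportion
  refine div_le_div_of_nonneg_right ?_ (by positivity)
  refine Nat.cast_le.2 (Set.ncard_le_ncard ?_ (Set.toFinite _))
  rintro A ⟨hA, hA'⟩
  exact ⟨hA, h hA'⟩

lemma uproportion_le_one (hl : l.Prime) {d : ZMod l} (E : Set (ZMod l)[X]) :
    uproportion r l d E ≤ 1 := by
  have : NeZero l := ⟨hl.ne_zero⟩
  unfold uproportion
  refine div_le_one_of_le₀ ?_ (by positivity)
  refine Nat.cast_le.2 (Set.ncard_le_ncard ?_ (Set.toFinite _))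
  rintro A ⟨hA, -⟩
  exact hA

/-- A lower bound for the proportions. -/
lemma uproportion_lower [Fact l.Prime] (hr : 0 < r) (d : ZMod l) (hd : d ≠ 0)
    (E : Set (ZMod l)[X]) (G : Finset (ZMod l)[X])
    (hG : ∀ f ∈ G, f.Monic ∧ f.natDegree = r ∧ f.coeff 0 = (-1) ^ r * d ∧ f ∈ E) :
    (G.card : ℝ) * ((l : ℝ) - 1) / (l : ℝ) ^ r ≤ uproportion r l d E := by
  classical
  have hl : l.Prime := Fact.out
  rcases G.eq_empty_or_nonempty with hGe | hGne
  · rw [hGe, Finset.card_empty, Nat.cast_zero, zero_mul, zero_div]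
    exact uproportion_nonneg _
  set gl := Fintype.card (Matrix (Fin r) (Fin r) (ZMod l))ˣ with hgl
  have hglpos : 0 < gl := Fintype.card_pos
  have hcard : Fintype.card (ZMod l) = l := ZMod.card l
  -- the number of matrices in the set
  have h1 : G.card * gl ≤ l ^ r *
      {A : Matrix (Fin r) (Fin r) (ZMod l) | A.det = d ∧ A.charpoly ∈ E}.ncard := by
    have h2 : G.card * gl ≤ ∑ f ∈ G, l ^ r *
        (Finset.univ.filter (fun A : Matrix (Fin r) (Fin r) (ZMod l) => A.charpoly = f)).card := by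
      rw [← smul_eq_mul, ← Finset.sum_const]
      refine Finset.sum_le_sum fun f hf => ?_
      have := card_charpoly (r := r) f (hG f hf).1 (hG f hf).2.1
      rwa [hcard] at this
    refine h2.trans ?_
    rw [← Finset.mul_sum, ← Finset.card_biUnion]
    · refine Nat.mul_le_mul_left _ ?_
      rw [← Set.ncard_coe_finset]
      refine Set.ncard_le_ncard ?_ (Set.toFinite _)
      intro A hA
      obtain ⟨f, hf, hA⟩ := Finset.mem_biUnion.1 (Finset.mem_coe.1 hA)
      have hA' := (Finset.mem_filter.1 hA).2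
      obtain ⟨g1, g2, g3, g4⟩ := hG f hf
      refine ⟨?_, by rw [hA']; exact g4⟩
      rw [Matrix.det_eq_sign_charpoly_coeff, hA', g3, Fintype.card_fin, ← mul_assoc,
        ← pow_add, ← two_mul, pow_mul]
      simp
    · intro f _ g _ hfg
      rw [Function.onFun, Finset.disjoint_left]
      intro A hA hA'
      exact hfg ((Finset.mem_filter.1 hA).2.symm.trans (Finset.mem_filter.1 hA').2)
  have h2 : {A : Matrix (Fin r) (Fin r) (ZMod l) | A.det = d}.ncard * (l - 1) ≤ gl := by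
    have h3 := card_det (K := ZMod l) hr d hd
    rw [hcard] at h3
    have e : {A : Matrix (Fin r) (Fin r) (ZMod l) | A.det = d} =
        ((Finset.univ.filter (fun A : Matrix (Fin r) (Fin r) (ZMod l) => A.det = d) :
          Finset (Matrix (Fin r) (Fin r) (ZMod l))) : Set _) := by
      ext A
      simp
    rw [e, Set.ncard_coe_finset]
    exact h3
  set a := {A : Matrix (Fin r) (Fin r) (ZMod l) | A.det = d ∧ A.charpoly ∈ E}.ncard with ha
  set b := {A : Matrix (Fin r) (Fin r) (ZMod l) | A.det = d}.ncard with hb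
  have hab : a ≤ b := Set.ncard_le_ncard (fun A hA => hA.1) (Set.toFinite _)
  have hapos : 0 < a := by
    rw [Nat.pos_iff_ne_zero]
    intro h0
    rw [h0, mul_zero] at h1
    have := Nat.mul_pos hGne.card_pos hglpos
    omega
  have hbpos : 0 < b := lt_of_lt_of_le hapos hab
  unfold uproportion
  rw [← ha, ← hb]
  have hl1 : ((l - 1 : ℕ) : ℝ) = (l : ℝ) - 1 := by
    rw [Nat.cast_sub hl.one_lt.le, Nat.cast_one]
  rw [div_le_div_iff₀ (by
    have : 0 < (l : ℝ) := by exact_mod_cast hl.pos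
    positivity) (by exact_mod_cast hbpos), ← hl1]
  have h3 : G.card * (b * (l - 1)) ≤ l ^ r * a := (Nat.mul_le_mul_left _ h2).trans h1
  have h4 : ((G.card * (b * (l - 1)) : ℕ) : ℝ) ≤ ((l ^ r * a : ℕ) : ℝ) := by exact_mod_cast h3
  push_cast at h4 ⊢
  nlinarith [h4]

lemma uproportion_lower' [Fact l.Prime] (hr : 0 < r) (d : ZMod l) (hd : d ≠ 0)
    (E : Set (ZMod l)[X]) (G : Finset (ZMod l)[X])
    (hG : ∀ f ∈ G, f.Monic ∧ f.natDegree = r ∧ f.coeff 0 = (-1) ^ r * d ∧ f ∈ E) {K : ℕ}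
    (hK : 0 < K) (hc : l ^ (r - 1) ≤ K * G.card) :
    1 / (2 * (K : ℝ)) ≤ uproportion r l d E := by
  have hl : l.Prime := Fact.out
  refine le_trans ?_ (uproportion_lower hr d hd E G hG)
  have hl2 : (2 : ℝ) ≤ l := by exact_mod_cast hl.two_le
  have hlpos : 0 < (l : ℝ) := by linarith
  have hKpos : 0 < (K : ℝ) := by exact_mod_cast hK
  have h1 : (l : ℝ) ^ (r - 1) ≤ (K : ℝ) * (G.card : ℝ) := by exact_mod_cast hc
  obtain ⟨r', rfl⟩ : ∃ r', r = r' + 1 := ⟨r - 1, by omega⟩
  rw [Nat.add_sub_cancel] at h1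
  rw [div_le_div_iff₀ (by positivity) (by positivity), one_mul, pow_succ]
  have h2 : (l : ℝ) ^ r' * ((l : ℝ) - 1) ≤ (K : ℝ) * (G.card : ℝ) * ((l : ℝ) - 1) :=
    mul_le_mul_of_nonneg_right h1 (by linarith)
  have h3 : (l : ℝ) ^ r' * (l : ℝ) ≤ 2 * ((l : ℝ) ^ r' * ((l : ℝ) - 1)) := by
    have : 0 < (l : ℝ) ^ r' := by positivity
    nlinarith
  nlinarith

end Props

section Pairs

variable {l : ℕ} [Fact l.Prime]

lemma prod_ne_zero' (T : Finset (ZMod l)) : (∏ t ∈ T, (X - C t) : (ZMod l)[X]) ≠ 0 :=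
  Finset.prod_ne_zero_iff.2 fun t _ => X_sub_C_ne_zero t

open Classical in
/-- The number of the products of a polynomial and of a product of different linear factors. -/
lemma pair_count (r : ℕ) (𝒯 : Finset (Finset (ZMod l)))
    (𝒬 : Finset (ZMod l) → Finset (ZMod l)[X]) (M : ℕ) (hM : ∀ T ∈ 𝒯, M ≤ (𝒬 T).card)
    (hw : ∀ T ∈ 𝒯, ∀ w ∈ 𝒬 T, w ≠ 0 ∧ (w * ∏ t ∈ T, (X - C t)).natDegree = r) :
    M * 𝒯.card ≤ 2 ^ r *
      (𝒯.biUnion fun T => (𝒬 T).image fun w => w * ∏ t ∈ T, (X - C t)).card := by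
  have h1 : M * 𝒯.card ≤ (𝒯.sigma 𝒬).card := by
    rw [Finset.card_sigma, mul_comm, ← smul_eq_mul, ← Finset.sum_const]
    exact Finset.sum_le_sum hM
  refine h1.trans ?_
  refine Finset.card_le_mul_card_image_of_maps_to
    (f := fun x : (_ : Finset (ZMod l)) × (ZMod l)[X] => x.2 * ∏ t ∈ x.1, (X - C t)) ?_ _ ?_
  · rintro ⟨T, w⟩ h
    obtain ⟨hT, hw'⟩ := Finset.mem_sigma.1 h
    exact Finset.mem_biUnion.2 ⟨T, hT, Finset.mem_image.2 ⟨w, hw', rfl⟩⟩
  · intro f hf
    obtain ⟨T₀, hT₀, hf'⟩ := Finset.mem_biUnion.1 hf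
    obtain ⟨w₀, hw₀, rfl⟩ := Finset.mem_image.1 hf'
    set f := w₀ * ∏ t ∈ T₀, (X - C t) with hfdef
    have hf0 : f ≠ 0 := mul_ne_zero (hw T₀ hT₀ w₀ hw₀).1 (prod_ne_zero' T₀)
    have hdeg : f.natDegree = r := (hw T₀ hT₀ w₀ hw₀).2
    have hroots : f.roots.toFinset.card ≤ r := by
      rw [← hdeg]
      exact (Multiset.toFinset_card_le _).trans (card_roots' f)
    have h2 : (Finset.filter (fun x : (_ : Finset (ZMod l)) × (ZMod l)[X] =>
        x.2 * ∏ t ∈ x.1, (X - C t) = f) (𝒯.sigma 𝒬)).card ≤ f.roots.toFinset.powerset.card := by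
      refine Finset.card_le_card_of_injOn (fun x => x.1) ?_ ?_
      · rintro ⟨T, w⟩ h
        obtain ⟨-, h3⟩ := Finset.mem_filter.1 (Finset.mem_coe.1 h)
        refine Finset.mem_coe.2 (Finset.mem_powerset.2 fun t ht => ?_)
        rw [Multiset.mem_toFinset, mem_roots hf0, IsRoot.def, ← h3, eval_mul, eval_prod,
          Finset.prod_eq_zero ht (by simp), mul_zero]
      · rintro ⟨T, w⟩ h ⟨T', w'⟩ h' hTT
        obtain ⟨-, h3⟩ := Finset.mem_filter.1 (Finset.mem_coe.1 h)
        obtain ⟨-, h3'⟩ := Finset.mem_filter.1 (Finset.mem_coe.1 h')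
        have e : T = T' := hTT
        subst e
        have : w = w' := mul_right_cancel₀ (prod_ne_zero' T) (h3.trans h3'.symm)
        rw [this]
    refine h2.trans ?_
    rw [Finset.card_powerset]
    exact Nat.pow_le_pow_right (by norm_num) hroots

omit [Fact l.Prime] in
/-- The number of subsets of the nonzero elements. -/
lemma choose_lower' (k : ℕ) (hl : 2 * k + 1 ≤ l) :
    l ^ k ≤ 2 ^ k * k.factorial * (l - 1).choose k := by
  have h1 : (l - 1 + 1 - k) ^ k ≤ k.factorial * (l - 1).choose k := by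
    have := Nat.pow_sub_le_descFactorial (l - 1) k
    rw [Nat.descFactorial_eq_factorial_mul_choose] at this
    exact this
  have h2 : l ≤ 2 * (l - 1 + 1 - k) := by omega
  calc l ^ k ≤ (2 * (l - 1 + 1 - k)) ^ k := Nat.pow_le_pow_left h2 k
    _ = 2 ^ k * (l - 1 + 1 - k) ^ k := mul_pow _ _ _
    _ ≤ 2 ^ k * (k.factorial * (l - 1).choose k) := Nat.mul_le_mul_left _ h1
    _ = _ := by ring

end Pairs

end Pool.Agent.K7.H1.UM
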