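import Pool.Agent.K7.H1.UM.Dens1
import Pool.Agent.W205.MF.CNT

/-!
# The number of polynomials with given patterns and given constant coefficient
-/

set_option autoImplicit false

open Polynomial

namespace Pool.Agent.K7.H1.UM

open Pool.Agent.W458.MF Pool.Agent.W205.MF

section Cnt

variable {l : ℕ} [Fact l.Prime]

lemma coeff_prod (T : Finset (ZMod l)) :
    (∏ t ∈ T, (X - C t) : (ZMod l)[X]).coeff 0 = ∏ t ∈ T, (-t) := by
  rw [coeff_zero_eq_eval_zero, eval_prod]
  exact Finset.prod_congr rfl fun _ _ => by simp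

/-- The constant coefficient of the remaining factor. -/
noncomputable def cst (r : ℕ) (d : ZMod l) (T : Finset (ZMod l)) : ZMod l :=
  (-1) ^ r * d * (∏ t ∈ T, (-t))⁻¹

lemma prod_neg_ne {T : Finset (ZMod l)} (hT : (0 : ZMod l) ∉ T) : ∏ t ∈ T, (-t) ≠ 0 :=
  Finset.prod_ne_zero_iff.2 fun t ht => neg_ne_zero.2 fun h => hT (h ▸ ht)

lemma cst_ne {r : ℕ} {d : ZMod l} (hd : d ≠ 0) {T : Finset (ZMod l)} (hT : (0 : ZMod l) ∉ T) :
    cst r d T ≠ 0 :=
  mul_ne_zero (mul_ne_zero (pow_ne_zero _ (neg_ne_zero.2 one_ne_zero)) hd)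
    (inv_ne_zero (prod_neg_ne hT))

lemma cst_mul {r : ℕ} {d : ZMod l} {T : Finset (ZMod l)} (hT : (0 : ZMod l) ∉ T) :
    cst r d T * ∏ t ∈ T, (-t) = (-1) ^ r * d := by
  unfold cst
  rw [inv_mul_cancel_right₀ (prod_neg_ne hT)]

/-- The constant in the bounds. -/
def Kc (r : ℕ) : ℕ := 4 * (2 ^ (r - 2) * (r - 2).factorial) * 2 ^ r

lemma Kc_pos (r : ℕ) : 0 < Kc r := by unfold Kc; positivity

open Classical in
/-- The number of products of a quadratic polynomial and of different linear factors. -/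
lemma pairs_lower (r : ℕ) (hr : 2 ≤ r) (hl : 2 * r ≤ l)
    (𝒬 : Finset (ZMod l) → Finset (ZMod l)[X])
    (h4 : ∀ T ∈ (Finset.univ.erase (0 : ZMod l)).powersetCard (r - 2), l ≤ 4 * (𝒬 T).card)
    (hw : ∀ T ∈ (Finset.univ.erase (0 : ZMod l)).powersetCard (r - 2), ∀ w ∈ 𝒬 T,
      w.Monic ∧ w.natDegree = 2) :
    l ^ (r - 1) ≤ Kc r * (((Finset.univ.erase (0 : ZMod l)).powersetCard (r - 2)).biUnion
      fun T => (𝒬 T).image fun w => w * ∏ t ∈ T, (X - C t)).card := by
  set 𝒯 := (Finset.univ.erase (0 : ZMod l)).powersetCard (r - 2) with h𝒯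
  have hTc : 𝒯.card = (l - 1).choose (r - 2) := by
    rw [h𝒯, Finset.card_powersetCard, Finset.card_erase_of_mem (Finset.mem_univ _),
      Finset.card_univ, ZMod.card]
  have h1 := pair_count r 𝒯 𝒬 ((l + 3) / 4) (fun T hT => by have := h4 T hT; omega) (by
    intro T hT w hwT
    obtain ⟨hm, hd⟩ := hw T hT w hwT
    refine ⟨hm.ne_zero, ?_⟩
    rw [hm.natDegree_mul (monic_prod_X_sub_C _ _), hd, natDegree_finsetProd_X_sub_C_eq_card,
      (Finset.mem_powersetCard.1 hT).2]
    omega)
  have h2 := choose_lower' (l := l) (r - 2) (by omega)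
  rw [hTc] at h1
  obtain ⟨r', rfl⟩ : ∃ r', r = r' + 2 := ⟨r - 2, by omega⟩
  rw [Nat.add_sub_cancel] at h1 h2
  have e : r' + 2 - 1 = r' + 1 := by omega
  rw [e, pow_succ]
  have h3 : l ≤ 4 * ((l + 3) / 4) := by omega
  unfold Kc
  rw [Nat.add_sub_cancel]
  calc l ^ r' * l ≤ (2 ^ r' * r'.factorial * (l - 1).choose r') * (4 * ((l + 3) / 4)) :=
        Nat.mul_le_mul h2 h3
    _ = 4 * (2 ^ r' * r'.factorial) * ((l + 3) / 4 * (l - 1).choose r') := by ring
    _ ≤ 4 * (2 ^ r' * r'.factorial) * (2 ^ (r' + 2) * _) := Nat.mul_le_mul_left _ h1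
    _ = _ := by ring

lemma natDegree_quad (u v : ZMod l) : (X ^ 2 - C u * X + C v : (ZMod l)[X]).natDegree = 2 ∧
    (X ^ 2 - C u * X + C v : (ZMod l)[X]).Monic := by
  have h : (X ^ 2 - C u * X + C v : (ZMod l)[X]) = X ^ 2 + (C (-u) * X + C v) := by
    rw [map_neg]
    ring
  have hd : (C (-u) * X + C v : (ZMod l)[X]).degree < ((2 : ℕ) : WithBot ℕ) := by
    refine lt_of_le_of_lt degree_linear_le ?_
    norm_num
  refine ⟨?_, ?_⟩
  · rw [h, natDegree_add_eq_left_of_degree_lt (by rw [degree_X_pow]; exact hd), natDegree_X_pow]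
  · rw [h]
    exact monic_X_pow_add hd

/-- The number of polynomials with the swap pattern. -/
theorem swap_count (r N : ℕ) (hr : 2 ≤ r) (hN : 0 < N) (hl : 2 * r + 4 * N + 12 ≤ l)
    (d : ZMod l) (hd : d ≠ 0) : ∃ G : Finset (ZMod l)[X],
      (∀ f ∈ G, f.Monic ∧ f.natDegree = r ∧ f.coeff 0 = (-1) ^ r * d ∧ f ∈ swapSet r N l) ∧
      l ^ (r - 1) ≤ Kc r * G.card := by
  classical
  let 𝒬 : Finset (ZMod l) → Finset (ZMod l)[X] := fun T =>
    (NL N l (cst r d T).val).image fun u => X ^ 2 - C u * X + C (cst r d T)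
  have h0 : ∀ T ∈ (Finset.univ.erase (0 : ZMod l)).powersetCard (r - 2), (0 : ZMod l) ∉ T := by
    intro T hT h
    have := (Finset.mem_powersetCard.1 hT).1 h
    simp at this
  refine ⟨_, ?_, pairs_lower r hr (by omega) 𝒬 ?_ ?_⟩
  · intro f hf
    obtain ⟨T, hT, hf⟩ := Finset.mem_biUnion.1 hf
    obtain ⟨w, hw, rfl⟩ := Finset.mem_image.1 hf
    obtain ⟨u, hu, rfl⟩ := Finset.mem_image.1 hw
    have hT0 := h0 T hT
    have hTc := (Finset.mem_powersetCard.1 hT).2
    obtain ⟨hd2, hm⟩ := natDegree_quad u (cst r d T)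
    refine ⟨hm.mul (monic_prod_X_sub_C _ _), ?_, ?_, ?_⟩
    · rw [hm.natDegree_mul (monic_prod_X_sub_C _ _), hd2, natDegree_finsetProd_X_sub_C_eq_card,
        hTc]
      omega
    · rw [mul_coeff_zero, coeff_prod]
      have e : (X ^ 2 - C u * X + C (cst r d T) : (ZMod l)[X]).coeff 0 = cst r d T := by
        rw [coeff_zero_eq_eval_zero]
        simp
      rw [e, cst_mul hT0]
    · obtain ⟨h1, h2⟩ := (mem_NL N l _ u).1 hu
      exact ⟨T, u, (cst r d T).val, by rw [hTc]; omega, h1, h2,
        by rw [ZMod.natCast_zmod_val]⟩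
  · intro T hT
    rw [Finset.card_image_of_injective]
    · refine card_NL N l _ hN (by omega) ?_
      intro h
      have h1 := cst_ne (r := r) hd (h0 T hT)
      apply h1
      rw [← ZMod.natCast_zmod_val (cst r d T)]
      exact (ZMod.natCast_eq_zero_iff _ _).2 h
    · intro u u' h
      have h1 := congrArg (fun f : (ZMod l)[X] => f.coeff 1) h
      simpa [coeff_X, coeff_C] using h1
  · intro T hT w hw
    obtain ⟨u, hu, rfl⟩ := Finset.mem_image.1 hw
    obtain ⟨hd2, hm⟩ := natDegree_quad u (cst r d T)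
    exact ⟨hm, hd2⟩

/-- The number of polynomials with the split pattern. -/
theorem lin_count (r : ℕ) (hr : 2 ≤ r) (hl : 4 * r ≤ l)
    (d : ZMod l) (hd : d ≠ 0) : ∃ G : Finset (ZMod l)[X],
      (∀ f ∈ G, f.Monic ∧ f.natDegree = r ∧ f.coeff 0 = (-1) ^ r * d ∧ f ∈ linSet r l) ∧
      l ^ (r - 1) ≤ Kc r * G.card := by
  classical
  let A : Finset (ZMod l) → Finset (ZMod l) := fun T =>
    Finset.univ.filter fun a => a ≠ 0 ∧ a ∉ T ∧ cst r d T / a ∉ T ∧ a ≠ cst r d T / a
  let 𝒬 : Finset (ZMod l) → Finset (ZMod l)[X] := fun T =>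
    (A T).image fun a => (X - C a) * (X - C (cst r d T / a))
  have h0 : ∀ T ∈ (Finset.univ.erase (0 : ZMod l)).powersetCard (r - 2), (0 : ZMod l) ∉ T := by
    intro T hT h
    have := (Finset.mem_powersetCard.1 hT).1 h
    simp at this
  refine ⟨_, ?_, pairs_lower r hr (by omega) 𝒬 ?_ ?_⟩
  · intro f hf
    obtain ⟨T, hT, hf⟩ := Finset.mem_biUnion.1 hf
    obtain ⟨w, hw, rfl⟩ := Finset.mem_image.1 hf
    obtain ⟨a, ha, rfl⟩ := Finset.mem_image.1 hw
    obtain ⟨a1, a2, a3, a4⟩ := (Finset.mem_filter.1 ha).2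
    have hT0 := h0 T hT
    have hTc := (Finset.mem_powersetCard.1 hT).2
    have hm : ((X - C a) * (X - C (cst r d T / a)) : (ZMod l)[X]).Monic :=
      (monic_X_sub_C _).mul (monic_X_sub_C _)
    have hd2 : ((X - C a) * (X - C (cst r d T / a)) : (ZMod l)[X]).natDegree = 2 := by
      rw [(monic_X_sub_C _).natDegree_mul (monic_X_sub_C _), natDegree_X_sub_C, natDegree_X_sub_C]
    refine ⟨hm.mul (monic_prod_X_sub_C _ _), ?_, ?_, ?_⟩
    · rw [hm.natDegree_mul (monic_prod_X_sub_C _ _), hd2, natDegree_finsetProd_X_sub_C_eq_card,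
        hTc]
      omega
    · rw [mul_coeff_zero, coeff_prod]
      have e : ((X - C a) * (X - C (cst r d T / a)) : (ZMod l)[X]).coeff 0 = cst r d T := by
        rw [coeff_zero_eq_eval_zero, eval_mul, eval_sub, eval_sub, eval_X, eval_C, eval_C]
        field_simp
        ring
      rw [e, cst_mul hT0]
    · refine ⟨insert a (insert (cst r d T / a) T), ?_, ?_⟩
      · rw [Finset.card_insert_of_notMem, Finset.card_insert_of_notMem a3, hTc]
        · omega
        · rw [Finset.mem_insert]
          rintro (h | h)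
          · exact a4 h
          · exact a2 h
      · rw [Finset.prod_insert, Finset.prod_insert a3, mul_assoc]
        rw [Finset.mem_insert]
        rintro (h | h)
        · exact a4 h
        · exact a2 h
  · intro T hT
    have hT0 := h0 T hT
    have hTc := (Finset.mem_powersetCard.1 hT).2
    set v := cst r d T with hv
    have hv0 : v ≠ 0 := cst_ne hd hT0
    have h1 : (A T).card ≤ 2 * (𝒬 T).card := by
      refine Finset.card_le_mul_card_image (s := A T) 2 ?_
      intro w hw
      obtain ⟨b, hb, rfl⟩ := Finset.mem_image.1 hw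
      have h2 : (Finset.filter (fun a => (X - C a) * (X - C (v / a)) =
          ((X - C b) * (X - C (v / b)) : (ZMod l)[X])) (A T)) ⊆ {b, v / b} := by
        intro a ha
        have h3 := (Finset.mem_filter.1 ha).2
        have h4 := congrArg (eval a) h3
        rw [eval_mul, eval_mul] at h4
        simp only [eval_sub, eval_X, eval_C, sub_self, zero_mul] at h4
        rw [Finset.mem_insert, Finset.mem_singleton]
        rcases mul_eq_zero.1 h4.symm with h5 | h5
        · exact Or.inl (sub_eq_zero.1 h5)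
        · exact Or.inr (sub_eq_zero.1 h5)
      exact (Finset.card_le_card h2).trans Finset.card_le_two
    have h2 : (Finset.univ : Finset (ZMod l)) ⊆
        (A T) ∪ ({0} ∪ (T ∪ (T.image (fun t => v / t) ∪
          (X ^ 2 - C v : (ZMod l)[X]).roots.toFinset))) := by
      intro a _
      simp only [Finset.mem_union, Finset.mem_singleton, Finset.mem_image]
      by_cases a1 : a = 0
      · exact Or.inr (Or.inl a1)
      by_cases a2 : a ∈ T
      · exact Or.inr (Or.inr (Or.inl a2))
      by_cases a3 : v / a ∈ T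
      · exact Or.inr (Or.inr (Or.inr (Or.inl ⟨v / a, a3, div_div_cancel₀ hv0⟩)))
      by_cases a4 : a = v / a
      · right; right; right; right
        rw [Multiset.mem_toFinset, mem_roots (X_pow_sub_C_ne_zero (by norm_num) v), IsRoot.def]
        simp only [eval_sub, eval_pow, eval_X, eval_C]
        rw [sub_eq_zero, sq]
        nth_rw 2 [a4]
        field_simp
      · left
        exact Finset.mem_filter.2 ⟨Finset.mem_univ _, a1, a2, a3, a4⟩
    have h3 := Finset.card_le_card h2
    rw [Finset.card_univ, ZMod.card] at h3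
    have h4 := Finset.card_union_le (A T) ({0} ∪ (T ∪ (T.image (fun t => v / t) ∪
          (X ^ 2 - C v : (ZMod l)[X]).roots.toFinset)))
    have h5 := Finset.card_union_le {0} (T ∪ (T.image (fun t => v / t) ∪
          (X ^ 2 - C v : (ZMod l)[X]).roots.toFinset))
    have h6 := Finset.card_union_le T (T.image (fun t => v / t) ∪
          (X ^ 2 - C v : (ZMod l)[X]).roots.toFinset)
    have h7 := Finset.card_union_le (T.image (fun t => v / t))
          (X ^ 2 - C v : (ZMod l)[X]).roots.toFinset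
    have h8 : (T.image (fun t => v / t)).card ≤ T.card := Finset.card_image_le
    have h9 : (X ^ 2 - C v : (ZMod l)[X]).roots.toFinset.card ≤ 2 := by
      refine (Multiset.toFinset_card_le _).trans ((card_roots' _).trans ?_)
      rw [natDegree_X_pow_sub_C]
    rw [Finset.card_singleton] at h5
    omega
  · intro T hT w hw
    obtain ⟨u, hu, rfl⟩ := Finset.mem_image.1 hw
    refine ⟨(monic_X_sub_C _).mul (monic_X_sub_C _), ?_⟩
    rw [(monic_X_sub_C _).natDegree_mul (monic_X_sub_C _), natDegree_X_sub_C, natDegree_X_sub_C]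

open Classical in
/-- The number of elements with given norm. -/
lemma card_norm (r : ℕ) (hr : 0 < r) (K : Type) [Field K] [Fintype K] [Algebra (ZMod l) K]
    (hK : Module.finrank (ZMod l) K = r) (d : ZMod l) (hd : d ≠ 0) :
    l ^ (r - 1) ≤ (Finset.univ.filter fun x : K => Algebra.norm (ZMod l) x = d).card := by
  classical
  have hl : l.Prime := Fact.out
  have hfin : FiniteDimensional (ZMod l) K := Module.Finite.of_finite
  have hcK : Fintype.card K = l ^ r := by
    rw [Module.card_eq_pow_finrank (K := ZMod l) (V := K), hK, ZMod.card]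
  have hsurj : Function.Surjective (Units.map (Algebra.norm (ZMod l) (S := K))) :=
    FiniteField.unitsMap_norm_surjective (ZMod l) K
  -- all the fibres have the same number of elements
  have hfib : ∀ e : (ZMod l)ˣ, (Finset.univ.filter fun x : Kˣ =>
      Units.map (Algebra.norm (ZMod l) (S := K)) x = e).card =
      (Finset.univ.filter fun x : Kˣ =>
      Units.map (Algebra.norm (ZMod l) (S := K)) x = Units.mk0 d hd).card := by
    intro e
    obtain ⟨y, hy⟩ := hsurj (e⁻¹ * Units.mk0 d hd)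
    refine Finset.card_bij (fun x _ => x * y) ?_ ?_ ?_
    · intro x hx
      refine Finset.mem_filter.2 ⟨Finset.mem_univ _, ?_⟩
      rw [map_mul, (Finset.mem_filter.1 hx).2, hy, mul_inv_cancel_left]
    · intro a _ b _ h
      exact mul_right_cancel h
    · intro b hb
      refine ⟨b * y⁻¹, ?_, inv_mul_cancel_right b y⟩
      refine Finset.mem_filter.2 ⟨Finset.mem_univ _, ?_⟩
      rw [map_mul, map_inv, (Finset.mem_filter.1 hb).2, hy, mul_inv_rev, inv_inv,
        mul_inv_cancel_left]
  have h1 : Fintype.card Kˣ = (l - 1) * (Finset.univ.filter fun x : Kˣ =>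
      Units.map (Algebra.norm (ZMod l) (S := K)) x = Units.mk0 d hd).card := by
    rw [← Finset.card_univ, Finset.card_eq_sum_card_fiberwise
      (f := fun x : Kˣ => Units.map (Algebra.norm (ZMod l) (S := K)) x)
      (t := (Finset.univ : Finset (ZMod l)ˣ)) (fun _ _ => Finset.mem_coe.2 (Finset.mem_univ _))]
    rw [Finset.sum_congr rfl fun e _ => hfib e, Finset.sum_const, Finset.card_univ,
      ZMod.card_units l, smul_eq_mul]
  rw [Fintype.card_units, hcK] at h1
  have h2 : (Finset.univ.filter fun x : Kˣ =>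
      Units.map (Algebra.norm (ZMod l) (S := K)) x = Units.mk0 d hd).card ≤
      (Finset.univ.filter fun x : K => Algebra.norm (ZMod l) x = d).card := by
    refine Finset.card_le_card_of_injOn (fun x => (x : K)) ?_ ?_
    · intro x hx
      have h3 := (Finset.mem_filter.1 (Finset.mem_coe.1 hx)).2
      refine Finset.mem_coe.2 (Finset.mem_filter.2 ⟨Finset.mem_univ _, ?_⟩)
      exact congrArg Units.val h3
    · intro a _ b _ h
      exact Units.ext h
  refine le_trans ?_ h2
  set M := (Finset.univ.filter fun x : Kˣ =>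
      Units.map (Algebra.norm (ZMod l) (S := K)) x = Units.mk0 d hd).card
  obtain ⟨r', rfl⟩ : ∃ r', r = r' + 1 := ⟨r - 1, by omega⟩
  rw [Nat.add_sub_cancel]
  by_contra hcon
  push Not at hcon
  obtain ⟨l', hl'⟩ : ∃ l', l = l' + 1 := ⟨l - 1, by have := hl.pos; omega⟩
  have h4 : 0 < l' := by have := hl.one_lt; omega
  have h5 : (l - 1) * (M + 1) ≤ (l - 1) * l ^ r' := Nat.mul_le_mul_left _ hcon
  have h6 : 0 < l ^ r' := pow_pos hl.pos _
  have h7 : l ^ (r' + 1) = (l - 1) * l ^ r' + l ^ r' := by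
    rw [hl', Nat.add_sub_cancel, pow_succ]
    ring
  have h8 : 1 ≤ l ^ (r' + 1) := Nat.one_le_pow _ _ hl.pos
  have h9 : (l - 1) * (M + 1) = (l - 1) * M + (l - 1) := by ring
  have h10 : l ^ (r' + 1) = (l - 1) * M + 1 := by omega
  have h11 : (l - 1) * l ^ r' + l ^ r' = (l - 1) * M + 1 := by omega
  omega

/-- The number of irreducible polynomials with given constant coefficient. -/
theorem irr_count_aux (r : ℕ) (hr : 3 ≤ r) (hl : 3 ≤ l) (d : ZMod l) (hd : d ≠ 0)
    (K : Type) [Field K] [Fintype K] [Algebra (ZMod l) K]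
    (hK : Module.finrank (ZMod l) K = r) :
    ∃ G : Finset (ZMod l)[X],
      (∀ f ∈ G, f.Monic ∧ f.natDegree = r ∧ f.coeff 0 = (-1) ^ r * d ∧
        f ∈ Pool.Agent.W458.MF.irrSet r l) ∧
      l ^ (r - 1) ≤ (2 * r) * G.card := by
  classical
  have hfin : FiniteDimensional (ZMod l) K := Module.Finite.of_finite
  have h1 := card_norm r (by omega) K hK d hd
  set S := Finset.univ.filter fun x : K => Algebra.norm (ZMod l) x = d with hS
  set S' := S.filter fun x : K => (minpoly (ZMod l) x).natDegree = r with hS'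
  -- the degree of an element divides `r`
  have hdeg : ∀ x : K, (minpoly (ZMod l) x).natDegree ∣ r ∧
      0 < (minpoly (ZMod l) x).natDegree := by
    intro x
    have hx : IsIntegral (ZMod l) x := Algebra.IsIntegral.isIntegral x
    refine ⟨?_, minpoly.natDegree_pos hx⟩
    rw [← IntermediateField.adjoin.finrank hx]
    refine ⟨_, (hK.symm.trans (Module.finrank_mul_finrank (ZMod l)
      (IntermediateField.adjoin (ZMod l) {x}) K).symm)⟩
  have h2 : S ⊆ S' ∪ (Finset.range (r - 1)).biUnion (fun e => if e = 0 then ∅ else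
        Finset.univ.filter (fun x : K => (minpoly (ZMod l) x).natDegree = e)) := by
    intro x hx
    rw [Finset.mem_union]
    by_cases hxr : (minpoly (ZMod l) x).natDegree = r
    · exact Or.inl (Finset.mem_filter.2 ⟨hx, hxr⟩)
    · right
      rw [Finset.mem_biUnion]
      obtain ⟨⟨k, hk⟩, h4⟩ := hdeg x
      set e := (minpoly (ZMod l) x).natDegree with he
      have h5 : 2 ≤ k := by
        rcases Nat.lt_or_ge k 2 with h6 | h6
        · interval_cases k
          · omega
          · omega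
        · exact h6
      have h6 : e * 2 ≤ r := by
        rw [hk]
        exact Nat.mul_le_mul_left _ h5
      refine ⟨e, Finset.mem_range.2 (by omega), ?_⟩
      rw [if_neg (by omega)]
      exact Finset.mem_filter.2 ⟨Finset.mem_univ _, rfl⟩
  have h3 := (Finset.card_le_card h2).trans (Finset.card_union_le _ _)
  have h4 : ((Finset.range (r - 1)).biUnion
    (fun d => if d = 0 then ∅ else
        Finset.univ.filter (fun x : K => (minpoly (ZMod l) x).natDegree = d))).card ≤
      ∑ d ∈ Finset.range (r - 1), l ^ d := by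
    refine Finset.card_biUnion_le.trans (Finset.sum_le_sum fun d _ => ?_)
    by_cases hd : d = 0
    · rw [if_pos hd]
      simp
    · rw [if_neg hd]
      exact Pool.Agent.W521.Density.card_small l K d (Nat.pos_of_ne_zero hd)
  have h5 := Pool.Agent.W521.Density.sum_pow_le l hl (r - 1)
  have h6 : l ^ (r - 1) ≤ 2 * S'.card := by omega
  -- the minimal polynomials
  refine ⟨S'.image fun x => minpoly (ZMod l) x, ?_, ?_⟩
  · intro f hf
    obtain ⟨x, hx, rfl⟩ := Finset.mem_image.1 hf
    obtain ⟨hx1, hx2⟩ := Finset.mem_filter.1 hx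
    have hxd := (Finset.mem_filter.1 hx1).2
    have hxi : IsIntegral (ZMod l) x := Algebra.IsIntegral.isIntegral x
    refine ⟨minpoly.monic hxi, hx2, ?_, minpoly.monic hxi, hx2, minpoly.irreducible hxi⟩
    have hfr : Module.finrank (IntermediateField.adjoin (ZMod l) {x}) K = 1 := by
      have h7 := Module.finrank_mul_finrank (ZMod l) (IntermediateField.adjoin (ZMod l) {x}) K
      rw [hK, IntermediateField.adjoin.finrank hxi, hx2] at h7
      exact Nat.eq_of_mul_eq_mul_left (by omega : 0 < r) (by rw [h7, mul_one])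
    have hn := Algebra.norm_eq_norm_adjoin (K := ZMod l) x
    rw [hfr, pow_one] at hn
    have hp := Algebra.PowerBasis.norm_gen_eq_coeff_zero_minpoly
      (IntermediateField.adjoin.powerBasis hxi)
    rw [IntermediateField.adjoin.powerBasis_gen, IntermediateField.adjoin.powerBasis_dim,
      IntermediateField.minpoly_gen, hx2] at hp
    rw [← hxd, hn, hp, ← mul_assoc, ← pow_add, ← two_mul, pow_mul]
    simp
  · have h7 : S'.card ≤ r * (S'.image fun x => minpoly (ZMod l) x).card := by
      refine Finset.card_le_mul_card_image (s := S') r ?_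
      intro f hf
      obtain ⟨y, hy, rfl⟩ := Finset.mem_image.1 hf
      have hyi : IsIntegral (ZMod l) y := Algebra.IsIntegral.isIntegral y
      have hP : ((minpoly (ZMod l) y).map (algebraMap (ZMod l) K)) ≠ 0 :=
        ((minpoly.monic hyi).map _).ne_zero
      have h3 : (S'.filter (fun x => minpoly (ZMod l) x = minpoly (ZMod l) y)) ⊆
          ((minpoly (ZMod l) y).map (algebraMap (ZMod l) K)).roots.toFinset := by
        intro x hx
        obtain ⟨hx1, hx2⟩ := Finset.mem_filter.1 hx
        rw [Multiset.mem_toFinset, mem_roots hP, IsRoot.def, eval_map, ← hx2]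
        exact minpoly.aeval _ x
      refine (Finset.card_le_card h3).trans ((Multiset.toFinset_card_le _).trans ?_)
      refine (card_roots' _).trans ?_
      rw [(minpoly.monic hyi).natDegree_map, (Finset.mem_filter.1 hy).2]
    calc l ^ (r - 1) ≤ 2 * S'.card := h6
      _ ≤ 2 * (r * (S'.image fun x => minpoly (ZMod l) x).card) := Nat.mul_le_mul_left _ h7
      _ = _ := by ring

/-- The number of irreducible polynomials with given constant coefficient. -/
theorem irr_count (r : ℕ) (hr : 3 ≤ r) (hl : 3 ≤ l) (d : ZMod l) (hd : d ≠ 0) :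
    ∃ G : Finset (ZMod l)[X],
      (∀ f ∈ G, f.Monic ∧ f.natDegree = r ∧ f.coeff 0 = (-1) ^ r * d ∧
        f ∈ Pool.Agent.W458.MF.irrSet r l) ∧
      l ^ (r - 1) ≤ (2 * r) * G.card := by
  have : Fintype (GaloisField l r) := Fintype.ofFinite _
  exact irr_count_aux r hr hl d hd (GaloisField l r) (GaloisField.finrank l (by omega))

/-- The number of products of a linear factor and of an irreducible polynomial, with given
constant coefficient. -/
theorem fix_count (r : ℕ) (hr : 3 ≤ r) (hl : 3 ≤ l) (d : ZMod l) (hd : d ≠ 0) :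
    ∃ G : Finset (ZMod l)[X],
      (∀ f ∈ G, f.Monic ∧ f.natDegree = r ∧ f.coeff 0 = (-1) ^ r * d ∧
        f ∈ fixSet r l) ∧
      l ^ (r - 1) ≤ (2 * r) * G.card := by
  classical
  have h1 := Pool.Agent.W521.Density.card_irrSet l (r - 1) hl (by omega)
  set S := (Pool.Agent.W521.Density.irrSet l (r - 1)).image
    (Pool.Agent.W521.Density.mkPoly (r - 1)) with hS
  have hSc : S.card = (Pool.Agent.W521.Density.irrSet l (r - 1)).card :=
    Finset.card_image_of_injective _ (Pool.Agent.W521.Density.mkPoly_injective _)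
  have hSm : ∀ u ∈ S, u.Monic ∧ u.natDegree = r - 1 ∧ Irreducible u := by
    intro u hu
    obtain ⟨a, ha, rfl⟩ := Finset.mem_image.1 hu
    refine ⟨Pool.Agent.W521.Density.mkPoly_monic _ a,
      Pool.Agent.W521.Density.mkPoly_natDegree _ a, ?_⟩
    unfold Pool.Agent.W521.Density.irrSet at ha
    exact (Finset.mem_filter.1 ha).2
  have hroot : ∀ u ∈ S, ∀ s : ZMod l, u.eval s ≠ 0 := by
    intro u hu s hs
    obtain ⟨-, h2, h3⟩ := hSm u hu
    have h4 : u.natDegree = 1 :=
      natDegree_eq_of_degree_eq_some (degree_eq_one_of_irreducible_of_root h3 hs)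
    omega
  let f : (ZMod l)[X] → (ZMod l)[X] := fun u =>
    (X - C ((-1) ^ (r - 1) * d / u.coeff 0)) * u
  refine ⟨S.image f, ?_, ?_⟩
  · intro g hg
    obtain ⟨u, hu, rfl⟩ := Finset.mem_image.1 hg
    obtain ⟨h2, h3, h4⟩ := hSm u hu
    have h5 : u.coeff 0 ≠ 0 := by
      rw [coeff_zero_eq_eval_zero]
      exact hroot u hu 0
    have h6 : (f u).natDegree = r := by
      simp only [f]
      rw [(monic_X_sub_C _).natDegree_mul h2, natDegree_X_sub_C, h3]
      omega
    refine ⟨(monic_X_sub_C _).mul h2, h6, ?_, ⟨_, u, h2, by omega, h4, rfl⟩⟩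
    simp only [f]
    rw [mul_coeff_zero]
    have e : (X - C ((-1) ^ (r - 1) * d / u.coeff 0) : (ZMod l)[X]).coeff 0 =
        -((-1) ^ (r - 1) * d / u.coeff 0) := by
      rw [coeff_zero_eq_eval_zero]
      simp
    rw [e, neg_mul, div_mul_cancel₀ _ h5]
    obtain ⟨r', rfl⟩ : ∃ r', r = r' + 1 := ⟨r - 1, by omega⟩
    rw [Nat.add_sub_cancel, pow_succ]
    ring
  · have hinj : Set.InjOn f S := by
      intro u hu u' hu' h
      have h2 : (f u').eval ((-1) ^ (r - 1) * d / u.coeff 0) = 0 := by
        rw [← h]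
        simp [f]
      simp only [f] at h2
      rw [eval_mul, mul_eq_zero] at h2
      rcases h2 with h2 | h2
      · rw [eval_sub, eval_X, eval_C, sub_eq_zero] at h2
        simp only [f] at h
        rw [h2] at h
        exact mul_left_cancel₀ (X_sub_C_ne_zero _) h
      · exact absurd h2 (hroot u' hu' _)
    rw [Finset.card_image_of_injOn hinj, hSc]
    refine h1.trans (Nat.mul_le_mul_right _ (by omega))

/-- The densities of the patterns. -/
theorem udens (r N : ℕ) (hr : 0 < r) (hN : 0 < N) : ∃ c : ℝ, 0 < c ∧ c ≤ 1 ∧ ∃ l₁ : ℕ,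
    ∀ l : ℕ, l.Prime → l₁ ≤ l → ∀ d : ZMod l, d ≠ 0 →
      c ≤ uproportion r l d (linSet r l) ∧
      (2 ≤ r → c ≤ uproportion r l d (swapSet r N l)) ∧
      (3 ≤ r → c ≤ uproportion r l d (Pool.Agent.W458.MF.irrSet r l)) ∧
      (3 ≤ r → c ≤ uproportion r l d (fixSet r l)) := by
  have hKp : (1 : ℝ) ≤ (Kc r : ℝ) * (2 * r) := by
    have h1 : 0 < Kc r * (2 * r) := Nat.mul_pos (Kc_pos r) (by omega)
    exact_mod_cast h1
  refine ⟨1 / (2 * ((Kc r * (2 * r) : ℕ) : ℝ)), ?_, ?_, 4 * r + 4 * N + 12, ?_⟩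
  · have : 0 < Kc r * (2 * r) := Nat.mul_pos (Kc_pos r) (by omega)
    have h2 : (0 : ℝ) < ((Kc r * (2 * r) : ℕ) : ℝ) := by exact_mod_cast this
    positivity
  · rw [div_le_one (by push_cast; linarith)]
    push_cast
    linarith
  intro l hl hll d hd
  have : Fact l.Prime := ⟨hl⟩
  have hK : 0 < Kc r * (2 * r) := Nat.mul_pos (Kc_pos r) (by omega)
  have hle1 : Kc r ≤ Kc r * (2 * r) := Nat.le_mul_of_pos_right _ (by omega)
  have hle2 : 2 * r ≤ Kc r * (2 * r) := Nat.le_mul_of_pos_left _ (Kc_pos r)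
  refine ⟨?_, fun h2 => ?_, fun h3 => ?_, fun h3 => ?_⟩
  · rcases Nat.lt_or_ge r 2 with h1 | h1
    · obtain rfl : r = 1 := by omega
      refine uproportion_lower' hr d hd _ {X - C d} ?_ hK ?_
      · intro f hf
        rw [Finset.mem_singleton] at hf
        subst hf
        refine ⟨monic_X_sub_C _, natDegree_X_sub_C _, ?_, {d}, by simp, by simp⟩
        rw [coeff_zero_eq_eval_zero]
        simp
      · rw [Finset.card_singleton, mul_one, Nat.sub_self, pow_zero]
        exact hK
    · obtain ⟨G, hG, hGc⟩ := lin_count r h1 (by omega) d hd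
      exact uproportion_lower' hr d hd _ G hG hK (hGc.trans (Nat.mul_le_mul_right _ hle1))
  · obtain ⟨G, hG, hGc⟩ := swap_count r N h2 hN (by omega) d hd
    exact uproportion_lower' hr d hd _ G hG hK (hGc.trans (Nat.mul_le_mul_right _ hle1))
  · obtain ⟨G, hG, hGc⟩ := irr_count r h3 (by omega) d hd
    exact uproportion_lower' hr d hd _ G hG hK (hGc.trans (Nat.mul_le_mul_right _ hle2))
  · obtain ⟨G, hG, hGc⟩ := fix_count r h3 (by omega) d hd
    exact uproportion_lower' hr d hd _ G hG hK (hGc.trans (Nat.mul_le_mul_right _ hle2))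

end Cnt

end Pool.Agent.K7.H1.UM
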