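import Pool.Agent.K7.H1.UM.Homs
import Pool.Agent.K7.H1.UM.Dens2

/-!
# Families with unitary monodromy: the events
-/

set_option autoImplicit false
set_option linter.unusedSectionVars false

open Polynomial NumberField

universe u v

namespace Pool.Agent.K7.H1.UM

open Pool.Agent.W458.MF Pool.Agent.W521.Frob Pool.Agent.W521.Criterion Pool.Agent.W338.MF
  Pool.Agent.H914 Pool.Agent.W534

lemma exists_R' {K : Type*} [Field K] [CharZero K] {S : Set K} (hS : S.Finite)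
    (h : ∀ x ∈ S, IsIntegral ℤ x) : ∃ R : ℤ[X], R.Monic ∧
      (R.map (Int.castRingHom ℚ)).Separable ∧ (∀ x ∈ S, aeval x R = 0) ∧
      ∀ z : ℂ, aeval z R = 0 → ∃ x ∈ S, aeval z (minpoly ℤ x) = 0 := by
  classical
  set T : Finset ℤ[X] := hS.toFinset.image (minpoly ℤ) with hT
  have hmem : ∀ f ∈ T, ∃ x ∈ S, f = minpoly ℤ x := by
    intro f hf
    obtain ⟨x, hx, rfl⟩ := Finset.mem_image.1 hf
    exact ⟨x, hS.mem_toFinset.1 hx, rfl⟩
  have hmap : ∀ x ∈ S, (minpoly ℤ x).map (Int.castRingHom ℚ) = minpoly ℚ x := by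
    intro x hx
    rw [minpoly.isIntegrallyClosed_eq_field_fractions' ℚ (h x hx)]
    rfl
  refine ⟨∏ f ∈ T, f, ?_, ?_, ?_, ?_⟩
  · refine monic_prod_of_monic _ _ fun f hf => ?_
    obtain ⟨x, hx, rfl⟩ := hmem f hf
    exact minpoly.monic (h x hx)
  · rw [Polynomial.map_prod]
    refine separable_prod' ?_ ?_
    · intro f hf f' hf' hne
      obtain ⟨x, hx, rfl⟩ := hmem f hf
      obtain ⟨y, hy, rfl⟩ := hmem f' hf'
      rw [hmap x hx, hmap y hy]
      have hxi : IsIntegral ℚ x := (h x hx).tower_top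
      have hyi : IsIntegral ℚ y := (h y hy).tower_top
      rw [(minpoly.irreducible hxi).coprime_iff_not_dvd]
      intro hdvd
      apply hne
      have h1 : minpoly ℚ x = minpoly ℚ y :=
        eq_of_monic_of_associated (minpoly.monic hxi) (minpoly.monic hyi)
          ((minpoly.irreducible hxi).associated_of_dvd (minpoly.irreducible hyi) hdvd)
      rw [← hmap x hx, ← hmap y hy] at h1
      exact map_injective _ Int.cast_injective h1
    · intro f hf
      obtain ⟨x, hx, rfl⟩ := hmem f hf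
      rw [hmap x hx]
      exact (minpoly.irreducible (h x hx).tower_top).separable
  · intro x hx
    rw [map_prod]
    refine Finset.prod_eq_zero (i := minpoly ℤ x) ?_ (minpoly.aeval ℤ x)
    exact Finset.mem_image_of_mem _ (hS.mem_toFinset.2 hx)
  · intro z hz
    rw [map_prod, Finset.prod_eq_zero_iff] at hz
    obtain ⟨f, hf, hz⟩ := hz
    obtain ⟨x, hx, rfl⟩ := hmem f hf
    exact ⟨x, hx, hz⟩

lemma minpoly_natCast {K : Type*} [Field K] [CharZero K] (p : ℕ) :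
    minpoly ℤ (p : K) = X - C (p : ℤ) := by
  have h1 := minpoly.eq_X_sub_C_of_algebraMap_inj (A := ℤ) (B := K) (p : ℤ)
    (by
      intro a b h
      exact Int.cast_injective (α := K) (by simpa using h))
  rw [← h1]
  congr 1
  simp

lemma NonDeg.mono {U : Type} [Fintype U] {E : U → Type} [∀ u, Field (E u)]
    [∀ u, NumberField (E u)] {δ : ∀ u, E u} {N N' : Set ℂ} (h : NonDeg E δ N) (hN : N' ⊆ N) :
    NonDeg E δ N' := fun k hk ν hν => h k hk ν (Submonoid.closure_mono hN hν)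

lemma NonDeg.union_nat {U : Type} [Fintype U] {E : U → Type} [∀ u, Field (E u)]
    [∀ u, NumberField (E u)] {δ : ∀ u, E u} {N : Set ℂ} (h : NonDeg E δ N) {p : ℕ} (hp : 0 < p) :
    NonDeg E δ (N ∪ {(p : ℂ)}) := by
  intro k hk ν hν a ha he
  rw [Submonoid.closure_union, Submonoid.mem_sup] at hν
  obtain ⟨ν', hν', z, hz, rfl⟩ := hν
  obtain ⟨j, rfl⟩ := Submonoid.mem_closure_singleton.1 hz
  have hpC : ((p : ℂ)) ^ j ≠ 0 := pow_ne_zero _ (by exact_mod_cast hp.ne')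
  refine h k hk ν' hν' (a / (p : ℚ) ^ j) (div_pos ha (pow_pos (by exact_mod_cast hp) j)) ?_
  rw [← mul_assoc] at he
  push_cast
  rw [eq_div_iff hpC]
  exact he

open Classical in
/-- The events for an index `u`. -/
noncomputable def uEv (r N l : ℕ) (e : Fin 3) (b : Prop) : Set (ZMod l)[X] :=
  match e with
  | 0 => if b ∧ 2 ≤ r then swapSet r N l else linSet r l
  | 1 => if b ∧ 3 ≤ r then irrSet r l else Set.univ
  | 2 => if b ∧ 3 ≤ r then fixSet r l else Set.univ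

lemma uEv_ge {r N l : ℕ} (hl : l.Prime) {c : ℝ} {d : ZMod l}
    (h : c ≤ uproportion r l d (linSet r l) ∧
      (2 ≤ r → c ≤ uproportion r l d (swapSet r N l)) ∧
      (3 ≤ r → c ≤ uproportion r l d (irrSet r l)) ∧
      (3 ≤ r → c ≤ uproportion r l d (fixSet r l))) (e : Fin 3) (b : Prop) :
    c ≤ uproportion r l d (uEv r N l e b) := by
  obtain ⟨h1, h2, h3, h4⟩ := h
  have huniv : c ≤ uproportion r l d Set.univ :=
    h1.trans (uproportion_mono hl (Set.subset_univ _))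
  unfold uEv
  fin_cases e
  · dsimp only
    split_ifs with hb
    · exact h2 hb.2
    · exact h1
  · dsimp only
    split_ifs with hb
    · exact h3 hb.2
    · exact huniv
  · dsimp only
    split_ifs with hb
    · exact h4 hb.2
    · exact huniv

section Red

variable {E : Type} [Field E] [NumberField E] [IsCMField E] {l : ℕ} {P : (𝓞 E)[X]}
  {T b : Finset (𝓞 E →+* ZMod l)}

lemma comp_cj_cj (ψ : 𝓞 E →+* ZMod l) : (ψ.comp (cj (cc E))).comp (cj (cc E)) = ψ := by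
  ext x
  change ψ (cj (cc E) (cj (cc E) x)) = ψ x
  congr 1
  apply RingOfIntegers.coe_injective
  exact cc_cc (x : E)

lemma linU_of_red {N : ℕ} (hT : ∀ ψ, ψ ∈ T ∨ ψ.comp (cj (cc E)) ∈ T)
    (h : RedIn P T fun _ => uEv P.natDegree N l 0 False) : LinU P (cc E) l := by
  have h1 : ∀ ψ ∈ T, P.map ψ ∈ linSet P.natDegree l := by
    intro ψ hψ
    have h2 := h ψ hψ
    unfold uEv at h2
    dsimp only at h2
    rwa [if_neg (fun h => h.1)] at h2
  intro ψ
  rcases hT ψ with h2 | h2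
  · exact Or.inl (h1 ψ h2)
  · exact Or.inr (h1 _ h2)

lemma swapU_of_red {N : ℕ} (hr : 2 ≤ P.natDegree) {ψ₀ : 𝓞 E →+* ZMod l}
    {b : Set (𝓞 E →+* ZMod l)} (hb : b = {ψ₀}) (hψ₀ : ψ₀ ∈ T)
    (hT : ∀ ψ, ψ ∈ T ∨ ψ.comp (cj (cc E)) ∈ T)
    (h : RedIn P T fun ψ => uEv P.natDegree N l 0 (ψ ∈ b)) : SwapU P (cc E) N l := by
  subst hb
  refine ⟨ψ₀, ?_, ?_⟩
  · have h2 := h ψ₀ hψ₀
    unfold uEv at h2
    dsimp only at h2
    rwa [if_pos ⟨Set.mem_singleton _, hr⟩] at h2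
  · have h1 : ∀ ψ ∈ T, ψ ≠ ψ₀ → P.map ψ ∈ linSet P.natDegree l := by
      intro ψ hψ hne
      have h2 := h ψ hψ
      unfold uEv at h2
      dsimp only at h2
      rwa [if_neg (fun h => hne h.1)] at h2
    intro ψ hne hne'
    rcases hT ψ with h2 | h2
    · exact Or.inl (h1 ψ h2 hne)
    · refine Or.inr (h1 _ h2 ?_)
      intro h3
      apply hne'
      rw [← h3, comp_cj_cj]

end Red

section Equi

variable {k : Type u} [Field k] {𝒱 : VarClass k} {ops : CycleOps 𝒱}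
  {W : WeilCohomology.{u, v} ops} {Y : 𝒱.Obj} {p : ℕ} {Φ : FrobSystem W p}
  {E : Type} [Field E] [NumberField E] [IsCMField E]

lemma noPair_empty {l : ℕ} : NoPair (∅ : Finset (𝓞 E →+* ZMod l)) := by
  intro ψ hψ
  exact absurd hψ (Finset.notMem_empty ψ)

lemma unitary_equi {F : Family W Y} {n r l₀ : ℕ} {D : ℤ[X]} {δ : ℕ → 𝓞 E}
    {P : ∀ m, F.S m → (𝓞 E)[X]} (H : HasUnitaryMonodromy F Φ E n r l₀ D δ P) {l l' : ℕ}
    (hl : l.Prime) (hl' : l'.Prime) (hll : l₀ ≤ l) (hll' : l₀ ≤ l') (hne : l ≠ l')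
    (hD : SplitsMod D l) (hD' : SplitsMod D l') {T : Finset (𝓞 E →+* ZMod l)}
    {T' : Finset (𝓞 E →+* ZMod l')} (hT : NoPair T) (hT' : NoPair T') (ε : ℝ) (hε : 0 < ε) :
    ∃ m₀ : ℕ, ∀ m ≥ m₀, Nonempty (F.S m) → ∀ (A : (𝓞 E →+* ZMod l) → Set (ZMod l)[X])
        (A' : (𝓞 E →+* ZMod l') → Set (ZMod l')[X]),
      |({s : F.S m | RedIn (P m s) T A}.ncard : ℝ) / (Nat.card (F.S m) : ℝ) -
        ∏ ψ ∈ T, uproportion r l (ψ (δ m)) (A ψ)| ≤ ε ∧
      |(({s : F.S m | RedIn (P m s) T A} ∩ {s : F.S m | RedIn (P m s) T' A'}).ncard : ℝ) /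
            (Nat.card (F.S m) : ℝ) -
          (∏ ψ ∈ T, uproportion r l (ψ (δ m)) (A ψ)) *
            ∏ ψ ∈ T', uproportion r l' (ψ (δ m)) (A' ψ)| ≤ ε := by
  obtain ⟨m₁, h1⟩ := H.equidistributed l l' hl hl' hll hll' hne hD hD' T T' hT hT' ε hε
  obtain ⟨m₂, h2⟩ := H.equidistributed l l' hl hl' hll hll' hne hD hD' T ∅ hT noPair_empty ε hε
  refine ⟨max m₁ m₂, fun m hm hS A A' => ⟨?_, ?_⟩⟩
  · have h3 := h2 m ((le_max_right _ _).trans hm) hS A A'
    rw [Finset.prod_empty, mul_one] at h3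
    have h4 : {s : F.S m | RedIn (P m s) T A ∧ RedIn (P m s) ∅ A'} =
        {s : F.S m | RedIn (P m s) T A} := by
      ext s
      constructor
      · exact fun h => h.1
      · exact fun h => ⟨h, fun ψ hψ => absurd hψ (Finset.notMem_empty ψ)⟩
    rwa [h4] at h3
  · exact h1 m ((le_max_left _ _).trans hm) hS A A'

end Equi

end Pool.Agent.K7.H1.UM
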