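import Pool.Agent.K7.H1.UM.Final1
import Pool.Agent.W458.MF.Gen10

/-!
# Families with unitary monodromy: almost all tuples satisfy the hypotheses of the geometric
theorem
-/

set_option autoImplicit false
set_option linter.unusedSectionVars false

open Polynomial NumberField

universe u v

namespace Pool.Agent.K7.H1.UM

open Pool.Agent.W458.MF Pool.Agent.W521.Frob Pool.Agent.W521.Criterion Pool.Agent.W338.MF
  Pool.Agent.H914 Pool.Agent.W534

section Defs

variable {I U : Type}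

/-- The events for the symplectic and the orthogonal indices. -/
noncomputable def evI (o : I → Prop) (d g : I → ℕ) (N p : ℕ) (κ : (I × Fin 3) ⊕ (U × Fin 3))
    (i : I) (m l : ℕ) : Set (ZMod l)[X] :=
  match κ with
  | .inl κ => evts o d g N p κ i m l
  | .inr κ => if κ.2 = 0 then splitSet (g i) l (p ^ (d i * m)) else Set.univ

/-- The code of the event for the unitary indices. -/
def codeU (κ : (I × Fin 3) ⊕ (U × Fin 3)) : Fin 3 :=
  match κ with
  | .inl κ => if κ.2 = 1 then 0 else 1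
  | .inr κ => κ.2

/-- The exceptional homomorphism for the event for the unitary indices. -/
def isB {E : U → Type} [∀ u, Field (E u)] {l : ℕ} (κ : (I × Fin 3) ⊕ (U × Fin 3)) (u : U)
    (b : Set (𝓞 (E u) →+* ZMod l)) (ψ : 𝓞 (E u) →+* ZMod l) : Prop :=
  match κ with
  | .inl _ => False
  | .inr κ => u = κ.1 ∧ ψ ∈ b

end Defs

variable {k : Type u} [Field k] {𝒱 : VarClass k} {ops : CycleOps 𝒱}
  {W : WeilCohomology.{u, v} ops} {Y : 𝒱.Obj} {p : ℕ} {Φ : FrobSystem W p}

/-- The sets of the parameters with the events. -/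
def evS {I U : Type} (F : I → Family W Y) (G : U → Family W Y) (E : U → Type)
    [∀ u, Field (E u)] [∀ u, NumberField (E u)] (P : ∀ u m, (G u).S m → (𝓞 (E u))[X])
    (a : I → ∀ m l : ℕ, Set (ZMod l)[X]) (T : ∀ u (l : ℕ), Finset (𝓞 (E u) →+* ZMod l))
    (a' : ∀ u (l : ℕ), (𝓞 (E u) →+* ZMod l) → Set (ZMod l)[X]) :
    ∀ (j : I ⊕ U) (m : ℕ), ℕ → Set ((Sum.elim F G j).S m)
  | .inl i, m, l => (F i).pat m l (a i m l)
  | .inr u, _, l => {s | RedIn (P u _ s) (T u l) (a' u l)}


lemma HalfPol.two_degree {E : Type} [Field E] [NumberField E] {q : ℕ} {h : ℤ[X]} {P : (𝓞 E)[X]}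
    (H : HalfPol E q h P) (hm : h.Monic) :
    2 * h.natDegree = Fintype.card (E →+* ℂ) * P.natDegree := by
  have h1 := congrArg natDegree H.prod
  rw [(weil_monic q hm).natDegree_map, weil_natDegree q hm, natDegree_prod_of_monic] at h1
  · rw [h1, Finset.sum_congr rfl fun φ _ => H.monic.natDegree_map _, Finset.sum_const,
      Finset.card_univ, smul_eq_mul]
  · intro φ _
    exact H.monic.map _

/-- **Almost all tuples of members of families with large or unitary monodromy satisfy the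
hypotheses of the geometric theorem.** -/
theorem unitary_setup [IsAlgClosed W.K] (σ : W.K →+* ℂ) (hp : p.Prime)
    (hint : ∀ μ : W.K, Module.End.HasEigenvalue (W.map (Φ.Fr Y)).toLinearMap μ → IsIntegral ℤ μ)
    {I U : Type} [Fintype I] [Fintype U] (F : I → Family W Y) (d n₁ g e l₀ : I → ℕ) (δ₁ : I → ℤˣ)
    (D : I → ℤ[X]) (π : I → ∀ m l : ℕ, Set (ZMod l)[X] → ℝ)
    (hF : ∀ i, Fam.HasLaw (F i) Φ (d i) (n₁ i) (g i) (e i) (l₀ i) (δ₁ i) (D i) (π i))
    (G : U → Family W Y) (E : U → Type)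
    [∀ u, Field (E u)] [∀ u, NumberField (E u)] [∀ u, IsCMField (E u)] (δ : ∀ u, ℕ → 𝓞 (E u))
    (hG : ∀ u, HasUnitary (G u) Φ (E u) (δ u))
    (hN : ∀ m, 0 < m → NonDeg E (fun u => (δ u m : E u)) (eigConj Φ Y)) (ε : ℝ) (hε : 0 < ε) :
    ∃ (R : ℤ[X]) (m₀ : ℕ), ∀ m ≥ m₀, ({s : ∀ j, (Sum.elim F G j).S m |
        ¬ GSetup Φ σ (fun j => (Sum.elim F G j).member m (s j)) m R}.ncard : ℝ) ≤
      ε * ∏ j, (Nat.card ((Sum.elim F G j).S m) : ℝ) := by
  classical
  choose o hM using fun i => exists_mdata2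
    (W806.MF.dens W337.MF.orb W366.MF.winj W205.MF.cnt) st_odens st_edens (hF i)
  choose n r l₀' D' P hU using hG
  choose f θ ix hpr using fun u => exists_prim (E u)
  obtain ⟨R, hRm, hRs, hR', hRc⟩ := exists_R'
    ((Module.End.finite_hasEigenvalue (W.map (Φ.Fr Y)).toLinearMap).union
      (Set.finite_singleton (p : W.K))) (by
        rintro x (hx | hx)
        · exact hint x hx
        · rw [Set.mem_singleton_iff.1 hx, ← map_natCast (algebraMap ℤ W.K) p]
          exact isIntegral_algebraMap)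
  have hR : ∀ μ : W.K, Module.End.HasEigenvalue (W.map (Φ.Fr Y)).toLinearMap μ →
      aeval μ R = 0 := fun μ hμ => hR' μ (Or.inl hμ)
  have hRp : aeval (p : ℂ) R = 0 := by
    have h := aeval_sigma σ (hR' _ (Or.inr rfl))
    rwa [map_natCast] at h
  set dg : ℕ := (∑ i, 2 * g i) + (∑ u, Fintype.card (E u →+* ℂ) * r u) with hdg
  obtain ⟨N, hNp, hNz⟩ := W216.MF.uni (dg * dg)
  refine ⟨R, ?_⟩
  have hempty : ∀ m, (∃ j, IsEmpty ((Sum.elim F G j).S m)) →
      ∀ B : Set (∀ j, (Sum.elim F G j).S m),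
      (B.ncard : ℝ) ≤ ε * ∏ j, (Nat.card ((Sum.elim F G j).S m) : ℝ) := by
    rintro m ⟨i, hi⟩ B
    have : IsEmpty (∀ j, (Sum.elim F G j).S m) := ⟨fun s => hi.false (s i)⟩
    rw [Set.eq_empty_of_isEmpty B, Set.ncard_empty, Nat.cast_zero]
    positivity
  by_cases hg : ∀ i, 0 < g i
  swap
  · push Not at hg
    obtain ⟨i, hi⟩ := hg
    refine ⟨1, fun m hm => hempty m ⟨.inl i, ⟨fun (s : (F i).S m) => ?_⟩⟩ _⟩
    have h1 := ((hM i).isMember m hm s).degree_pos
    rw [(hM i).degree m s] at h1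
    omega
  by_cases hr : ∀ u, 0 < r u
  swap
  · push Not at hr
    obtain ⟨u, hu⟩ := hr
    refine ⟨1, fun m hm => hempty m ⟨.inr u, ⟨fun (s : (G u).S m) => ?_⟩⟩ _⟩
    have h1 := ((hU u).halfPol m hm s).deg
    rw [(hU u).degree m s] at h1
    omega
  choose c hc l₁ hl₁ using fun i => (hM i).dens (hg i) N hNp
  choose c' hc' hc1' l₁' hl₁' using fun u => udens (r u) N (hr u) hNp
  obtain ⟨c₀, hc₀, hc₀c⟩ : ∃ c₀ : ℝ, 0 < c₀ ∧ ∀ j : I ⊕ U,
      c₀ ≤ Sum.elim c (fun u => c' u ^ (f u).natDegree) j := by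
    rcases isEmpty_or_nonempty (I ⊕ U) with hI | hI
    · exact ⟨1, one_pos, fun i => hI.elim i⟩
    · obtain ⟨j, hj⟩ := Finite.exists_min (Sum.elim c (fun u => c' u ^ (f u).natDegree))
      refine ⟨Sum.elim c (fun u => c' u ^ (f u).natDegree) j, ?_, hj⟩
      rcases j with i | u
      · exact hc i
      · exact pow_pos (hc' u) _
  set L : ℕ := p + 3 + ∑ i, (l₀ i + l₁ i) + ∑ u, (l₀' u + l₁' u + ix u) with hL
  have hLi : ∀ i, l₀ i + l₁ i ≤ L := fun i => by
    have := Finset.single_le_sum (f := fun i => l₀ i + l₁ i) (fun j _ => Nat.zero_le _)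
      (Finset.mem_univ i)
    omega
  have hLu : ∀ u, l₀' u + l₁' u + ix u ≤ L := fun u => by
    have := Finset.single_le_sum (f := fun u => l₀' u + l₁' u + ix u) (fun j _ => Nat.zero_le _)
      (Finset.mem_univ u)
    omega
  -- the primes
  obtain ⟨A, hA, hAs, hAd⟩ := exists_common (I := Option (I ⊕ (U ⊕ U)))
    (fun x => match x with
      | none => R
      | some (.inl i) => D i
      | some (.inr (.inl u)) => D' u
      | some (.inr (.inr u)) => f u)
    (fun x => match x with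
      | none => hRm
      | some (.inl i) => (hM i).monic
      | some (.inr (.inl u)) => (hU u).monic
      | some (.inr (.inr u)) => (hpr u).monic)
    (fun x => match x with
      | none => hRs
      | some (.inl i) => (hM i).separable
      | some (.inr (.inl u)) => (hU u).separable
      | some (.inr (.inr u)) => (hpr u).sep)
  have hAR : R ∣ A := hAd none
  have hAD : ∀ i, D i ∣ A := fun i => hAd (some (.inl i))
  have hAD' : ∀ u, D' u ∣ A := fun u => hAd (some (.inr (.inl u)))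
  have hAf : ∀ u, f u ∣ A := fun u => hAd (some (.inr (.inr u)))
  set Gd : Set ℕ := {l : ℕ | l.Prime ∧ SplitsMod A l} \ {l | l ≤ L} with hGd
  have hinf : Gd.Infinite := (W976.MF.SPL A hA hAs).sdiff (Set.finite_le_nat L)
  have hGp : ∀ l ∈ Gd, l.Prime ∧ SplitsMod A l ∧ L < l := fun l hl =>
    ⟨hl.1.1, hl.1.2, not_le.1 hl.2⟩
  have hGD : ∀ i, ∀ l ∈ Gd, l ∈ {l | l.Prime ∧ l₀ i ≤ l ∧ SplitsMod (D i) l} := by
    intro i l hl
    obtain ⟨h1, h2, h3⟩ := hGp l hl
    have h4 := hLi i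
    exact ⟨h1, by omega, splitsMod_of_dvd (hM i).monic (hAD i) h1 h2⟩
  have hGU : ∀ u, ∀ l ∈ Gd, l₀' u ≤ l ∧ l₁' u ≤ l ∧ ¬ l ∣ ix u ∧ SplitsMod (D' u) l ∧
      SplitsMod (f u) l := by
    intro u l hl
    obtain ⟨h1, h2, h3⟩ := hGp l hl
    have h4 := hLu u
    refine ⟨by omega, by omega, ?_, splitsMod_of_dvd (hU u).monic (hAD' u) h1 h2,
      splitsMod_of_dvd (hpr u).monic (hAf u) h1 h2⟩
    intro h5
    have h6 := Nat.le_of_dvd (hpr u).pos h5
    omega
  have hGlp : ∀ l ∈ Gd, ¬ l ∣ p := by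
    intro l hl h
    have h1 := (hGp l hl).2.2
    have h3 := Nat.le_of_dvd hp.pos h
    omega
  have hGlq : ∀ l ∈ Gd, ∀ a, ¬ l ∣ p ^ a := fun l hl a h =>
    hGlp l hl ((hGp l hl).1.dvd_of_dvd_pow h)
  -- the homomorphisms
  have hexT : ∀ u (l : ℕ), ∃ (b : Set (𝓞 (E u) →+* ZMod l)) (T : Finset (𝓞 (E u) →+* ZMod l)),
      l ∈ Gd → NoPair T ∧ (∃ ψ₀, b = {ψ₀} ∧ ψ₀ ∈ T) ∧
        (∀ ψ, ψ ∈ T ∨ ψ.comp (cj (cc (E u))) ∈ T) ∧ T.card ≤ (f u).natDegree := by
    intro u l
    by_cases hl : l ∈ Gd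
    · have : Fact l.Prime := ⟨(hGp l hl).1⟩
      obtain ⟨-, -, h3, -, h5⟩ := hGU u l hl
      obtain ⟨ψ₀, T, t1, t2, t3, t4⟩ := exists_T (hpr u) h3 h5
      exact ⟨{ψ₀}, T, fun _ => ⟨t1, ⟨ψ₀, rfl, t2⟩, t3, t4⟩⟩
    · exact ⟨∅, ∅, fun h => absurd h hl⟩
  choose b T hbT using hexT
  -- the densities
  have hdens : ∀ i, ∀ l ∈ Gd, ∀ m : ℕ, c₀ ≤ π i m l (irrSet (g i) l) ∧
      c₀ ≤ π i m l (splitSet (g i) l (p ^ (d i * m))) ∧
      (¬ o i → c₀ ≤ π i m l (flipSet (g i) N l (p ^ (d i * m)))) ∧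
      (o i → c₀ ≤ π i m l (flip2Set (g i) N l (p ^ (d i * m))) ∧
        c₀ ≤ π i m l (fixSet (g i) l)) := by
    intro i l hl m
    have h4 := hLi i
    have h3 := (hGp l hl).2.2
    obtain ⟨h5, h6, h7, h8⟩ := hl₁ i l (hGp l hl).1 (by omega) (hGlp l hl) m
    have h9 : c₀ ≤ c i := hc₀c (.inl i)
    exact ⟨h9.trans h5, h9.trans h6, fun h => h9.trans (h7 h),
      fun h => ⟨h9.trans (h8 h).1, h9.trans (h8 h).2⟩⟩
  set aI : ((I × Fin 3) ⊕ (U × Fin 3)) → I → ∀ m l : ℕ, Set (ZMod l)[X] :=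
    evI o d g N p with haI
  set aU : ((I × Fin 3) ⊕ (U × Fin 3)) → ∀ u (l : ℕ),
    (𝓞 (E u) →+* ZMod l) → Set (ZMod l)[X] := fun κ u l ψ =>
      uEv (r u) N l (codeU κ) (isB κ u (b u l) ψ) with haU
  have hEI : ∀ (κ : (I × Fin 3) ⊕ (U × Fin 3)) i, ∀ l ∈ Gd, ∀ m,
      c₀ ≤ π i m l (aI κ i m l) ∧ π i m l (aI κ i m l) ≤ 1 := by
    intro κ i l hl m
    refine ⟨?_, (hM i).le_one l (hGp l hl).1 m _⟩
    obtain ⟨h1, h2, h3, h4⟩ := hdens i l hl m
    have huniv : c₀ ≤ π i m l Set.univ :=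
      h1.trans ((hM i).mono l (hGp l hl).1 m _ _ (Set.subset_univ _))
    rw [haI]
    rcases κ with ⟨i₀, e⟩ | ⟨u₀, e⟩
    · unfold evI
      dsimp only
      unfold evts
      fin_cases e
      · dsimp only
        split_ifs
        · exact h1
        · exact huniv
      · dsimp only
        split_ifs with hi ho
        · exact (h4 ho).1
        · exact h3 ho
        · exact h2
      · dsimp only
        split_ifs with hi
        · exact (h4 hi.2).2
        · exact huniv
    · unfold evI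
      dsimp only
      split_ifs
      · exact h2
      · exact huniv
  have hEU : ∀ (κ : (I × Fin 3) ⊕ (U × Fin 3)) u, ∀ l ∈ Gd, ∀ m, 0 < m → Nonempty ((G u).S m) →
      c₀ ≤ ∏ ψ ∈ T u l, uproportion (r u) l (ψ (δ u m)) (aU κ u l ψ) ∧
        ∏ ψ ∈ T u l, uproportion (r u) l (ψ (δ u m)) (aU κ u l ψ) ≤ 1 := by
    rintro κ u l hl m hm ⟨s⟩
    have hlp := (hGp l hl).1
    have : Fact l.Prime := ⟨hlp⟩
    refine ⟨?_, Finset.prod_le_one (fun ψ _ => uproportion_nonneg _)
      fun ψ _ => uproportion_le_one hlp _⟩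
    have h1 : ∀ ψ ∈ T u l, c' u ≤ uproportion (r u) l (ψ (δ u m)) (aU κ u l ψ) := by
      intro ψ _
      refine uEv_ge hlp (hl₁' u l hlp (hGU u l hl).2.1 _ ?_) _ _
      intro h0
      refine ((hU u).halfPol m hm s).coeff_mod (hGlq l hl _) ψ ?_
      rw [(hU u).det m hm s, map_mul, h0, mul_zero]
    calc c₀ ≤ c' u ^ (f u).natDegree := hc₀c (.inr u)
      _ ≤ c' u ^ (T u l).card :=
        pow_le_pow_of_le_one (hc' u).le (hc1' u) (hbT u l hl).2.2.2
      _ = ∏ ψ ∈ T u l, c' u := (Finset.prod_const _).symm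
      _ ≤ _ := Finset.prod_le_prod (fun ψ _ => (hc' u).le) h1
  -- the sieve
  obtain ⟨m₀, h⟩ := almost_all_abs W216.MF.sieve (J := I ⊕ U) (K := (I × Fin 3) ⊕ (U × Fin 3))
    (fun j m => (Sum.elim F G j).S m) Gd hinf
    (fun κ => evS F G E P (aI κ) T (aU κ))
    (fun κ j m l => match j with
      | .inl i => π i m l (aI κ i m l)
      | .inr u => ∏ ψ ∈ T u l, uproportion (r u) l (ψ (δ u m)) (aU κ u l ψ)) hc₀
    (by
      rintro κ (i | u) l hl m hm hne
      · exact hEI κ i l hl m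
      · exact hEU κ u l hl m hm hne)
    (by
      rintro κ (i | u) l hl l' hl' hll η hη
      · obtain ⟨m₀, h1⟩ := equi_gen (F := F i) (G := Gd) (π := π i)
          (fun l hl l' hl' hll => (hM i).equi l (hGD i l hl) l' (hGD i l' hl') hll)
          (fun l hl m E => (hM i).nonneg l (hGp l hl).1 m E)
          (fun l hl m E => (hM i).le_one l (hGp l hl).1 m E) hl hl' hll hη
        exact ⟨m₀, fun m hm hne => ⟨(h1 m hm hne).2 _, (h1 m hm hne).1 _ _⟩⟩
      · obtain ⟨m₀, h1⟩ := unitary_equi (hU u) (hGp l hl).1 (hGp l' hl').1 (hGU u l hl).1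
          (hGU u l' hl').1 hll (hGU u l hl).2.2.2.1 (hGU u l' hl').2.2.2.1 (hbT u l hl).1
          (hbT u l' hl').1 η hη
        exact ⟨m₀, fun m hm hne => h1 m hm hne _ _⟩) ε hε
  refine ⟨m₀ + 1, fun m hm => le_trans ?_ (h m (by omega))⟩
  have hm0 : 0 < m := by omega
  refine Nat.cast_le.2 (Set.ncard_le_ncard ?_ (Set.toFinite _))
  intro s hs hpat
  apply hs
  set s₁ : ∀ i, (F i).S m := fun i => s (.inl i) with hs₁
  set s₂ : ∀ u, (G u).S m := fun u => s (.inr u) with hs₂
  have hO : ∀ j, Fam.IsMember ((Sum.elim F G j).member m (s j)) Φ m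
      (Sum.elim n₁ (fun _ => 0) j) (Sum.elim e (fun _ => 0) j)
      (Sum.elim δ₁ (fun _ => 1) j) := by
    rintro (i | u)
    · exact (hM i).isMember m hm0 (s₁ i)
    · exact isMember_of_pol ((hU u).isMember m hm0 (s₂ u))
  have hdeg : ∀ i, ((F i).member m (s₁ i)).pol.natDegree = g i :=
    fun i => (hM i).degree m (s₁ i)
  have hdeg' : ∀ u, (P u m (s₂ u)).natDegree = r u := fun u => (hU u).degree m (s₂ u)
  have hdim : ∀ j, ((Sum.elim F G j).member m (s j)).obj.dim = Sum.elim d n j := by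
    rintro (i | u)
    · exact (hM i).dim m (s₁ i)
    · exact (hU u).dim m (s₂ u)
  set q : I ⊕ U → ℕ := fun j => p ^ (Sum.elim d n j * m) with hq
  set hh : I ⊕ U → ℤ[X] := fun j => ((Sum.elim F G j).member m (s j)).pol with hhh
  have hH : ∀ u, UData (E u) (q (.inr u)) (hh (.inr u)) (P u m (s₂ u)) (cc (E u)) (f u) (θ u)
      (ix u) := fun u => udata_cm ((hU u).halfPol m hm0 (s₂ u)) (hpr u)
  have hbase : ∀ l ∈ Gd, Base q R f ix l := by
    intro l hl
    have h3 := hGp l hl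
    exact ⟨h3.1, by omega, fun j => hGlq l hl _, splitsMod_of_dvd hRm hAR h3.1 h3.2.1,
      fun u => (hGU u l hl).2.2.1, fun u => (hGU u l hl).2.2.2.2⟩
  have hdd : ∀ j, 2 * (hh j).natDegree ≤ dg := by
    rintro (i | u)
    · have h1 : (hh (.inl i)).natDegree = g i := hdeg i
      have h2 := Finset.single_le_sum (f := fun i => 2 * g i) (fun j _ => Nat.zero_le _)
        (Finset.mem_univ i)
      rw [h1]
      omega
    · have h1 := (hH u).half.two_degree (hO (.inr u)).monic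
      rw [h1, hdeg']
      have h2 := Finset.single_le_sum (f := fun u => Fintype.card (E u →+* ℂ) * r u)
        (fun j _ => Nat.zero_le _) (Finset.mem_univ u)
      omega
  have hlin : ∀ (κ : (I × Fin 3) ⊕ (U × Fin 3)) (u : U), ∀ l ∈ Gd,
      RedIn (P u m (s₂ u)) (T u l) (aU κ u l) → codeU κ = 0 →
        (∀ ψ, ¬ isB κ u (b u l) ψ) → LinU (P u m (s₂ u)) (cc (E u)) l := by
    intro κ u l hl hred hc hb
    refine linU_of_red (N := N) (T := T u l) (hbT u l hl).2.2.1 ?_
    intro ψ hψ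
    have h1 := hred ψ hψ
    simp only [haU, hc] at h1
    rw [hdeg' u]
    have h2 : isB κ u (b u l) ψ = False := propext ⟨fun h => hb ψ h, False.elim⟩
    rw [h2] at h1
    exact h1
  have hPats : Pats q hh R (fun u => P u m (s₂ u)) (fun u => cc (E u)) f ix N := by
    refine ⟨?_, ?_, ?_⟩
    · intro u₀ hu₀
      obtain ⟨l, hl, h1⟩ := hpat (.inr (u₀, 0))
      refine ⟨l, hbase l hl, ?_, ?_, ?_⟩
      · intro i
        have h2 : (hh (.inl i)).map (Int.castRingHom (ZMod l)) ∈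
            aI (.inr (u₀, 0)) i m l := h1 (.inl i)
        rw [haI] at h2
        unfold evI at h2
        dsimp only at h2
        rw [if_pos rfl] at h2
        have h3 : (hh (.inl i)).natDegree = g i := hdeg i
        rw [h3]
        exact h2
      · have h2 : RedIn (P u₀ m (s₂ u₀)) (T u₀ l) (aU (.inr (u₀, 0)) u₀ l) := h1 (.inr u₀)
        obtain ⟨-, ⟨ψ₀, hb, hψ₀⟩, h3, -⟩ := hbT u₀ l hl
        refine swapU_of_red hu₀ hb hψ₀ h3 ?_
        intro ψ hψ
        have h4 := h2 ψ hψ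
        simp only [haU, codeU] at h4
        have h5 : isB (.inr (u₀, 0) : (I × Fin 3) ⊕ (U × Fin 3)) u₀ (b u₀ l) ψ =
            (ψ ∈ b u₀ l) := propext ⟨fun h => h.2, fun h => ⟨rfl, h⟩⟩
        rw [h5] at h4
        rw [hdeg' u₀]
        exact h4
      · intro u hu
        exact hlin (.inr (u₀, 0)) u l hl (h1 (.inr u)) rfl fun ψ h => hu h.1
    · intro u hu
      have hu3 : 3 ≤ r u := by
        have h2 : 3 ≤ (P u m (s₂ u)).natDegree := hu
        rwa [hdeg' u] at h2
      obtain ⟨l, hl, h1⟩ := hpat (.inr (u, 1))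
      have h2 : RedIn (P u m (s₂ u)) (T u l) (aU (.inr (u, 1)) u l) := h1 (.inr u)
      obtain ⟨-, ⟨ψ₀, hb, hψ₀⟩, h3, -⟩ := hbT u l hl
      refine ⟨l, (hGp l hl).1, ψ₀, ?_⟩
      have h4 := h2 ψ₀ hψ₀
      simp only [haU, codeU] at h4
      unfold uEv at h4
      dsimp only at h4
      rw [if_pos ⟨⟨rfl, by rw [hb]; rfl⟩, hu3⟩] at h4
      exact h4.2.2
    · intro u hu
      have hu3 : 3 ≤ r u := by
        have h2 : 3 ≤ (P u m (s₂ u)).natDegree := hu
        rwa [hdeg' u] at h2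
      obtain ⟨l, hl, h1⟩ := hpat (.inr (u, 2))
      have h2 : RedIn (P u m (s₂ u)) (T u l) (aU (.inr (u, 2)) u l) := h1 (.inr u)
      obtain ⟨-, ⟨ψ₀, hb, hψ₀⟩, h3, -⟩ := hbT u l hl
      refine ⟨l, hbase l hl, ψ₀, ?_⟩
      have h4 := h2 ψ₀ hψ₀
      simp only [haU, codeU] at h4
      unfold uEv at h4
      dsimp only at h4
      rw [if_pos ⟨⟨rfl, by rw [hb]; rfl⟩, hu3⟩] at h4
      rw [hdeg' u]
      exact h4
  have hPatsI : PatsI o q hh R (fun u => P u m (s₂ u)) (fun u => cc (E u)) f ix N := by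
    refine ⟨?_, ?_, ?_, ?_, ?_⟩
    · intro i
      obtain ⟨l, hl, h1⟩ := hpat (.inl (i, 0))
      have h2 : (hh (.inl i)).map (Int.castRingHom (ZMod l)) ∈
          aI (.inl (i, 0)) i m l := h1 (.inl i)
      rw [haI] at h2
      unfold evI evts at h2
      dsimp only at h2
      rw [if_pos rfl] at h2
      have h3 : (hh (.inl i)).natDegree = g i := hdeg i
      rw [h3]
      exact ⟨l, (hGp l hl).1, h2⟩
    · intro i₀ ho
      obtain ⟨l, hl, h1⟩ := hpat (.inl (i₀, 1))
      refine ⟨l, hbase l hl, ?_, ?_, ?_⟩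
      · have h2 : (hh (.inl i₀)).map (Int.castRingHom (ZMod l)) ∈
          aI (.inl (i₀, 1)) i₀ m l := h1 (.inl i₀)
        rw [haI] at h2
        unfold evI evts at h2
        dsimp only at h2
        rw [if_pos rfl, if_neg ho] at h2
        have h3 : (hh (.inl i₀)).natDegree = g i₀ := hdeg i₀
        rw [h3]
        exact h2
      · intro i hi
        have h2 : (hh (.inl i)).map (Int.castRingHom (ZMod l)) ∈
          aI (.inl (i₀, 1)) i m l := h1 (.inl i)
        rw [haI] at h2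
        unfold evI evts at h2
        dsimp only at h2
        rw [if_neg hi] at h2
        have h3 : (hh (.inl i)).natDegree = g i := hdeg i
        rw [h3]
        exact h2
      · intro u
        exact hlin (.inl (i₀, 1)) u l hl (h1 (.inr u)) rfl fun ψ h => h
    · intro i ho
      have h3 : (hh (.inl i)).natDegree = g i := hdeg i
      rw [h3]
      exact (hM i).rank ho
    · intro i ho
      obtain ⟨l, hl, h1⟩ := hpat (.inl (i, 2))
      have h2 : (hh (.inl i)).map (Int.castRingHom (ZMod l)) ∈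
          aI (.inl (i, 2)) i m l := h1 (.inl i)
      rw [haI] at h2
      unfold evI evts at h2
      dsimp only at h2
      rw [if_pos ⟨rfl, ho⟩] at h2
      have h3 : (hh (.inl i)).natDegree = g i := hdeg i
      rw [h3]
      exact ⟨l, (hGp l hl).1, h2⟩
    · intro i₀ ho
      obtain ⟨l, hl, h1⟩ := hpat (.inl (i₀, 1))
      refine ⟨l, hbase l hl, ?_, ?_, ?_⟩
      · have h2 : (hh (.inl i₀)).map (Int.castRingHom (ZMod l)) ∈
          aI (.inl (i₀, 1)) i₀ m l := h1 (.inl i₀)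
        rw [haI] at h2
        unfold evI evts at h2
        dsimp only at h2
        rw [if_pos rfl, if_pos ho] at h2
        have h3 : (hh (.inl i₀)).natDegree = g i₀ := hdeg i₀
        rw [h3]
        exact h2
      · intro i hi
        have h2 : (hh (.inl i)).map (Int.castRingHom (ZMod l)) ∈
          aI (.inl (i₀, 1)) i m l := h1 (.inl i)
        rw [haI] at h2
        unfold evI evts at h2
        dsimp only at h2
        rw [if_neg hi] at h2
        have h3 : (hh (.inl i)).natDegree = g i := hdeg i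
        rw [h3]
        exact h2
      · intro u
        exact hlin (.inl (i₀, 1)) u l hl (h1 (.inr u)) rfl fun ψ h => h
  have hND : NonDeg E (fun u => (-1) ^ (P u m (s₂ u)).natDegree *
      ((P u m (s₂ u)).coeff 0 : E u)) {z : ℂ | aeval z R = 0} := by
    have h1 : (fun u => (-1) ^ (P u m (s₂ u)).natDegree * ((P u m (s₂ u)).coeff 0 : E u)) =
        fun u => (δ u m : E u) := by
      funext u
      have h2 : (((-1) ^ r u * δ u m : 𝓞 (E u)) : E u) = (-1) ^ r u * (δ u m : E u) := by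
        change algebraMap (𝓞 (E u)) (E u) _ = _
        rw [map_mul, map_pow, map_neg, map_one]
      rw [(hU u).det m hm0 (s₂ u), hdeg' u, h2, ← mul_assoc, ← mul_pow]
      norm_num
    rw [h1]
    refine ((hN m hm0).union_nat hp.pos).mono ?_
    intro z hz
    obtain ⟨x, hx, hxz⟩ := hRc z hz
    rcases hx with hx | hx
    · exact Or.inl ⟨x, hx, hxz⟩
    · right
      rw [Set.mem_singleton_iff.1 hx, minpoly_natCast, map_sub, aeval_X, aeval_C,
        sub_eq_zero] at hxz
      rw [Set.mem_singleton_iff, hxz]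
      simp
  have hnt := nt_mixed (o := o) (q := q) (h := hh) (R := R) (fun j => pow_ne_zero _ hp.ne_zero)
    (fun j => (hO j).monic) hRm (fun i => (hO (.inl i)).degree_pos) hH hdd hNz hPats hPatsI hND
  have hQ : ∀ j, ((Sum.elim F G j).member m (s j)).Q p m = q j := by
    intro j
    rw [Piece.Q, hdim j]
  have hbal : Balanced (fun j => ((Sum.elim F G j).member m (s j)).Q p m)
      (fun j => ((Sum.elim F G j).member m (s j)).pol) R := by
    have e' : (fun j => ((Sum.elim F G j).member m (s j)).Q p m) = q := funext hQ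
    rw [e']
    exact hnt.1
  have hsep : ∀ j, ((weil (((Sum.elim F G j).member m (s j)).Q p m)
      ((Sum.elim F G j).member m (s j)).pol).map (Int.castRingHom ℚ)).Separable := by
    intro j
    rw [hQ j]
    exact hnt.2 j
  have hQp : ∀ j, 0 < ((Sum.elim F G j).member m (s j)).Q p m := fun j => by
    rw [hQ j]
    exact pow_pos hp.pos _
  have hno : ∀ j, ∀ lam : W.K, aeval lam (weil (((Sum.elim F G j).member m (s j)).Q p m)
      ((Sum.elim F G j).member m (s j)).pol) = 0 →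
        lam ^ 2 ≠ (((Sum.elim F G j).member m (s j)).Q p m : W.K) := by
    intro j lam hl h
    refine _root_.Pool.Agent.W458.MF.G.sep_nat hQp (fun i => (hO i).monic) hbal hsep j two_pos
      (aeval_sigma σ hl) (hQp j) ?_
    rw [← map_pow, h, map_natCast]
  have heven : ∀ j, Sum.elim e (fun _ => 0) j ≠ 0 →
      ((Sum.elim F G j).member m (s j)).obj.dim = 2 * Sum.elim n₁ (fun _ => 0) j ∧
        (Sum.elim e (fun _ => 0) j = 1 ∨ Sum.elim e (fun _ => 0) j = 2) := by
    intro j he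
    rw [hdim j]
    rcases j with i | u
    · exact (hM i).even he
    · exact absurd rfl he
  exact {
    hp := hp.one_lt
    hm := hm0
    frob := fun j => (hO j).frobenius
    sub_le := fun j => (hO j).sub_le
    gen := fun j => (hO j).generated
    monic := fun j => (hO j).monic
    span := fun j => member_span hp.one_lt (hO j) (heven j) (hsep j) (hno j)
    uniq := fun j lam x y hx hy => member_uniq hp.one_lt (hO j) (heven j) (hsep j) (hno j) lam x y
      hx.mem hy.mem hx.eig hy.eig hx.ne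
    hR := hR
    hRp := hRp
    bal := hbal
    sep := hsep }

end Pool.Agent.K7.H1.UM
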