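import Pool.Agent.K7.H1.UM.Final2
import Pool.Agent.W458.MF.Gen9

/-!
# Families with unitary monodromy: the Tate conjecture, the pole formula and the conjecture D for
almost all tuples
-/

set_option autoImplicit false

open CategoryTheory AlgebraicGeometry Polynomial NumberField

universe u v

namespace Pool.Agent.K7.H1.UM

open Pool.Agent.H914 Pool.Agent.W534 Pool.Agent.W458.MF VarClass Obj WeilCohomology

variable {k : Type u} [Field k] {𝒱 : VarClass k} {ops : CycleOps 𝒱}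

/-- Almost all tuples satisfy the hypotheses of the geometric theorem. -/
theorem unitary_members (W : WeilCohomology.{u, v} ops) [IsAlgClosed W.K] (σ : W.K →+* ℂ) (p : ℕ)
    (hp : p.Prime) (Φ : FrobSystem W p) (Y : 𝒱.Obj)
    (hint : ∀ μ : W.K, Module.End.HasEigenvalue (W.map (Φ.Fr Y)).toLinearMap μ → IsIntegral ℤ μ)
    {I U : Type} [Fintype I] [Fintype U] (F : I → Family W Y) (e : I → ℕ)
    (hF : ∀ i, Pol.HasLargeMonodromy (F i) Φ (e i)) (G : U → Family W Y) (E : U → Type)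
    [∀ u, Field (E u)] [∀ u, NumberField (E u)] [∀ u, IsCMField (E u)] (δ : ∀ u, ℕ → 𝓞 (E u))
    (hG : ∀ u, HasUnitary (G u) Φ (E u) (δ u))
    (hN : ∀ m, 0 < m → NonDeg E (fun u => (δ u m : E u)) (eigConj Φ Y)) (ε : ℝ) (hε : 0 < ε) :
    ∃ (R : ℤ[X]) (m₀ : ℕ), ∀ m ≥ m₀, ({s : ∀ j, (Sum.elim F G j).S m |
        ¬ (GSetup Φ σ (fun j => (Sum.elim F G j).member m (s j)) m R ∧
          ∀ j, ∃ n δ₁, Fam.IsMember ((Sum.elim F G j).member m (s j)) Φ m n
            (Sum.elim e (fun _ => 0) j) δ₁ ∧ (Sum.elim e (fun _ => 0) j ≠ 0 →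
              ((Sum.elim F G j).member m (s j)).obj.dim = 2 * n ∧
                (Sum.elim e (fun _ => 0) j = 1 ∨ Sum.elim e (fun _ => 0) j = 2)))}.ncard : ℝ) ≤
      ε * ∏ j, (Nat.card ((Sum.elim F G j).S m) : ℝ) := by
  classical
  have hF' := fun i => largeMonodromy_of_pol (hF i)
  choose d n g l₀ δ₁ D π hF using hF'
  obtain ⟨R, m₀, h⟩ := unitary_setup σ hp hint F d n g e l₀ δ₁ D π hF G E δ hG hN ε hε
  refine ⟨R, m₀, fun m hm => le_trans ?_ (h m hm)⟩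
  refine Nat.cast_le.2 (Set.ncard_le_ncard ?_ (Set.toFinite _))
  intro s hs H
  refine hs ⟨H, ?_⟩
  rintro (i | u)
  · refine ⟨n i, δ₁ i, (hF i).isMember m H.hm (s (.inl i)), fun he => ?_⟩
    have h1 : ((Sum.elim F G (.inl i)).member m (s (.inl i))).obj.dim = d i :=
      (hF i).dim m (s (.inl i))
    rw [h1]
    rcases (hF i).law with ⟨h0, -⟩ | ⟨h0, -⟩ | ⟨h0, hd, -⟩
    · exact absurd h0 he
    · exact absurd h0 he
    · exact ⟨hd, h0⟩
  · obtain ⟨n', r, l₀', D', P, hU⟩ := hG u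
    exact ⟨0, 1, isMember_of_pol (hU.isMember m H.hm (s (.inr u))), fun he => absurd rfl he⟩

/-- **The Tate conjecture and semisimplicity for the products of almost all members of families
with large monodromy follow from the Tate conjecture for the members with further eigenvalues.** -/
theorem unitary_tate (W : WeilCohomology.{u, v} ops) [IsAlgClosed W.K] (σ : W.K →+* ℂ) (p : ℕ)
    (hp : p.Prime) (Φ : FrobSystem W p) (Y : 𝒱.Obj)
    (hint : ∀ μ : W.K, Module.End.HasEigenvalue (W.map (Φ.Fr Y)).toLinearMap μ → IsIntegral ℤ μ)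
    (hY : ∀ Z, IsProductOf {Y} Z → ∀ j ≤ Z.dim, SemisimpleTateIn Φ Z j)
    {I U : Type} [Fintype I] [Fintype U] (F : I → Family W Y) (e : I → ℕ)
    (hF : ∀ i, Pol.HasLargeMonodromy (F i) Φ (e i)) (G : U → Family W Y) (E : U → Type)
    [∀ u, Field (E u)] [∀ u, NumberField (E u)] [∀ u, IsCMField (E u)] (δ : ∀ u, ℕ → 𝓞 (E u))
    (hG : ∀ u, HasUnitary (G u) Φ (E u) (δ u))
    (hN : ∀ m, 0 < m → NonDeg E (fun u => (δ u m : E u)) (eigConj Φ Y)) (ε : ℝ) (hε : 0 < ε) :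
    ∃ m₀ : ℕ, ∀ m ≥ m₀, ({s : ∀ j, (Sum.elim F G j).S m | (∀ i, e i ≠ 0 →
        SemisimpleTateIn Φ ((F i).member m (s (.inl i))).obj
          (((F i).member m (s (.inl i))).obj.dim / 2)) ∧
      ¬ ∀ Z, IsProductOf ({Y} ∪ Set.range fun j => ((Sum.elim F G j).member m (s j)).obj) Z →
        ∀ j, SemisimpleTateIn Φ Z j}.ncard : ℝ) ≤
          ε * ∏ j, (Nat.card ((Sum.elim F G j).S m) : ℝ) := by
  classical
  obtain ⟨R, m₀, h⟩ := unitary_members W σ p hp Φ Y hint F e hF G E δ hG hN ε hε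
  refine ⟨m₀, fun m hm => le_trans ?_ (h m hm)⟩
  refine Nat.cast_le.2 (Set.ncard_le_ncard ?_ (Set.toFinite _))
  rintro s ⟨hs1, hs2⟩ ⟨H, hM⟩
  refine hs2 fun Z hZ => _root_.Pool.Agent.W458.MF.G.gtate_products W397.MF.pair W40.MF.span H hY ?_ Z hZ
  intro j x hx
  obtain ⟨n, δ₁, h1, h2⟩ := hM j
  by_cases he : Sum.elim e (fun _ => 0) j = 0
  · rw [he] at h1
    rw [ext_zero H j h1 hx]
    exact Submodule.zero_mem _
  · rcases j with i | u
    · exact ext_alg H (.inl i) (hs1 i he) hx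
    · exact absurd rfl he

/-- **The Tate conjecture and semisimplicity for the products of almost all members of families
with large or unitary monodromy, without further eigenvalues.** -/
theorem unitary_tate0 (W : WeilCohomology.{u, v} ops) [IsAlgClosed W.K] (σ : W.K →+* ℂ) (p : ℕ)
    (hp : p.Prime) (Φ : FrobSystem W p) (Y : 𝒱.Obj)
    (hint : ∀ μ : W.K, Module.End.HasEigenvalue (W.map (Φ.Fr Y)).toLinearMap μ → IsIntegral ℤ μ)
    (hY : ∀ Z, IsProductOf {Y} Z → ∀ j ≤ Z.dim, SemisimpleTateIn Φ Z j)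
    {I U : Type} [Fintype I] [Fintype U] (F : I → Family W Y)
    (hF : ∀ i, Pol.HasLargeMonodromy (F i) Φ 0) (G : U → Family W Y) (E : U → Type)
    [∀ u, Field (E u)] [∀ u, NumberField (E u)] [∀ u, IsCMField (E u)] (δ : ∀ u, ℕ → 𝓞 (E u))
    (hG : ∀ u, HasUnitary (G u) Φ (E u) (δ u))
    (hN : ∀ m, 0 < m → NonDeg E (fun u => (δ u m : E u)) (eigConj Φ Y)) (ε : ℝ) (hε : 0 < ε) :
    ∃ m₀ : ℕ, ∀ m ≥ m₀,
      ((exceptions (Sum.elim F G) m fun Z => ∀ j, SemisimpleTateIn Φ Z j).ncard : ℝ) ≤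
        ε * ∏ j, (Nat.card ((Sum.elim F G j).S m) : ℝ) := by
  classical
  obtain ⟨m₀, h⟩ := unitary_tate W σ p hp Φ Y hint hY F (fun _ => 0) hF G E δ hG hN ε hε
  refine ⟨m₀, fun m hm => le_trans ?_ (h m hm)⟩
  refine Nat.cast_le.2 (Set.ncard_le_ncard ?_ (Set.toFinite _))
  intro s hs
  exact ⟨fun i hi => absurd rfl hi, hs⟩

/-- **The pole formula for the products of almost all members of families with large or unitary
monodromy, without further eigenvalues.** -/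
theorem unitary_pole (W : WeilCohomology.{u, v} ops) [IsAlgClosed W.K] (σ : W.K →+* ℂ) (p : ℕ)
    (hp : p.Prime) (Φ : FrobSystem W p) (hRH : ∀ Z, RiemannHyp Φ σ Z) (Y : 𝒱.Obj)
    (hint : ∀ μ : W.K, Module.End.HasEigenvalue (W.map (Φ.Fr Y)).toLinearMap μ → IsIntegral ℤ μ)
    (hY : ∀ Z, IsProductOf {Y} Z → ∀ j ≤ Z.dim, PoleFormula Φ σ Z j)
    {I U : Type} [Fintype I] [Fintype U] (F : I → Family W Y)
    (hF : ∀ i, Pol.HasLargeMonodromy (F i) Φ 0) (G : U → Family W Y) (E : U → Type)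
    [∀ u, Field (E u)] [∀ u, NumberField (E u)] [∀ u, IsCMField (E u)] (δ : ∀ u, ℕ → 𝓞 (E u))
    (hG : ∀ u, HasUnitary (G u) Φ (E u) (δ u))
    (hN : ∀ m, 0 < m → NonDeg E (fun u => (δ u m : E u)) (eigConj Φ Y)) (ε : ℝ) (hε : 0 < ε) :
    ∃ m₀ : ℕ, ∀ m ≥ m₀,
      ((exceptions (Sum.elim F G) m fun Z => ∀ j ≤ Z.dim, PoleFormula Φ σ Z j).ncard : ℝ) ≤
        ε * ∏ j, (Nat.card ((Sum.elim F G j).S m) : ℝ) := by
  classical
  obtain ⟨m₀, h⟩ := unitary_tate0 W σ p hp Φ Y hint (by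
    intro T hT j hj
    obtain ⟨l, hl⟩ := Nat.exists_eq_add_of_le hj
    exact (semisimple_of_pole hp.one_lt (hRH T) hl.symm (hY T hT j hj)).1) F hF G E δ hG hN ε hε
  refine ⟨m₀, fun m hm => le_trans ?_ (h m hm)⟩
  refine Nat.cast_le.2 (Set.ncard_le_ncard ?_ (Set.toFinite _))
  intro s hs H
  exact hs fun Z hZ => W216.MF.pole W σ p hp.one_lt Φ Z (hRH Z) fun j _ => H Z hZ j

/-- **The standard conjecture D for the products of almost all members of families with large or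
unitary monodromy.** -/
theorem unitary_d (W : WeilCohomology.{u, v} ops) [IsAlgClosed W.K] (σ : W.K →+* ℂ) (p : ℕ)
    (hp : p.Prime) (Φ : FrobSystem W p) (Y : 𝒱.Obj) (hRH : RiemannHyp Φ σ Y)
    (hint : ∀ μ : W.K, Module.End.HasEigenvalue (W.map (Φ.Fr Y)).toLinearMap μ → IsIntegral ℤ μ)
    (hY : ∀ Z, IsProductOf {Y} Z → ∀ j ≤ Z.dim, SemisimpleTateIn Φ Z j)
    {I U : Type} [Fintype I] [Fintype U] (F : I → Family W Y) (e : I → ℕ)
    (hF : ∀ i, Pol.HasLargeMonodromy (F i) Φ (e i)) (G : U → Family W Y) (E : U → Type)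
    [∀ u, Field (E u)] [∀ u, NumberField (E u)] [∀ u, IsCMField (E u)] (δ : ∀ u, ℕ → 𝓞 (E u))
    (hG : ∀ u, HasUnitary (G u) Φ (E u) (δ u))
    (hN : ∀ m, 0 < m → NonDeg E (fun u => (δ u m : E u)) (eigConj Φ Y)) (ε : ℝ) (hε : 0 < ε) :
    ∃ m₀ : ℕ, ∀ m ≥ m₀, ((exceptions (Sum.elim F G) m fun Z => HomEqNum W Z).ncard : ℝ) ≤
      ε * ∏ j, (Nat.card ((Sum.elim F G j).S m) : ℝ) := by
  classical
  obtain ⟨R, m₀, h⟩ := unitary_members W σ p hp Φ Y hint F e hF G E δ hG hN ε hε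
  refine ⟨m₀, fun m hm => le_trans ?_ (h m hm)⟩
  refine Nat.cast_le.2 (Set.ncard_le_ncard ?_ (Set.toFinite _))
  rintro s hs ⟨H, hM⟩
  refine hs fun Z hZ => _root_.Pool.Agent.W458.MF.G.gd_products W397.MF.pair W40.MF.span W839.MF.dfin H hY ?_ Z hZ
  intro j x hx
  obtain ⟨n, δ₁, h1, h2⟩ := hM j
  by_cases he : Sum.elim e (fun _ => 0) j = 0
  · rw [he] at h1
    rw [ext_zero H j h1 hx, H281R3.HT.ext, map_zero, zero_mul]
    exact Submodule.zero_mem _
  · exact ext_sq st_xsq H j h1 h2 he hRH (fun i hi => hY Y (IsProductOf.base rfl) i hi) hx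

end Pool.Agent.K7.H1.UM
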