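import Pool.Agent.W338.MF.NT

/-!
# The action of a Frobenius element on the roots of a polynomial
-/

set_option autoImplicit false
set_option linter.unusedSectionVars false

open Polynomial

namespace Pool.Agent.K7.H1.UM

open Pool.Agent.W458.MF

section FiniteFields

variable {k : Type*} [Field k] {l : ℕ} [Fact l.Prime] [CharP k l]

lemma cast_pow (c : ZMod l) :
    (ZMod.castHom (dvd_refl l) k c) ^ l = ZMod.castHom (dvd_refl l) k c := by
  rw [← map_pow, ZMod.pow_card]

/-- The elements fixed by the Frobenius endomorphism are in the prime field. -/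
lemma exists_cast {x : k} (hx : x ^ l = x) : ∃ c : ZMod l, x = ZMod.castHom (dvd_refl l) k c := by
  classical
  have hl : l.Prime := Fact.out
  by_contra hno
  push Not at hno
  have hq : (X ^ l - X : k[X]) ≠ 0 := FiniteField.X_pow_card_sub_X_ne_zero k hl.one_lt
  have hdegq : (X ^ l - X : k[X]).natDegree = l :=
    FiniteField.X_pow_card_sub_X_natDegree_eq k hl.one_lt
  have hsub : insert x (Finset.univ.image (ZMod.castHom (dvd_refl l) k)) ⊆
      (X ^ l - X : k[X]).roots.toFinset := by
    intro y hy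
    rw [Multiset.mem_toFinset, mem_roots hq, IsRoot.def, eval_sub, eval_pow, eval_X, sub_eq_zero]
    rw [Finset.mem_insert, Finset.mem_image] at hy
    rcases hy with rfl | ⟨s, _, rfl⟩
    · exact hx
    · exact cast_pow s
  have hc1 := Finset.card_le_card hsub
  have hc2 : (X ^ l - X : k[X]).roots.toFinset.card ≤ l :=
    (Multiset.toFinset_card_le _).trans ((card_roots' _).trans hdegq.le)
  rw [Finset.card_insert_of_notMem, Finset.card_image_of_injective _
    (ZMod.castHom (dvd_refl l) k).injective, Finset.card_univ, ZMod.card] at hc1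
  · omega
  · intro hx
    rw [Finset.mem_image] at hx
    obtain ⟨s, _, hs⟩ := hx
    exact hno s hs.symm

/-- The roots of an irreducible polynomial are conjugate. -/
lemma conj_pow [Finite k] {w : (ZMod l)[X]} (hw : Irreducible w) {x x' : k}
    (hx : (w.map (ZMod.castHom (dvd_refl l) k)).eval x = 0)
    (hx' : (w.map (ZMod.castHom (dvd_refl l) k)).eval x' = 0) : ∃ n : ℕ, x' = x ^ l ^ n := by
  classical
  let _ : Algebra (ZMod l) k := ZMod.algebra k l
  have : Fintype k := Fintype.ofFinite k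
  have hfin : FiniteDimensional (ZMod l) k := Module.Finite.of_finite
  have halg : ZMod.castHom (dvd_refl l) k = algebraMap (ZMod l) k := RingHom.ext_zmod _ _
  have h1 : ∀ y : k, (w.map (ZMod.castHom (dvd_refl l) k)).eval y = 0 → aeval y w = 0 := by
    intro y hy
    rw [halg, eval_map] at hy
    exact hy
  have hconj : IsConjRoot (ZMod l) x' x := by
    have h2 : ∀ y : k, aeval y w = 0 → minpoly (ZMod l) y = w * C w.leadingCoeff⁻¹ := fun y hy =>
      (minpoly.eq_of_irreducible hw hy).symm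
    exact (h2 _ (h1 _ hx')).trans (h2 _ (h1 _ hx)).symm
  obtain ⟨f, hf⟩ := isConjRoot_iff_exists_algEquiv.1 hconj
  obtain ⟨n, hn⟩ := (FiniteField.bijective_frobeniusAlgEquivOfAlgebraic_pow (ZMod l) k).2 f
  refine ⟨n.1, ?_⟩
  rw [← hf, ← hn, AlgEquiv.coe_pow, FiniteField.coe_frobeniusAlgEquivOfAlgebraic_iterate, ZMod.card]

end FiniteFields

section Blocks

variable {A : Type*} [CommRing A] [IsDomain A] {k : Type*} [Field k] {l : ℕ}
  [Fact l.Prime] [CharP k l] {ρ : A →+* k} {σ : A →+* A} {m : Multiset A} {g : (ZMod l)[X]}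

lemma eval_prod_iff {B : Type*} [CommRing B] [IsDomain B] (m : Multiset B) (x : B) :
    ((m.map (fun a => X - C a)).prod).eval x = 0 ↔ x ∈ m := by
  rw [eval_multiset_prod, Multiset.map_map, Multiset.prod_eq_zero_iff, Multiset.mem_map]
  constructor
  · rintro ⟨a, ha, h⟩
    simp only [Function.comp_apply, eval_sub, eval_X, eval_C, sub_eq_zero] at h
    rwa [h]
  · intro h
    exact ⟨x, h, by simp⟩

lemma map_prod_sub {B D : Type*} [CommRing B] [CommRing D] (f : B →+* D) (m : Multiset B) :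
    ((m.map (fun a => X - C a)).prod).map f = ((m.map f).map (fun a => X - C a)).prod := by
  rw [Polynomial.map_multiset_prod, Multiset.map_map, Multiset.map_map]
  congr 1
  refine Multiset.map_congr rfl fun x _ => ?_
  simp

/-- The data: `σ` is a Frobenius element for `ρ`, and permutes the elements of `m`, and the
reduction of the polynomial with the roots `m` is the separable polynomial `g`. -/
structure FB (ρ : A →+* k) (σ : A →+* A) (m : Multiset A) (g : (ZMod l)[X]) : Prop where
  frob : ∀ x, ρ (σ x) = ρ x ^ l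
  inv : ((m.map (fun a => X - C a)).prod).map σ = (m.map (fun a => X - C a)).prod
  red : ((m.map (fun a => X - C a)).prod).map ρ = g.map (ZMod.castHom (dvd_refl l) k)
  sep : g.Separable

lemma FB.inj (H : FB ρ σ m g) {a b : A} (ha : a ∈ m) (hb : b ∈ m) (h : ρ a = ρ b) : a = b := by
  have h1 : ((m.map ρ).map (fun a => X - C a)).prod.Separable := by
    rw [← map_prod_sub, H.red]
    exact H.sep.map
  exact Multiset.inj_on_of_nodup_map (nodup_of_separable_prod h1) a ha b hb h

lemma FB.mem (H : FB ρ σ m g) {a : A} (ha : a ∈ m) : σ a ∈ m := by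
  rw [← eval_prod_iff, ← H.inv, eval_map, eval₂_at_apply, (eval_prod_iff m a).2 ha, map_zero]

lemma FB.mem_iterate (H : FB ρ σ m g) {a : A} (ha : a ∈ m) (n : ℕ) : σ^[n] a ∈ m := by
  induction n with
  | zero => exact ha
  | succ n ih =>
    rw [Function.iterate_succ_apply']
    exact H.mem ih

lemma FB.frob_iterate (H : FB ρ σ m g) (a : A) (n : ℕ) : ρ (σ^[n] a) = ρ a ^ l ^ n := by
  induction n with
  | zero => simp
  | succ n ih =>
    rw [Function.iterate_succ_apply', H.frob, ih, ← pow_mul, ← pow_succ]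

lemma FB.fixed (H : FB ρ σ m g) {a : A} (ha : a ∈ m) (h : ρ a ^ l = ρ a) : σ a = a :=
  H.inj (H.mem ha) ha (by rw [H.frob, h])

lemma FB.exists_lift (H : FB ρ σ m g) {x : k}
    (hx : (g.map (ZMod.castHom (dvd_refl l) k)).eval x = 0) : ∃ a ∈ m, ρ a = x := by
  rw [← H.red, map_prod_sub, eval_prod_iff, Multiset.mem_map] at hx
  exact hx

lemma FB.root (H : FB ρ σ m g) {a : A} (ha : a ∈ m) :
    (g.map (ZMod.castHom (dvd_refl l) k)).eval (ρ a) = 0 := by
  rw [← H.red, map_prod_sub, eval_prod_iff]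
  exact Multiset.mem_map_of_mem ρ ha

lemma map_prod_lin (T : Finset (ZMod l)) (x : k)
    (h : ((∏ t ∈ T, (X - C t) : (ZMod l)[X]).map (ZMod.castHom (dvd_refl l) k)).eval x = 0) :
    x ^ l = x := by
  rw [Polynomial.map_prod, eval_prod, Finset.prod_eq_zero_iff] at h
  obtain ⟨t, -, ht⟩ := h
  rw [Polynomial.map_sub, map_X, map_C, eval_sub, eval_X, eval_C, sub_eq_zero] at ht
  rw [ht, cast_pow]

/-- The split pattern. -/
lemma FB.lin (H : FB ρ σ m g) {T : Finset (ZMod l)} (hg : g = ∏ t ∈ T, (X - C t)) {a : A}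
    (ha : a ∈ m) : σ a = a := by
  have h1 := H.root ha
  rw [hg] at h1
  exact H.fixed ha (map_prod_lin T _ h1)

/-- The swap pattern. -/
lemma FB.swap (H : FB ρ σ m g) {T : Finset (ZMod l)} {u : ZMod l} {v N : ℕ}
    (hns : ¬ IsSquare (u ^ 2 - 4 * (v : ZMod l)))
    (hluc : ((luc v N).map (Int.castRingHom (ZMod l))).eval u ≠ 0)
    (hg : g = (X ^ 2 - C u * X + C (v : ZMod l)) * ∏ t ∈ T, (X - C t)) :
    ∃ a ∈ m, ∃ a' ∈ m, a ≠ a' ∧ σ a = a' ∧ σ a' = a ∧ a ^ N ≠ a' ^ N ∧
      ∀ b ∈ m, b ≠ a → b ≠ a' → σ b = b := by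
  set ψ := ZMod.castHom (dvd_refl l) k with hψ
  have hψl : ∀ c : ZMod l, ψ c ^ l = ψ c := fun c => cast_pow c
  have e2 : ∀ x : k, ((X ^ 2 - C u * X + C (v : ZMod l) : (ZMod l)[X]).map ψ).eval x =
      x ^ 2 - ψ u * x + (v : k) := by
    intro x
    simp [Polynomial.map_add, Polynomial.map_sub, Polynomial.map_mul, Polynomial.map_pow]
  -- a root of the quadratic factor
  obtain ⟨x, hx⟩ : ∃ x : k, x ^ 2 - ψ u * x + (v : k) = 0 := by
    have h1 : (g.map ψ).Splits := by
      rw [← H.red, map_prod_sub]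
      exact Splits.multisetProd (by
        intro f hf
        obtain ⟨a, -, rfl⟩ := Multiset.mem_map.1 hf
        exact Splits.X_sub_C a)
    have h2 : ((X ^ 2 - C u * X + C (v : ZMod l) : (ZMod l)[X]).map ψ).Splits := by
      refine h1.of_dvd ?_ ?_
      · exact (H.sep.map (f := ψ)).ne_zero
      · rw [hg, Polynomial.map_mul]
        exact dvd_mul_right _ _
    have h3 : ((X ^ 2 - C u * X + C (v : ZMod l) : (ZMod l)[X]).map ψ).degree ≠ 0 := by
      have h4 : (X ^ 2 - C u * X + C (v : ZMod l) : (ZMod l)[X]).natDegree = 2 := by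
        compute_degree!
      rw [degree_map]
      intro h5
      have h6 : (X ^ 2 - C u * X + C (v : ZMod l) : (ZMod l)[X]).natDegree = 0 :=
        natDegree_eq_of_degree_eq_some h5
      omega
    obtain ⟨x, hx⟩ := h2.exists_eval_eq_zero h3
    exact ⟨x, by rw [← e2]; exact hx⟩
  have hvl : ((v : k)) ^ l = v := by
    have := hψl (v : ZMod l)
    rwa [map_natCast] at this
  set y := x ^ l with hy
  have hy2 : y ^ 2 - ψ u * y + (v : k) = 0 := by
    have h1 : (x ^ 2 - ψ u * x + (v : k)) ^ l = 0 ^ l := by rw [hx]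
    rw [zero_pow (Fact.out : l.Prime).ne_zero, add_pow_char, sub_pow_char, mul_pow, hψl, hvl,
      ← pow_mul, mul_comm 2 l, pow_mul] at h1
    exact h1
  have hxy : x ≠ y := by
    intro h
    obtain ⟨c, hc⟩ := exists_cast (l := l) (x := x) h.symm
    apply hns
    refine ⟨2 * c - u, ?_⟩
    apply ψ.injective
    rw [hc] at hx
    simp only [map_sub, map_mul, map_pow, map_natCast, map_ofNat]
    linear_combination (-4 : k) * hx
  have hsum : x + y = ψ u := by
    have h1 : (x - y) * (x + y - ψ u) = 0 := by linear_combination hx - hy2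
    exact sub_eq_zero.1 ((mul_eq_zero.1 h1).resolve_left (sub_ne_zero.2 hxy))
  have hprod : x * y = (v : k) := by
    have : y = ψ u - x := by rw [← hsum]; ring
    rw [this]
    linear_combination (-1 : k) * hx
  have hyl : y ^ l = x := by
    have h1 : y = ψ u - x := by rw [← hsum]; ring
    rw [h1, sub_pow_char, hψl, ← hy, ← hsum]
    ring
  -- the two roots
  have hgx : ∀ z : k, z ^ 2 - ψ u * z + (v : k) = 0 → (g.map ψ).eval z = 0 := by
    intro z hz
    rw [hg, Polynomial.map_mul, eval_mul, e2, hz, zero_mul]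
  obtain ⟨a, ha, hax⟩ := H.exists_lift (hgx x hx)
  have hσa : ρ (σ a) = y := by rw [H.frob, hax]
  have hσσa : σ (σ a) = a := by
    refine H.inj (H.mem (H.mem ha)) ha ?_
    rw [H.frob, hσa, hyl, hax]
  refine ⟨a, ha, σ a, H.mem ha, ?_, rfl, hσσa, ?_, ?_⟩
  · intro h
    apply hxy
    rw [← hax, ← hσa, ← h]
  · intro h
    have h1 : x ^ N = y ^ N := by rw [← hax, ← hσa, ← map_pow, ← map_pow, h]
    have h2 := Pool.Agent.W338.MF.luc_id v x y hprod N
    rw [h1, sub_self, mul_eq_zero] at h2
    rcases h2 with h2 | h2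
    · exact hxy (sub_eq_zero.1 h2)
    · apply hluc
      apply ψ.injective
      rw [map_zero, ← h2, hsum, eval_map, Polynomial.hom_eval₂, aeval_def]
      congr 1
      exact RingHom.ext_int _ _
  · intro b hb hba hba'
    have h1 := H.root hb
    rw [hg, Polynomial.map_mul, eval_mul, e2, mul_eq_zero] at h1
    rcases h1 with h1 | h1
    · have h2 : (ρ b - x) * (ρ b - y) = 0 := by
        linear_combination h1 - (ρ b) * hsum + hprod
      rcases mul_eq_zero.1 h2 with h3 | h3
      · exact absurd (H.inj hb ha ((sub_eq_zero.1 h3).trans hax.symm)) hba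
      · exact absurd (H.inj hb (H.mem ha) ((sub_eq_zero.1 h3).trans hσa.symm)) hba'
    · exact H.fixed hb (map_prod_lin T _ h1)

/-- The fix pattern. -/
lemma FB.fix [Finite k] (H : FB ρ σ m g) {t : ZMod l} {w : (ZMod l)[X]} (hw : Irreducible w)
    (hg : g = (X - C t) * w) :
    ∃ a ∈ m, σ a = a ∧ ∀ b ∈ m, b ≠ a → ∀ b' ∈ m, b' ≠ a → ∃ n : ℕ, σ^[n] b = b' := by
  set ψ := ZMod.castHom (dvd_refl l) k with hψ
  obtain ⟨a, ha, hax⟩ := H.exists_lift (x := ψ t) (by
    rw [hg, Polynomial.map_mul, eval_mul, Polynomial.map_sub, map_X, map_C, eval_sub, eval_X,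
      eval_C, sub_self, zero_mul])
  refine ⟨a, ha, H.fixed ha (by rw [hax]; exact cast_pow t), ?_⟩
  have hroot : ∀ b ∈ m, b ≠ a → (w.map ψ).eval (ρ b) = 0 := by
    intro b hb hba
    have h1 := H.root hb
    rw [hg, Polynomial.map_mul, eval_mul, mul_eq_zero] at h1
    rcases h1 with h1 | h1
    · rw [Polynomial.map_sub, map_X, map_C, eval_sub, eval_X, eval_C, sub_eq_zero] at h1
      exact absurd (H.inj hb ha (h1.trans hax.symm)) hba
    · exact h1
  intro b hb hba b' hb' hba'
  obtain ⟨n, hn⟩ := conj_pow hw (hroot b hb hba) (hroot b' hb' hba')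
  exact ⟨n, H.inj (H.mem_iterate hb n) hb' (by rw [H.frob_iterate, hn])⟩

end Blocks

end Pool.Agent.K7.H1.UM
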