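import Pool.Agent.K7.H1.UM.UDefs
import Pool.Agent.W458.MF.Gen2

/-!
# The sieve, abstract form
-/

set_option autoImplicit false

open Polynomial

namespace Pool.Agent.K7.H1.UM

open Pool.Agent.W458.MF

/-- Almost all tuples have the patterns. -/
theorem almost_all_abs (hS : St_SIEVE) {J K : Type} [Fintype J] [Fintype K]
    (S : J → ℕ → Type) [∀ j m, Fintype (S j m)] (G : Set ℕ) (hG : G.Infinite)
    (A : K → ∀ j m, ℕ → Set (S j m)) (μ : K → J → ℕ → ℕ → ℝ) {c₀ : ℝ} (hc₀ : 0 < c₀)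
    (hμ : ∀ κ j, ∀ l ∈ G, ∀ m, 0 < m → Nonempty (S j m) → c₀ ≤ μ κ j m l ∧ μ κ j m l ≤ 1)
    (hA : ∀ κ j, ∀ l ∈ G, ∀ l' ∈ G, l ≠ l' → ∀ δ : ℝ, 0 < δ → ∃ m₀ : ℕ, ∀ m ≥ m₀,
      Nonempty (S j m) → |((A κ j m l).ncard : ℝ) / (Nat.card (S j m) : ℝ) - μ κ j m l| ≤ δ ∧
        |((A κ j m l ∩ A κ j m l').ncard : ℝ) / (Nat.card (S j m) : ℝ) -
          μ κ j m l * μ κ j m l'| ≤ δ) (ε : ℝ) (hε : 0 < ε) :
    ∃ m₀ : ℕ, ∀ m ≥ m₀, ({s : ∀ j, S j m | ¬ ∀ κ, ∃ l ∈ G, ∀ j,
      s j ∈ A κ j m l}.ncard : ℝ) ≤ ε * ∏ j, (Nat.card (S j m) : ℝ) := by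
  classical
  have hempty : ∀ m, (∃ j, IsEmpty (S j m)) → ∀ B : Set (∀ j, S j m),
      (B.ncard : ℝ) ≤ ε * ∏ j, (Nat.card (S j m) : ℝ) := by
    rintro m ⟨i, hi⟩ B
    have : IsEmpty (∀ j, S j m) := ⟨fun s => hi.false (s i)⟩
    rw [Set.eq_empty_of_isEmpty B, Set.ncard_empty, Nat.cast_zero]
    positivity
  set C : ℝ := c₀ ^ Fintype.card J with hC
  have hCpos : 0 < C := pow_pos hc₀ _
  set η : ℝ := ε / ((Fintype.card K : ℝ) + 1) with hη
  have hηpos : 0 < η := by positivity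
  obtain ⟨M, hM⟩ := exists_nat_gt (2 / (C * η))
  obtain ⟨P, hP, hPM⟩ := hG.exists_subset_card_eq (M + 2)
  set δ : ℝ := η * C ^ 2 / (8 * ((Fintype.card J : ℝ) + 1)) with hδ
  have hδpos : 0 < δ := by positivity
  have hev : ∀ᶠ m in Filter.atTop, ∀ κ j, ∀ l l' : P, l ≠ l' → Nonempty (S j m) →
      |((A κ j m l).ncard : ℝ) / (Nat.card (S j m) : ℝ) - μ κ j m l| ≤ δ ∧
        |((A κ j m l ∩ A κ j m l').ncard : ℝ) / (Nat.card (S j m) : ℝ) -
          μ κ j m l * μ κ j m l'| ≤ δ := by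
    rw [Filter.eventually_all]
    intro κ
    rw [Filter.eventually_all]
    intro j
    rw [Filter.eventually_all]
    intro l
    rw [Filter.eventually_all]
    intro l'
    by_cases hll : l = l'
    · exact Filter.Eventually.of_forall fun m h => absurd hll h
    · obtain ⟨m₀, h4⟩ := hA κ j l (hP l.2) l' (hP l'.2)
        (fun h => hll (Subtype.ext h)) δ hδpos
      exact Filter.eventually_atTop.2 ⟨m₀, fun m hm _ => h4 m hm⟩
  obtain ⟨m₀, hm₀⟩ := Filter.eventually_atTop.1 hev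
  refine ⟨m₀ + 1, fun m hm => ?_⟩
  by_cases hne : ∀ j, Nonempty (S j m)
  swap
  · push Not at hne
    exact hempty m hne _
  have hcard : 1 < Fintype.card P := by
    rw [Fintype.card_coe, hPM]
    omega
  have hnek : Nonempty P := Fintype.card_pos_iff.1 (by omega)
  have hnt : ∀ l : P, ∃ l' : P, l ≠ l' := by
    intro l
    have : Nontrivial P := Fintype.one_lt_card_iff_nontrivial.1 hcard
    obtain ⟨l', hl'⟩ := exists_ne l
    exact ⟨l', hl'.symm⟩
  -- the bound for the families of events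
  have hbound : ∀ κ : K,
      ({s : ∀ j, S j m | ∀ l : P, ¬ ∀ j, s j ∈ A κ j m l}.ncard : ℝ) ≤
        η * ∏ j, (Nat.card (S j m) : ℝ) := by
    intro κ
    have h2 := event_bound hS (S := fun j => S j m) (κ := P)
      (fun j l => A κ j m l) (fun j l => μ κ j m l)
      hc₀ hδpos.le (fun j l => hμ κ j l (hP l.2) m (by omega) (hne j))
      (fun j l => by
        obtain ⟨l', hl'⟩ := hnt l
        exact (hm₀ m (by omega) κ j l l' hl' (hne j)).1)
      (fun j l l' hll => (hm₀ m (by omega) κ j l l' hll (hne j)).2)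
    refine h2.trans (mul_le_mul_of_nonneg_right ?_ (by positivity))
    rw [← hC]
    have h2 : 1 / (C * (Nat.card P : ℝ)) ≤ η / 2 := by
      have h3 : (M : ℝ) ≤ (Nat.card P : ℝ) := by
        rw [Nat.card_eq_fintype_card, Fintype.card_coe, hPM]
        push_cast
        linarith
      have h4 : 2 / (C * η) < (Nat.card P : ℝ) := hM.trans_le h3
      rw [div_lt_iff₀ (by positivity)] at h4
      have h5 : 0 < (Nat.card P : ℝ) := by
        exact_mod_cast Nat.card_pos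
      rw [div_le_div_iff₀ (by positivity) (by norm_num)]
      nlinarith
    have h3 : 4 * ((Fintype.card J : ℝ) * δ) / C ^ 2 ≤ η / 2 := by
      rw [hδ, div_le_iff₀ (by positivity)]
      have e : 4 * ((Fintype.card J : ℝ) * (η * C ^ 2 / (8 * ((Fintype.card J : ℝ) + 1)))) =
          (η / 2 * C ^ 2) * ((Fintype.card J : ℝ) / ((Fintype.card J : ℝ) + 1)) := by
        field_simp
        ring
      rw [e]
      have h6 : (Fintype.card J : ℝ) / ((Fintype.card J : ℝ) + 1) ≤ 1 :=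
        div_le_one_of_le₀ (by linarith) (by positivity)
      calc (η / 2 * C ^ 2) * ((Fintype.card J : ℝ) / ((Fintype.card J : ℝ) + 1))
          ≤ (η / 2 * C ^ 2) * 1 := mul_le_mul_of_nonneg_left h6 (by positivity)
        _ = η / 2 * C ^ 2 := mul_one _
    linarith
  have hsub : {s : ∀ j, S j m | ¬ ∀ κ, ∃ l ∈ G, ∀ j, s j ∈ A κ j m l} ⊆
      ⋃ κ, {s : ∀ j, S j m | ∀ l : P, ¬ ∀ j, s j ∈ A κ j m l} := by
    intro s hs
    rw [Set.mem_iUnion]
    by_contra hcon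
    push Not at hcon
    apply hs
    intro κ
    have h3 := hcon κ
    by_contra h4
    push Not at h4
    exact h3 fun l => h4 l (hP l.2)
  have hP0 : 0 ≤ ∏ j, (Nat.card (S j m) : ℝ) := by positivity
  calc ({s : ∀ j, S j m | ¬ ∀ κ, ∃ l ∈ G, ∀ j, s j ∈ A κ j m l}.ncard : ℝ)
      ≤ ((⋃ κ, {s : ∀ j, S j m | ∀ l : P, ¬ ∀ j, s j ∈ A κ j m l}).ncard : ℝ) := by
        exact_mod_cast Set.ncard_le_ncard hsub (Set.toFinite _)
    _ ≤ ∑ _κ : K, η * ∏ j, (Nat.card (S j m) : ℝ) := ncard_iUnion_le' _ _ hbound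
    _ = ((Fintype.card K : ℝ) * η) * ∏ j, (Nat.card (S j m) : ℝ) := by
        rw [Finset.sum_const, Finset.card_univ, nsmul_eq_mul]
        ring
    _ ≤ ε * ∏ j, (Nat.card (S j m) : ℝ) := by
        refine mul_le_mul_of_nonneg_right ?_ hP0
        rw [hη, mul_div_assoc', div_le_iff₀ (by positivity)]
        nlinarith [(Nat.cast_nonneg (Fintype.card K) : (0 : ℝ) ≤ Fintype.card K)]

/-- A finite set with an involution without fixed points is the union of a set and of its image. -/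
lemma exists_half {X : Type*} [Finite X] (ι : X → X) (h1 : ∀ x, ι (ι x) = x) (h2 : ∀ x, ι x ≠ x)
    (x₀ : X) : ∃ T : Finset X, x₀ ∈ T ∧ (∀ x ∈ T, ι x ∉ T) ∧ ∀ x, x ∈ T ∨ ι x ∈ T := by
  classical
  obtain ⟨n, ⟨e⟩⟩ := Finite.exists_equiv_fin X
  have hf : Set.Finite {x : X | x = x₀ ∨ (x ≠ ι x₀ ∧ e x < e (ι x))} := Set.toFinite _
  refine ⟨hf.toFinset, ?_, ?_, ?_⟩
  · rw [Set.Finite.mem_toFinset]
    exact Or.inl rfl
  · intro x hx hx'
    rw [Set.Finite.mem_toFinset] at hx hx'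
    rcases hx with rfl | ⟨hx1, hx2⟩
    · rcases hx' with h | ⟨h, -⟩
      · exact h2 _ h
      · exact h rfl
    · rcases hx' with h | ⟨h, h'⟩
      · apply hx1
        rw [← h, h1]
      · rw [h1] at h'
        exact absurd h' (not_lt.2 hx2.le)
  · intro x
    rw [Set.Finite.mem_toFinset, Set.Finite.mem_toFinset]
    by_cases hx : x = x₀
    · exact Or.inl (Or.inl hx)
    by_cases hx' : x = ι x₀
    · right
      left
      rw [hx', h1]
    rcases lt_trichotomy (e x) (e (ι x)) with h | h | h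
    · exact Or.inl (Or.inr ⟨hx', h⟩)
    · exact absurd (e.injective h).symm (h2 x)
    · right
      right
      refine ⟨fun h3 => hx ?_, by rw [h1]; exact h⟩
      rw [← h1 x, h3, h1]

end Pool.Agent.K7.H1.UM
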