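import Pool.Agent.K7.H1.UM.Mix
import Pool.Agent.K7.H1.UM.Sieve

/-!
# Homomorphisms from the ring of integers of a CM field to prime fields
-/

set_option autoImplicit false
set_option linter.unusedSectionVars false

open Polynomial NumberField

namespace Pool.Agent.K7.H1.UM

open Pool.Agent.W458.MF Pool.Agent.W521.Frob Pool.Agent.W521.Criterion Pool.Agent.W338.MF

section Homs

variable {E : Type} [Field E] [NumberField E] {f : ℤ[X]} {θ : 𝓞 E} {D : ℕ} {l : ℕ}
  [Fact l.Prime]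

lemma Prim.inj_theta (H : Prim E f θ D) (hD : ¬ l ∣ D) :
    Function.Injective (fun ψ : 𝓞 E →+* ZMod l => ψ θ) := by
  intro ψ ψ' h
  refine H.ext_int ?_ ψ ψ' h
  rw [Ne, ZMod.natCast_eq_zero_iff]
  exact hD

lemma Prim.finite_homs (H : Prim E f θ D) (hD : ¬ l ∣ D) : Finite (𝓞 E →+* ZMod l) :=
  Finite.of_injective _ (H.inj_theta hD)

lemma Prim.card_le (H : Prim E f θ D) (hD : ¬ l ∣ D) (T : Finset (𝓞 E →+* ZMod l)) :
    T.card ≤ f.natDegree := by
  classical
  have h1 : T.card = (T.image (fun ψ : 𝓞 E →+* ZMod l => ψ θ)).card :=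
    (Finset.card_image_of_injective _ (H.inj_theta hD)).symm
  have hne : f.map (Int.castRingHom (ZMod l)) ≠ 0 := (H.monic.map _).ne_zero
  have h2 : T.image (fun ψ : 𝓞 E →+* ZMod l => ψ θ) ⊆
      (f.map (Int.castRingHom (ZMod l))).roots.toFinset := by
    intro t ht
    obtain ⟨ψ, -, rfl⟩ := Finset.mem_image.1 ht
    rw [Multiset.mem_toFinset, mem_roots hne, IsRoot.def, eval_map]
    have h3 := Polynomial.hom_eval₂ f (algebraMap ℤ (𝓞 E)) ψ θ
    rw [RingHom.ext_int (ψ.comp (algebraMap ℤ (𝓞 E))) (Int.castRingHom (ZMod l))] at h3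
    have h4 : eval₂ (algebraMap ℤ (𝓞 E)) θ f = 0 := H.root
    rw [h4, map_zero] at h3
    exact h3.symm
  rw [h1]
  refine (Finset.card_le_card h2).trans ((Multiset.toFinset_card_le _).trans ?_)
  refine (card_roots' _).trans ?_
  rw [H.monic.natDegree_map]

lemma Prim.exists_hom (H : Prim E f θ D) (hD : ¬ l ∣ D) (hf : SplitsMod f l) :
    Nonempty (𝓞 E →+* ZMod l) := by
  obtain ⟨L, _, _, _, j, hj⟩ := exists_field' f H.monic
  obtain ⟨k, _, _, _, ρ, σ, hσ⟩ := exists_frob' L l Fact.out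
  obtain ⟨χ⟩ : Nonempty (E →+* ℂ) := inferInstance
  obtain ⟨φ, -⟩ := H.emb hj χ
  obtain ⟨ψ, -⟩ := H.factor hD hf (ρ.comp (RingOfIntegers.mapRingHom φ))
  exact ⟨ψ⟩

end Homs

section CM

variable {E : Type} [Field E] [NumberField E] [IsCMField E] {f : ℤ[X]} {θ : 𝓞 E} {D : ℕ}

/-- The complex conjugation. -/
noncomputable abbrev cc (E : Type) [Field E] [NumberField E] [IsCMField E] : E →+* E :=
  (IsCMField.complexConj E : E →+* E)

lemma cj_cc : cj (cc E) = (IsCMField.ringOfIntegersComplexConj E : 𝓞 E →+* 𝓞 E) := by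
  ext x
  rfl

lemma cc_cc (x : E) : cc E (cc E x) = x := IsCMField.complexConj_apply_apply E x

lemma cc_conj (φ : E →+* ℂ) : φ.comp (cc E) = ComplexEmbedding.conjugate φ := by
  ext x
  exact IsCMField.complexEmbedding_complexConj E φ x

lemma cc_ne : cc E ≠ RingHom.id E := by
  intro h
  apply IsCMField.complexConj_ne_one E
  ext x
  exact DFunLike.congr_fun h x

lemma udata_cm {q : ℕ} {h : ℤ[X]} {P : (𝓞 E)[X]} (half : HalfPol E q h P)
    (prim : Prim E f θ D) : UData E q h P (cc E) f θ D where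
  half := half
  prim := prim
  cc := cc_cc
  conj := cc_conj
  cne := cc_ne

variable {l : ℕ} [Fact l.Prime]

lemma exists_T (H : Prim E f θ D) (hD : ¬ l ∣ D) (hf : SplitsMod f l) :
    ∃ (ψ₀ : 𝓞 E →+* ZMod l) (T : Finset (𝓞 E →+* ZMod l)), NoPair T ∧ ψ₀ ∈ T ∧
      (∀ ψ, ψ ∈ T ∨ ψ.comp (cj (cc E)) ∈ T) ∧ T.card ≤ f.natDegree := by
  obtain ⟨ψ₀⟩ := H.exists_hom hD hf
  have := H.finite_homs hD
  obtain ⟨T, h1, h2, h3⟩ := exists_half (fun ψ : 𝓞 E →+* ZMod l => ψ.comp (cj (cc E)))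
    (by
      intro ψ
      ext x
      change ψ (cj (cc E) (cj (cc E) x)) = ψ x
      congr 1
      apply RingOfIntegers.coe_injective
      exact cc_cc (x : E))
    (fun ψ => H.conj_ne hf (cc E) cc_ne (cj (cc E)) (fun x => rfl) ψ) ψ₀
  refine ⟨ψ₀, T, ?_, h1, h3, H.card_le hD T⟩
  intro ψ hψ
  rw [← cj_cc]
  exact h2 ψ hψ

/-- The constant coefficient has absolute value `q ^ (r / 2)`. -/
lemma HalfPol.norm_coeff {q : ℕ} {h : ℤ[X]} {P : (𝓞 E)[X]} (H : HalfPol E q h P) :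
    P.coeff 0 * cj (cc E) (P.coeff 0) = (q : 𝓞 E) ^ P.natDegree := by
  apply RingOfIntegers.coe_injective
  obtain ⟨φ⟩ : Nonempty (E →+* ℂ) := inferInstance
  apply φ.injective
  have e1 : φ ((algebraMap (𝓞 E) E) (P.coeff 0 * cj (cc E) (P.coeff 0))) =
      φ (P.coeff 0 : E) * (starRingEnd ℂ) (φ (P.coeff 0 : E)) := by
    rw [map_mul, map_mul]
    congr 1
    exact IsCMField.complexEmbedding_complexConj E φ (P.coeff 0 : E)
  have e2 : φ ((algebraMap (𝓞 E) E) ((q : 𝓞 E) ^ P.natDegree)) = (q : ℂ) ^ P.natDegree := by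
    rw [map_pow, map_pow, map_natCast, map_natCast]
  rw [e1, e2]
  set Q := P.map (φ.comp (algebraMap (𝓞 E) E)) with hQ
  have hQm : Q.Monic := H.monic.map _
  have hsp : Q.Splits := IsAlgClosed.splits _
  have h1 : φ (P.coeff 0 : E) = Q.coeff 0 := by
    rw [hQ, coeff_map]
    rfl
  have h2 : Q.coeff 0 = (-1) ^ Q.natDegree * Q.roots.prod := by
    have h3 := hsp.coeff_zero_eq_prod_roots_of_monic hQm
    exact h3
  have h3 : Q.roots.prod * (starRingEnd ℂ) Q.roots.prod = (q : ℂ) ^ Q.natDegree := by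
    rw [map_multiset_prod, hsp.natDegree_eq_card_roots]
    have h4 : ∀ s : Multiset ℂ, (∀ z ∈ s, z * (starRingEnd ℂ) z = q) →
        s.prod * (s.map (starRingEnd ℂ)).prod = (q : ℂ) ^ s.card := by
      intro s
      induction s using Multiset.induction_on with
      | empty => simp
      | cons a s ih =>
        intro hs
        have h5 := ih fun z hz => hs z (Multiset.mem_cons_of_mem hz)
        have h6 := hs a (Multiset.mem_cons_self a s)
        rw [Multiset.map_cons, Multiset.prod_cons, Multiset.prod_cons, Multiset.card_cons, pow_succ,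
          ← h5, ← h6]
        ring
    exact h4 _ fun z hz => H.abs φ z (mem_roots'.1 hz).2
  have h5 : Q.natDegree = P.natDegree := H.monic.natDegree_map _
  rw [h1, h2, map_mul, map_pow, map_neg, map_one, mul_mul_mul_comm, h3, h5, ← mul_pow]
  norm_num

lemma HalfPol.coeff_mod {q : ℕ} {h : ℤ[X]} {P : (𝓞 E)[X]} (H : HalfPol E q h P) (hlq : ¬ l ∣ q)
    (ψ : 𝓞 E →+* ZMod l) : ψ (P.coeff 0) ≠ 0 := by
  intro h0
  have h1 := congrArg ψ H.norm_coeff
  rw [map_mul, h0, zero_mul, map_pow, map_natCast] at h1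
  have h2 := eq_zero_of_pow_eq_zero h1.symm
  rw [ZMod.natCast_eq_zero_iff] at h2
  exact hlq h2

end CM

end Pool.Agent.K7.H1.UM
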