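import Mathlib

/-!
# Matrices over finite fields with a given determinant and characteristic polynomial
-/

set_option autoImplicit false

open Polynomial

namespace Pool.Agent.K7.H1.UM

section Centralizer

variable {K : Type*} [Field K]

/-- Linear maps of `K[x] / f` which commute with the multiplication by `x` are determined by the
image of `1`. -/
lemma comm_eq {S : Type*} [CommRing S] [Algebra K S] (g : S)
    (hg : ∀ y : S, ∃ q : K[X], aeval g q = y) (T : S →ₗ[K] S)
    (hT : ∀ y, T (g * y) = g * T y) (y : S) : T y = y * T 1 := by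
  obtain ⟨q, rfl⟩ := hg y
  have h1 : ∀ (q : K[X]) (s : S), T (aeval g q * s) = aeval g q * T s := by
    intro q
    induction q using Polynomial.induction_on' with
    | add p q hp hq =>
      intro s
      rw [map_add, add_mul, map_add, hp, hq, add_mul]
    | monomial n a =>
      intro s
      have h2 : ∀ (n : ℕ) (s : S), T (g ^ n * s) = g ^ n * T s := by
        intro n
        induction n with
        | zero => intro s; simp
        | succ n ih =>
          intro s
          rw [pow_succ', mul_assoc, hT, ih, mul_assoc]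
      rw [aeval_monomial, mul_assoc, ← Algebra.smul_def, map_smul, h2, Algebra.smul_def, mul_assoc]
  have := h1 q 1
  rw [mul_one] at this
  exact this

variable [Fintype K]

/-- The number of matrices which commute with a given matrix with characteristic polynomial `f` is
at most `l ^ r`, for a suitable matrix. -/
lemma exists_cyclic [DecidableEq K] {r : ℕ} (f : K[X]) (hf : f.Monic) (hr : f.natDegree = r) :
    ∃ A₀ : Matrix (Fin r) (Fin r) K, A₀.charpoly = f ∧
      (Finset.univ.filter (fun B : Matrix (Fin r) (Fin r) K => B * A₀ = A₀ * B)).card ≤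
        Fintype.card K ^ r := by
  classical
  set pb := AdjoinRoot.powerBasis hf.ne_zero with hpb
  have hdim : pb.dim = r := by rw [hpb, AdjoinRoot.powerBasis_dim, hr]
  obtain rfl : r = pb.dim := hdim.symm
  refine ⟨Algebra.leftMulMatrix pb.basis pb.gen, ?_, ?_⟩
  · rw [charpoly_leftMulMatrix, hpb, AdjoinRoot.minpoly_powerBasis_gen_of_monic hf]
  · have hgen : ∀ y : AdjoinRoot f, ∃ q : K[X], aeval pb.gen q = y := by
      intro y
      obtain ⟨q, hq⟩ := pb.exists_eq_aeval' y
      exact ⟨q, hq.symm⟩
    have : Module.Finite K (AdjoinRoot f) := pb.finite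
    have hfin : Finite (AdjoinRoot f) := Module.finite_of_finite K
    have : Fintype (AdjoinRoot f) := Fintype.ofFinite _
    have hcard : Fintype.card (AdjoinRoot f) = Fintype.card K ^ pb.dim := by
      rw [Module.card_eq_pow_finrank (K := K) (V := AdjoinRoot f), pb.finrank]
    rw [← hcard, ← Finset.card_univ]
    refine Finset.card_le_card_of_injOn
      (fun B => Matrix.toLin pb.basis pb.basis B 1) (fun _ _ => Finset.mem_coe.2 (Finset.mem_univ _)) ?_
    have hcomm : ∀ B : Matrix (Fin pb.dim) (Fin pb.dim) K,
        B * Algebra.leftMulMatrix pb.basis pb.gen = Algebra.leftMulMatrix pb.basis pb.gen * B →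
        ∀ y, Matrix.toLin pb.basis pb.basis B (pb.gen * y) =
          pb.gen * Matrix.toLin pb.basis pb.basis B y := by
      intro B hB y
      have h1 := congrArg (Matrix.toLin pb.basis pb.basis) hB
      rw [Matrix.toLin_mul pb.basis pb.basis pb.basis,
        Matrix.toLin_mul pb.basis pb.basis pb.basis] at h1
      have h2 := LinearMap.congr_fun h1 y
      rw [LinearMap.comp_apply, LinearMap.comp_apply] at h2
      have h3 : ∀ z, Matrix.toLin pb.basis pb.basis
          (Algebra.leftMulMatrix pb.basis pb.gen) z = pb.gen * z := by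
        intro z
        rw [Algebra.leftMulMatrix_apply, Matrix.toLin_toMatrix]
        rfl
      rw [h3, h3] at h2
      exact h2
    intro B hB B' hB' h
    have hB1 := (Finset.mem_filter.1 (Finset.mem_coe.1 hB)).2
    have hB1' := (Finset.mem_filter.1 (Finset.mem_coe.1 hB')).2
    apply (Matrix.toLin pb.basis pb.basis).injective
    ext y
    have h4 := comm_eq pb.gen hgen _ (hcomm B hB1) y
    have h5 := comm_eq pb.gen hgen _ (hcomm B' hB1') y
    rw [h4, h5]
    change y * _ = y * _
    change (Matrix.toLin pb.basis pb.basis B 1) = (Matrix.toLin pb.basis pb.basis B' 1) at h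
    rw [h]

end Centralizer

section Count

variable {K : Type*} [Field K] [Fintype K] [DecidableEq K] {r : ℕ}

/-- The number of matrices with a given characteristic polynomial. -/
lemma card_charpoly (f : K[X]) (hf : f.Monic) (hr : f.natDegree = r) :
    Fintype.card (Matrix (Fin r) (Fin r) K)ˣ ≤ Fintype.card K ^ r *
      (Finset.univ.filter (fun A : Matrix (Fin r) (Fin r) K => A.charpoly = f)).card := by
  classical
  obtain ⟨A₀, h1, h2⟩ := exists_cyclic f hf hr
  rw [← Finset.card_univ]
  refine Finset.card_le_mul_card_image_of_maps_to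
    (f := fun g : (Matrix (Fin r) (Fin r) K)ˣ => g.val * A₀ * g⁻¹.val) ?_ _ ?_
  · intro g _
    refine Finset.mem_filter.2 ⟨Finset.mem_univ _, ?_⟩
    rw [Matrix.coe_units_inv, Matrix.charpoly_units_conj, h1]
  · intro B _
    refine le_trans ?_ h2
    rcases (Finset.univ.filter
      (fun g : (Matrix (Fin r) (Fin r) K)ˣ => g.val * A₀ * g⁻¹.val = B)).eq_empty_or_nonempty
      with he | ⟨g₀, hg₀⟩
    · rw [he]
      simp
    have hg₀' := (Finset.mem_filter.1 hg₀).2
    refine Finset.card_le_card_of_injOn (fun g => g₀⁻¹.val * g.val) ?_ ?_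
    · intro g hg
      have hg' := (Finset.mem_filter.1 (Finset.mem_coe.1 hg)).2
      refine Finset.mem_coe.2 (Finset.mem_filter.2 ⟨Finset.mem_univ _, ?_⟩)
      have h3 : g.val * A₀ * g⁻¹.val = g₀.val * A₀ * g₀⁻¹.val := by rw [hg', hg₀']
      calc g₀⁻¹.val * g.val * A₀
          = g₀⁻¹.val * (g.val * A₀ * g⁻¹.val) * g.val := by
            simp only [mul_assoc, Units.inv_mul, mul_one]
        _ = g₀⁻¹.val * (g₀.val * A₀ * g₀⁻¹.val) * g.val := by rw [h3]
        _ = A₀ * (g₀⁻¹.val * g.val) := by
            simp only [← mul_assoc, Units.inv_mul, one_mul]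
    · intro g _ g' _ h
      have h4 : g₀⁻¹.val * g.val = g₀⁻¹.val * g'.val := h
      apply Units.ext
      calc g.val = g₀.val * (g₀⁻¹.val * g.val) := by rw [← mul_assoc, Units.mul_inv, one_mul]
        _ = g₀.val * (g₀⁻¹.val * g'.val) := by rw [h4]
        _ = g'.val := by rw [← mul_assoc, Units.mul_inv, one_mul]

/-- The number of matrices with a given determinant. -/
lemma card_det (hr : 0 < r) (d : K) (hd : d ≠ 0) :
    (Finset.univ.filter (fun A : Matrix (Fin r) (Fin r) K => A.det = d)).card *
      (Fintype.card K - 1) ≤ Fintype.card (Matrix (Fin r) (Fin r) K)ˣ := by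
  classical
  have hu : Fintype.card Kˣ = Fintype.card K - 1 := Fintype.card_units K
  rw [← hu, ← Finset.card_univ, ← Finset.card_univ, ← Finset.card_product]
  let i₀ : Fin r := ⟨0, hr⟩
  let D : Kˣ → Matrix (Fin r) (Fin r) K := fun u =>
    Matrix.diagonal (fun i => if i = i₀ then (u : K) else 1)
  have hD : ∀ u, (D u).det = u := by
    intro u
    simp only [D]
    rw [Matrix.det_diagonal, Finset.prod_ite_eq' Finset.univ i₀]
    simp
  have hunit : ∀ A : Matrix (Fin r) (Fin r) K, A.det ≠ 0 → IsUnit A := by
    intro A hA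
    rw [Matrix.isUnit_iff_isUnit_det]
    exact isUnit_iff_ne_zero.2 hA
  have hne : ∀ x ∈ (Finset.univ.filter (fun A : Matrix (Fin r) (Fin r) K => A.det = d)) ×ˢ
      (Finset.univ : Finset Kˣ), (D x.2 * x.1).det = (x.2 : K) * d := by
    rintro ⟨A, u⟩ hx
    have hA := (Finset.mem_filter.1 (Finset.mem_product.1 hx).1).2
    rw [Matrix.det_mul, hD, hA]
  refine Finset.card_le_card_of_injOn (fun x => if h : IsUnit (D x.2 * x.1) then h.unit else 1)
    (fun _ _ => Finset.mem_coe.2 (Finset.mem_univ _)) ?_
  rintro ⟨A, u⟩ hx ⟨A', u'⟩ hx' h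
  have h1 := hne _ (Finset.mem_coe.1 hx)
  have h2 := hne _ (Finset.mem_coe.1 hx')
  have h3 : IsUnit (D u * A) := hunit _ (by
    rw [h1]
    exact mul_ne_zero u.ne_zero hd)
  have h4 : IsUnit (D u' * A') := hunit _ (by
    rw [h2]
    exact mul_ne_zero u'.ne_zero hd)
  have h5 : D u * A = D u' * A' := by
    have h6 := h
    simp only [dif_pos h3, dif_pos h4] at h6
    exact congrArg Units.val h6
  have h6 : (u : K) = u' := by
    have h7 := congrArg Matrix.det h5
    rw [h1, h2] at h7
    exact mul_right_cancel₀ hd h7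
  have h8 : u = u' := Units.ext h6
  subst h8
  have h9 : (D u).det ≠ 0 := by
    rw [hD]
    exact u.ne_zero
  have h10 : IsUnit (D u) := hunit _ h9
  have h11 : A = A' := h10.mul_left_cancel h5
  rw [h11]

end Count

end Pool.Agent.K7.H1.UM
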