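import Pool.Agent.K7.H1.UM.NT5
import Pool.Agent.K7.H1.UM.Flip1
import Pool.Agent.K7.H1.UM.Flip2
import Pool.Agent.W12.MF.FIX

/-!
# The patterns imply that the relations are balanced, all indices
-/

set_option autoImplicit false
set_option linter.unusedSectionVars false

open Polynomial NumberField

namespace Pool.Agent.K7.H1.UM

open Pool.Agent.W458.MF Pool.Agent.W521.Frob Pool.Agent.W521.Criterion Pool.Agent.W338.MF
  Pool.Agent.W928.MF

/-- the relations are balanced at an index with flips (adapted from `bal2`) -/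
theorem bal_at {J : Type} {q : J → ℕ} {h : J → ℤ[X]} {R : ℤ[X]} (hq : ∀ i, q i ≠ 0)
    (hm : ∀ i, (h i).Monic)
    (L : Type) [Field L] [NumberField L] [IsGalois ℚ L] (j : L →+* ℂ)
    (hL : ∀ i, ∀ z : ℂ, aeval z (weil (q i) (h i)) = 0 → ∃ x : L, j x = z)
    (hLR : ∀ z : ℂ, aeval z R = 0 → ∃ x : L, j x = z) (i : J)
    (key : ∀ α : L, aeval α (weil (q i) (h i)) = 0 →
      (Flp q h R i α ∨ Flp2 q h R i α) ∧
      ∀ t : ℕ, 0 < t → (α ^ 2) ^ t ≠ (q i : L) ^ t) : BalancedAt q h R i := by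
  classical
  intro _ _ l hl t ht ν hν c hc hprod z
  by_cases hz0 : z = 0
  · rw [hz0, div_zero]
  have hqC : ((q i : ℕ) : ℂ) ≠ 0 := by exact_mod_cast hq i
  have hqL : ((q i : ℕ) : L) ≠ 0 := by exact_mod_cast hq i
  by_cases hz : aeval z (weil (q i) (h i)) = 0
  swap
  · have h1 : (i, z) ∉ l := by
      intro h1
      have h3 : aeval z (weil (q i) (h i)) = 0 := hl (i, z) h1
      exact hz h3
    have h2 : (i, (q i : ℂ) / z) ∉ l := by
      intro h2
      have h3 : aeval ((q i : ℂ) / z) (weil (q i) (h i)) = 0 := hl (i, (q i : ℂ) / z) h2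
      have h4 := root_conj (hq i) (hm i) h3
      rw [div_div_cancel₀ hqC] at h4
      exact hz h4
    exact (List.count_eq_zero.2 h1).trans (List.count_eq_zero.2 h2).symm
  obtain ⟨l', ν', rfl, hl', rfl, hν', hPe⟩ := rel_down L j hL hLR l hl t ν hν c hprod
  obtain ⟨α, rfl⟩ := hL i z hz
  have hα : aeval α (weil (q i) (h i)) = 0 := aeval_down j _ α hz
  have hα0 := root_ne_zero (hq i) (hm i) hα
  have hinj : Function.Injective (Prod.map id j : J × L → J × ℂ) :=
    Function.Injective.prodMap Function.injective_id j.injective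
  have hqj : (q i : ℂ) / j α = j (q i / α) := by rw [map_div₀, map_natCast]
  rw [hqj]
  let _ : BEq (J × L) := ⟨fun x y => decide (x = y)⟩
  have : LawfulBEq (J × L) :=
    { eq_of_beq := fun {a b} h => of_decide_eq_true h
      rfl := fun {a} => decide_eq_true rfl }
  refine count_transfer (Prod.map id j) hinj l' (i, α) (i, (q i : L) / α) ?_
  have hgen := fun σ hσ => prod_aut l' t ν' hν' c hc hPe σ hσ
  set r : L := (q i : L) / α / α with hr
  have hr0 : r ≠ 0 := div_ne_zero (div_ne_zero hqL hα0) hα0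
  obtain ⟨hor, hrou⟩ := key α hα
  have fin : ∀ T : ℕ, 0 < T → ∀ A d : ℕ, r ^ ((A + d + 1) * T) = r ^ (A * T) → False := by
    intro T hT A d hk
    have h1 : (A + d + 1) * T = A * T + (d + 1) * T := by ring
    rw [h1, pow_add] at hk
    have h2 : r ^ ((d + 1) * T) = 1 := by
      have h3 : r ^ (A * T) * r ^ ((d + 1) * T) = r ^ (A * T) * 1 := by rw [hk, mul_one]
      exact mul_left_cancel₀ (pow_ne_zero _ hr0) h3
    refine hrou ((d + 1) * T) (by positivity) ?_
    have h3 : r * α ^ 2 = q i := by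
      rw [hr]
      field_simp
    have h4 : (r * α ^ 2) ^ ((d + 1) * T) = (q i : L) ^ ((d + 1) * T) := by rw [h3]
    rwa [mul_pow, h2, one_mul] at h4
  obtain ⟨T, hT, hpow⟩ : ∃ T : ℕ, 0 < T ∧
      r ^ (l'.count (i, (q i : L) / α) * T) = r ^ (l'.count (i, α) * T) := by
    rcases hor with hf | hf
    · obtain ⟨σ, s1, s2, s3, s4, s5⟩ := hf
      refine ⟨t, ht, ?_⟩
      have hab : (i, α) ≠ (i, (q i : L) / α) := by
        intro h0
        exact s2 (Prod.ext_iff.1 h0).2
      have htwo := prod_two (fun x : J × L => σ x.2 / x.2) (i, α) (i, (q i : L) / α) hab r hr0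
        (by
          simp only [hr]
          rw [s1])
        (by
          simp only [hr]
          rw [map_div₀, map_natCast, s1, div_div_cancel₀ hqL, inv_div]) l' (by
          rintro ⟨i', x⟩ hx h1 h2
          have hx' := hl' _ hx
          have hx0 : x ≠ 0 := root_ne_zero (hq i') (hm i') hx'
          by_cases hi : i' = i
          · subst hi
            change σ x / x = 1
            rw [s3 x hx' (fun e => h1 (by rw [e])) (fun e => h2 (by rw [e])), div_self hx0]
          · change σ x / x = 1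
            rw [s4 i' hi x hx', div_self hx0])
      rw [pow_mul, pow_mul, ← htwo, mul_pow, hgen σ s5, one_mul]
    · obtain ⟨α', σ, τ, n0, n1, n2, n3, n4, s1, s2, s3, s4, s5, t1, t2⟩ := hf
      refine ⟨2 * t, by positivity, ?_⟩
      set s : L := (q i : L) / α' / α' with hs
      have hs0 : s ≠ 0 := div_ne_zero (div_ne_zero hqL n0) n0
      have n5 : α ≠ (q i : L) / α' := by
        intro e
        apply n2
        rw [e, div_div_cancel₀ hqL]
      have n6 : (q i : L) / α ≠ (q i : L) / α' := by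
        intro e
        apply n1
        have h1 : (q i : L) / ((q i : L) / α) = (q i : L) / ((q i : L) / α') := by rw [e]
        rw [div_div_cancel₀ hqL, div_div_cancel₀ hqL] at h1
        exact h1.symm
      have hpair : ∀ x y : L, x ≠ y → (i, x) ≠ (i, y) := by
        intro x y hxy h0
        exact hxy (Prod.ext_iff.1 h0).2
      have hfour := prod_four (fun x : J × L => σ x.2 / x.2) (i, α) (i, (q i : L) / α)
        (i, α') (i, (q i : L) / α') (hpair _ _ n3) (hpair _ _ n1.symm) (hpair _ _ n5)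
        (hpair _ _ n2.symm) (hpair _ _ n6) (hpair _ _ n4) r s hr0 hs0
        (by
          simp only [hr]
          rw [s1])
        (by
          simp only [hr]
          rw [map_div₀, map_natCast, s1, div_div_cancel₀ hqL, inv_div])
        (by
          simp only [hs]
          rw [s2])
        (by
          simp only [hs]
          rw [map_div₀, map_natCast, s2, div_div_cancel₀ hqL, inv_div]) l' (by
          rintro ⟨i', x⟩ hx h1 h2 h3 h4
          have hx' := hl' _ hx
          have hx0 : x ≠ 0 := root_ne_zero (hq i') (hm i') hx'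
          by_cases hi : i' = i
          · subst hi
            change σ x / x = 1
            rw [s3 x hx' (fun e => h1 (by rw [e])) (fun e => h2 (by rw [e]))
              (fun e => h3 (by rw [e])) (fun e => h4 (by rw [e])), div_self hx0]
          · change σ x / x = 1
            rw [s4 i' hi x hx', div_self hx0])
      set A := l'.count (i, α)
      set B := l'.count (i, (q i : L) / α)
      set A' := l'.count (i, α')
      set B' := l'.count (i, (q i : L) / α')
      have e1 : (r ^ B * s ^ B') ^ t = (r ^ A * s ^ A') ^ t := by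
        rw [← hfour, mul_pow _ (r ^ B * s ^ B'), hgen σ s5, one_mul]
      have hτr : τ r = r⁻¹ := by
        rw [hr, map_div₀, map_div₀, map_natCast, t1, div_div_cancel₀ hqL, inv_div]
      have hτs : τ s = s := by
        rw [hs, map_div₀, map_div₀, map_natCast, t2]
      have e2 : (r⁻¹ ^ B * s ^ B') ^ t = (r⁻¹ ^ A * s ^ A') ^ t := by
        have h1 := congrArg τ e1
        simp only [map_pow, map_mul, hτr, hτs] at h1
        exact h1
      have e3 : (r ^ A * s ^ B') ^ t = (r ^ B * s ^ A') ^ t := by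
        have h1 : r ^ A * s ^ B' = (r ^ A * r ^ B) * (r⁻¹ ^ B * s ^ B') := by
          rw [inv_pow]
          field_simp
        have h2 : r ^ B * s ^ A' = (r ^ A * r ^ B) * (r⁻¹ ^ A * s ^ A') := by
          rw [inv_pow]
          field_simp
        rw [h1, h2, mul_pow, mul_pow _ (r⁻¹ ^ A * s ^ A'), e2]
      have e4 : ((r ^ B) ^ t * (r ^ B) ^ t) * ((s ^ A') ^ t * (s ^ B') ^ t) =
          ((r ^ A) ^ t * (r ^ A) ^ t) * ((s ^ A') ^ t * (s ^ B') ^ t) := by
        rw [mul_pow, mul_pow] at e1 e3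
        calc ((r ^ B) ^ t * (r ^ B) ^ t) * ((s ^ A') ^ t * (s ^ B') ^ t)
            = ((r ^ B) ^ t * (s ^ B') ^ t) * ((r ^ B) ^ t * (s ^ A') ^ t) := by ring
          _ = ((r ^ A) ^ t * (s ^ A') ^ t) * ((r ^ A) ^ t * (s ^ B') ^ t) := by rw [e1, e3]
          _ = _ := by ring
      have e5 := mul_right_cancel₀ (mul_ne_zero (pow_ne_zero _ (pow_ne_zero _ hs0))
        (pow_ne_zero _ (pow_ne_zero _ hs0))) e4
      rw [← pow_mul, ← pow_mul, ← pow_add, ← pow_add] at e5
      have h1 : B * (2 * t) = B * t + B * t := by ring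
      have h2 : A * (2 * t) = A * t + A * t := by ring
      rw [h1, h2]
      exact e5
  by_contra hne
  rcases lt_or_gt_of_ne hne with hlt | hlt
  · obtain ⟨d, hd⟩ := Nat.exists_eq_add_of_lt hlt
    rw [hd] at hpow
    exact fin T hT _ d hpow
  · obtain ⟨d, hd⟩ := Nat.exists_eq_add_of_lt hlt
    rw [hd] at hpow
    exact fin T hT _ d hpow.symm

section Main

variable {I U : Type} [Fintype I] [Fintype U] {q : I ⊕ U → ℕ} {h : I ⊕ U → ℤ[X]} {R : ℤ[X]}
  {E : U → Type} [∀ u, Field (E u)] [∀ u, NumberField (E u)] {P : ∀ u, (𝓞 (E u))[X]}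
  {c : ∀ u, E u →+* E u} {f : U → ℤ[X]} {θ : ∀ u, 𝓞 (E u)} {D : U → ℕ}

/-- The patterns for the symplectic and the orthogonal indices. -/
structure PatsI (o : I → Prop) (q : I ⊕ U → ℕ) (h : I ⊕ U → ℤ[X]) (R : ℤ[X])
    (P : ∀ u, (𝓞 (E u))[X]) (c : ∀ u, E u →+* E u) (f : U → ℤ[X]) (D : U → ℕ) (N : ℕ) : Prop where
  irr : ∀ i : I, ∃ l : ℕ, l.Prime ∧
    (h (.inl i)).map (Int.castRingHom (ZMod l)) ∈ irrSet (h (.inl i)).natDegree l
  flip : ∀ i₀, ¬ o i₀ → ∃ l, Base q R f D l ∧
    (h (.inl i₀)).map (Int.castRingHom (ZMod l)) ∈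
      flipSet (h (.inl i₀)).natDegree N l (q (.inl i₀)) ∧
    (∀ i : I, i ≠ i₀ → (h (.inl i)).map (Int.castRingHom (ZMod l)) ∈
      splitSet (h (.inl i)).natDegree l (q (.inl i))) ∧ ∀ u, LinU (P u) (c u) l
  deg : ∀ i, o i → 3 ≤ (h (.inl i)).natDegree
  fix : ∀ i, o i → ∃ l : ℕ, l.Prime ∧
    (h (.inl i)).map (Int.castRingHom (ZMod l)) ∈ fixSet (h (.inl i)).natDegree l
  flip2 : ∀ i₀, o i₀ → ∃ l, Base q R f D l ∧
    (h (.inl i₀)).map (Int.castRingHom (ZMod l)) ∈
      flip2Set (h (.inl i₀)).natDegree N l (q (.inl i₀)) ∧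
    (∀ i : I, i ≠ i₀ → (h (.inl i)).map (Int.castRingHom (ZMod l)) ∈
      splitSet (h (.inl i)).natDegree l (q (.inl i))) ∧ ∀ u, LinU (P u) (c u) l

/-- **The patterns imply that the relations are balanced.** -/
theorem nt_mixed {o : I → Prop} (hq : ∀ i, q i ≠ 0) (hm : ∀ i, (h i).Monic) (hRm : R.Monic)
    (hd : ∀ i : I, 0 < (h (.inl i)).natDegree)
    (hH : ∀ u, UData (E u) (q (.inr u)) (h (.inr u)) (P u) (c u) (f u) (θ u) (D u)) {N d : ℕ}
    (hdd : ∀ i, 2 * (h i).natDegree ≤ d)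
    (huni : ∀ z : ℂ, (∃ t : ℕ, 0 < t ∧ z ^ t = 1) →
      (∃ P : ℚ[X], P ≠ 0 ∧ P.natDegree ≤ d * d ∧ aeval z P = 0) → z ^ N = 1)
    (hP : Pats q h R P c f D N) (hPI : PatsI o q h R P c f D N)
    (hN : NonDeg E (fun u => (-1) ^ (P u).natDegree * ((P u).coeff 0 : E u))
      {z : ℂ | aeval z R = 0}) :
    Balanced q h R ∧ ∀ i, ((weil (q i) (h i)).map (Int.castRingHom ℚ)).Separable := by
  classical
  have hPm : ((∏ i, weil (q i) (h i)) * R * ∏ u, f u).Monic :=
    ((monic_prod_of_monic _ _ fun i _ => weil_monic (q i) (hm i)).mul hRm).mul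
      (monic_prod_of_monic _ _ fun u _ => (hH u).prim.monic)
  obtain ⟨L, _, _, _, j, hj⟩ := exists_field' _ hPm
  have hL : ∀ i, ∀ z : ℂ, aeval z (weil (q i) (h i)) = 0 → ∃ x : L, j x = z := by
    intro i z hz
    apply hj
    rw [map_mul, map_mul, map_prod, Finset.prod_eq_zero (Finset.mem_univ i) hz, zero_mul, zero_mul]
  have hLR : ∀ z : ℂ, aeval z R = 0 → ∃ x : L, j x = z := by
    intro z hz
    apply hj
    rw [map_mul, map_mul, hz, mul_zero, zero_mul]
  have hLf : ∀ u, ∀ z : ℂ, aeval z (f u) = 0 → ∃ x : L, j x = z := by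
    intro u z hz
    apply hj
    rw [map_mul, map_prod (aeval z) f, Finset.prod_eq_zero (Finset.mem_univ u) hz, mul_zero]
  have hirr : ∀ i : I, Irreducible ((h (.inl i)).map (Int.castRingHom ℚ)) := by
    intro i
    obtain ⟨l, hl, h1, h2, h3⟩ := hPI.irr i
    have : Fact l.Prime := ⟨hl⟩
    have h4 : Irreducible (h (.inl i)) :=
      Monic.irreducible_of_irreducible_map (Int.castRingHom (ZMod l)) (h (.inl i)) (hm _) h3
    exact (IsPrimitive.Int.irreducible_iff_irreducible_map_cast (hm _).isPrimitive).1 h4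
  have hsp : ∀ i, ((h i).map (algebraMap ℤ L)).Splits := fun i =>
    splits_h (I := Unit) (hq i) (fun _ => hm i) L j (fun _ => hL i) ()
  have hqd : ∀ i, ∀ θ : L, aeval θ (h i) = 0 → ∃ α : L, α ^ 2 + (q i : L) = θ * α := fun i =>
    quad_L (I := Unit) (hq i) (fun _ => hm i) L j (fun _ => hL i) ()
  have huni' : ∀ i, ∀ z : ℂ, (∃ t : ℕ, 0 < t ∧ z ^ t = 1) →
      (∃ P : ℚ[X], P ≠ 0 ∧ P.natDegree ≤ 2 * (h i).natDegree ∧ aeval z P = 0) → z ^ N = 1 := by
    rintro i z ht ⟨P, hP0, hPd, hPz⟩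
    exact huni z ht ⟨P, hP0, (hPd.trans (hdd i)).trans (Nat.le_mul_self d), hPz⟩
  -- the automorphisms for the indices in `I`
  have key : ∀ i : I, ∀ α : L, aeval α (weil (q (.inl i)) (h (.inl i))) = 0 →
      (Flp q h R (.inl i) α ∨ Flp2 q h R (.inl i) α) ∧
      ∀ t : ℕ, 0 < t → (α ^ 2) ^ t ≠ (q (.inl i) : L) ^ t := by
    intro i α hα
    by_cases ho : o i
    · obtain ⟨l', hl', hfix⟩ := hPI.fix i ho
      obtain ⟨l, hB, hfl, hspl, hlin⟩ := hPI.flip2 i ho
      have : Fact l.Prime := ⟨hB.prime⟩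
      obtain ⟨T, t₀, t₁, hTc, ht₀, ht₁, hne01, hT, hns0, hns1, hlu, hsq⟩ := hfl
      obtain ⟨k, _, _, ρ, σ, θ₀, θ₁, hσ, a1, a2, a3, a4, a5, a6, a7, a8⟩ :=
        flip2 (fun i => q (.inl i)) (fun i => h (.inl i)) R (luc (q (.inl i)) N)
        (fun i => hm _) hRm L i (hsp _) (hqd _) l hB.prime hB.ne_two (fun i => hB.ndvd _)
        hB.splits hspl ⟨T, t₀, t₁, ht₀, ht₁, hne01, hT, hns0, hns1, hlu, hsq⟩
      have hE : Edg q h R (.inl i) θ₀ θ₁ := by
        refine ⟨σ, a5, a6, ?_, a8⟩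
        intro i' hi' β hβ
        rcases i' with i' | u'
        · exact a7 i' (fun e => hi' (by rw [e])) β hβ
        · exact fixed_of_linU j (hH u') (hq _) (hB.idx u') (hB.gen u') (hL _) (hLf u') hσ
            (hlin u') β hβ
      obtain ⟨ϱ, ϑ, b1, b2, b3⟩ := Pool.Agent.W12.MF.fix (h (.inl i)) (hm _) (hPI.deg i ho) L
        (hsp _) l' hl' hfix
      have hqL : (q (.inl i) : L) ≠ 0 := by exact_mod_cast hq _
      refine ⟨Or.inr ?_, ?_⟩
      · have hθ := ((Pool.Agent.W521.Frob.root_iff (hq _) (hm _) α).1 hα).2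
        obtain ⟨θ', θ'', c1, c2, c3, c4, c5⟩ := two_partners hm L (.inl i) (hirr i) θ₀ θ₁ a1 a2 a3
          hE ϱ ϑ b1 b2 b3 (α + (q (.inl i) : L) / α) hθ
        exact flp2_of_edg hq hm L (.inl i) (hqd _) α hα θ' θ'' c1 c2 c3 c4 c5
      · intro t ht hαt
        obtain ⟨α₀, hα₀⟩ := hqd (.inl i) θ₀ a1
        have hα₀0 : α₀ ≠ 0 := by
          rintro rfl
          rw [zero_pow two_ne_zero, zero_add, mul_zero] at hα₀
          exact hqL hα₀
        have hα₀w : aeval α₀ (weil (q (.inl i)) (h (.inl i))) = 0 := by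
          rw [aeval_weil (q (.inl i)) (h (.inl i)) α₀ θ₀ hα₀, a1, mul_zero]
        have hθe : α₀ + (q (.inl i) : L) / α₀ = θ₀ := by
          apply mul_right_cancel₀ hα₀0
          rw [← hα₀]
          field_simp
        have hne := (a5 α₀ hα₀w (Or.inl hθe)).2
        refine no_rou hq hm L j hL (.inl i) (hirr i) (huni' _) α₀ hα₀w hne ?_ α hα t ht hαt
        rw [hθe]
        exact a4
    · obtain ⟨l, hB, hfl, hspl, hlin⟩ := hPI.flip i ho
      have : Fact l.Prime := ⟨hB.prime⟩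
      obtain ⟨T, t₀, hTc, ht₀, hT, hns, hlu, hsq⟩ := hfl
      obtain ⟨k, _, _, ρ, σ, α₀, hσ, a1, a2, a3, a4, a5, a6, a7⟩ :=
        flip1 (fun i => q (.inl i)) (fun i => h (.inl i)) R (luc (q (.inl i)) N)
        (fun i => hm _) hRm L i (hsp _) (hqd _) l hB.prime hB.ne_two (fun i => hB.ndvd _)
        hB.splits hspl ⟨T, t₀, ht₀, hT, hns, hlu, hsq⟩
      have hfl0 : Flp q h R (.inl i) α₀ := by
        refine ⟨σ, a2, a3, a5, ?_, a7⟩
        intro i' hi' β hβ
        rcases i' with i' | u'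
        · exact a6 i' (fun e => hi' (by rw [e])) β hβ
        · exact fixed_of_linU j (hH u') (hq _) (hB.idx u') (hB.gen u') (hL _) (hLf u') hσ
            (hlin u') β hβ
      exact ⟨Or.inl (flp_conj hq hm L j hL (.inl i) (hirr i) α₀ a1 hfl0 α hα), fun t ht hαt =>
        no_rou hq hm L j hL (.inl i) (hirr i) (huni' _) α₀ a1 a3 a4 α hα t ht hαt⟩
  have hbI : ∀ i : I, BalancedAt q h R (.inl i) := fun i =>
    bal_at hq hm L j hL hLR (.inl i) (key i)
  refine ⟨balanced_of_at ?_, ?_⟩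
  · rintro (i | u)
    · exact hbI i
    · refine bal_unitary hq hm hRm L j hL hLR hLf hH hP hN ?_ hbI u
      rintro u z ht ⟨P, hP0, hPd, hPz⟩
      exact huni z ht ⟨P, hP0, hPd.trans (Nat.mul_le_mul (hdd _) (hdd _)), hPz⟩
  · rintro (i | u)
    · refine sep (hq _) (hm _) (hirr i) L (hsp _) (hqd _) fun α hα => ?_
      obtain ⟨hor, -⟩ := key i α hα
      rcases hor with ⟨σ, s1, s2, -⟩ | ⟨α', σ, τ, n0, n1, n2, n3, -⟩
      · exact s2
      · exact n3
    · exact sep_unitary hq hm hRm L j hL hLf hH hP hN u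

end Main

end Pool.Agent.K7.H1.UM
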