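import Pool.Agent.K7.H1.UM.Rel
import Pool.Agent.K7.H1.UM.PDefs

/-!
# The action of a Frobenius element on a block of roots
-/

set_option autoImplicit false

open Polynomial NumberField

namespace Pool.Agent.K7.H1.UM

open Pool.Agent.W458.MF Pool.Agent.W521.Frob Pool.Agent.W521.Criterion

section Sep

variable {l : ℕ} [Fact l.Prime]

lemma sep_prod (T : Finset (ZMod l)) : (∏ t ∈ T, (X - C t) : (ZMod l)[X]).Separable :=
  separable_prod_X_sub_C_iff'.2 fun _ _ _ _ h => h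

lemma sep_lin {r : ℕ} {g : (ZMod l)[X]} (hg : g ∈ linSet r l) : g.Separable := by
  obtain ⟨T, -, rfl⟩ := hg
  exact sep_prod T

lemma quad_no_root {u v : ZMod l} (hns : ¬ IsSquare (u ^ 2 - 4 * v)) (s : ZMod l) :
    (X ^ 2 - C u * X + C v : (ZMod l)[X]).eval s ≠ 0 := by
  intro h
  apply hns
  refine ⟨2 * s - u, ?_⟩
  simp only [eval_add, eval_sub, eval_pow, eval_X, eval_mul, eval_C] at h
  linear_combination (-4 : ZMod l) * h

lemma quad_irr {u v : ZMod l} (hns : ¬ IsSquare (u ^ 2 - 4 * v)) :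
    Irreducible (X ^ 2 - C u * X + C v : (ZMod l)[X]) := by
  have hd : (X ^ 2 - C u * X + C v : (ZMod l)[X]).natDegree = 2 := by compute_degree!
  have hm : (X ^ 2 - C u * X + C v : (ZMod l)[X]).Monic := by monicity!
  rw [hm.irreducible_iff_roots_eq_zero_of_degree_le_three (by omega) (by omega)]
  rw [Multiset.eq_zero_iff_forall_notMem]
  intro s hs
  exact quad_no_root hns s ((mem_roots hm.ne_zero).1 hs)

lemma sep_mul_prod {w : (ZMod l)[X]} (hw : Irreducible w) (hroot : ∀ s, w.eval s ≠ 0)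
    (T : Finset (ZMod l)) : (w * ∏ t ∈ T, (X - C t)).Separable := by
  refine Separable.mul (PerfectField.separable_of_irreducible hw) (sep_prod T) ?_
  refine IsCoprime.prod_right fun t _ => ?_
  rw [isCoprime_comm, (irreducible_X_sub_C t).coprime_iff_not_dvd]
  intro hd
  exact hroot t (dvd_iff_isRoot.mp hd)

lemma sep_swap {r N : ℕ} {g : (ZMod l)[X]} (hg : g ∈ swapSet r N l) : g.Separable := by
  obtain ⟨T, u, v, -, h1, -, rfl⟩ := hg
  exact sep_mul_prod (quad_irr h1) (quad_no_root h1) T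

lemma sep_fix {r : ℕ} (hr : 3 ≤ r) {g : (ZMod l)[X]} (hg : g ∈ fixSet r l) : g.Separable := by
  obtain ⟨t, w, hm, hd, hw, rfl⟩ := hg
  have h1 := sep_mul_prod hw (fun s hs => by
    have h2 : w.natDegree = 1 :=
      natDegree_eq_of_degree_eq_some (degree_eq_one_of_irreducible_of_root hw hs)
    omega) {t}
  rw [Finset.prod_singleton, mul_comm] at h1
  exact h1

end Sep

/-- Existence of a Frobenius element, in terms of a homomorphism to a finite field. -/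
theorem exists_frob' (L : Type) [Field L] [NumberField L] [IsGalois ℚ L] (l : ℕ)
    (hl : l.Prime) :
    ∃ (k : Type) (_ : Field k) (_ : Finite k) (_ : CharP k l) (φ : 𝓞 L →+* k) (σ : L ≃ₐ[ℚ] L),
      ∀ x : 𝓞 L, φ (σ • x) = φ x ^ l := by
  obtain ⟨Q, hQ, hchar, σ, hσ⟩ := exists_frob_aux L l hl
  have hQ0 : Q ≠ ⊥ := by
    rintro rfl
    have h1 : ((l : ℕ) : 𝓞 L ⧸ (⊥ : Ideal (𝓞 L))) = 0 := CharP.cast_eq_zero _ l
    rw [← map_natCast (Ideal.Quotient.mk (⊥ : Ideal (𝓞 L))), Ideal.Quotient.eq_zero_iff_mem,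
      Ideal.mem_bot] at h1
    exact hl.ne_zero (by exact_mod_cast h1)
  have : Finite (𝓞 L ⧸ Q) := Ring.HasFiniteQuotients.finiteQuotient hQ0
  exact ⟨𝓞 L ⧸ Q, Ideal.Quotient.field Q, this, hchar, Ideal.Quotient.mk Q, σ, hσ⟩

section Block

variable {E : Type} [Field E] [NumberField E] {PO : (𝓞 E)[X]}
  {L : Type} [Field L] [NumberField L] {φ : E →+* L}

lemma map_map' (φ : E →+* L) : (PO.map (algebraMap (𝓞 E) E)).map φ =
    (PO.map (RingOfIntegers.mapRingHom φ)).map (algebraMap (𝓞 L) L) := by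
  rw [Polynomial.map_map, Polynomial.map_map]
  rfl

lemma exists_mult (hm : PO.Monic) (hs : ((PO.map (algebraMap (𝓞 E) E)).map φ).Splits) :
    ∃ m : Multiset (𝓞 L), PO.map (RingOfIntegers.mapRingHom φ) =
      (m.map (fun a => X - C a)).prod ∧
      ∀ x : L, ((PO.map (algebraMap (𝓞 E) E)).map φ).IsRoot x ↔ ∃ a ∈ m, (a : L) = x := by
  have hlift : ∀ R : Multiset L, (∀ x ∈ R, IsIntegral ℤ x) →
      ∃ R' : Multiset (𝓞 L), R'.map (algebraMap (𝓞 L) L) = R := by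
    intro R
    induction R using Multiset.induction_on with
    | empty => exact fun _ => ⟨0, rfl⟩
    | cons a s ih =>
      intro hR
      obtain ⟨R', hR'⟩ := ih fun x hx => hR x (Multiset.mem_cons_of_mem hx)
      obtain ⟨a', ha'⟩ : ∃ a' : 𝓞 L, algebraMap (𝓞 L) L a' = a :=
        ⟨⟨a, hR a (Multiset.mem_cons_self a s)⟩, rfl⟩
      refine ⟨a' ::ₘ R', ?_⟩
      rw [Multiset.map_cons, hR', ha']
  have hmL : ((PO.map (algebraMap (𝓞 E) E)).map φ).Monic := (hm.map _).map _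
  obtain ⟨m, hm'⟩ := hlift ((PO.map (algebraMap (𝓞 E) E)).map φ).roots (by
    intro x hx
    have h1 := (mem_roots'.1 hx).2
    have h2 : IsIntegral (𝓞 L) x := by
      refine ⟨PO.map (RingOfIntegers.mapRingHom φ), hm.map _, ?_⟩
      rw [map_map', IsRoot.def, eval_map] at h1
      exact h1
    exact isIntegral_trans x h2)
  refine ⟨m, ?_, ?_⟩
  · apply Polynomial.map_injective (algebraMap (𝓞 L) L) RingOfIntegers.coe_injective
    rw [← map_map', map_prod_sub, hm']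
    exact hs.eq_prod_roots_of_monic hmL
  · intro x
    rw [← mem_roots hmL.ne_zero, ← hm', Multiset.mem_map]

variable {k : Type} [Field k] {l : ℕ} [Fact l.Prime] [CharP k l] {ρ : 𝓞 L →+* k}
  {σ : L ≃ₐ[ℚ] L} {ψ : 𝓞 E →+* ZMod l}

lemma exists_fb (hm : PO.Monic) (hs : ((PO.map (algebraMap (𝓞 E) E)).map φ).Splits)
    (hσ : ∀ x : 𝓞 L, ρ (σ • x) = ρ x ^ l) (hσφ : ∀ x, σ (φ x) = φ x)
    (hψ : ∀ x : 𝓞 E, ρ (RingOfIntegers.mapRingHom φ x) = ZMod.castHom (dvd_refl l) k (ψ x))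
    (hsep : (PO.map ψ).Separable) : ∃ m : Multiset (𝓞 L),
      FB ρ (MulSemiringAction.toRingHom (L ≃ₐ[ℚ] L) (𝓞 L) σ) m (PO.map ψ) ∧
      ∀ x : L, ((PO.map (algebraMap (𝓞 E) E)).map φ).IsRoot x ↔ ∃ a ∈ m, (a : L) = x := by
  obtain ⟨m, h1, h2⟩ := exists_mult (φ := φ) hm hs
  refine ⟨m, ⟨fun x => hσ x, ?_, ?_, hsep⟩, h2⟩
  · rw [← h1, Polynomial.map_map]
    congr 1
    ext x
    exact hσφ x
  · rw [← h1, Polynomial.map_map, Polynomial.map_map]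
    congr 1
    ext x
    exact hψ x

/-- The split pattern. -/
lemma blk_lin (hm : PO.Monic) (hs : ((PO.map (algebraMap (𝓞 E) E)).map φ).Splits)
    (hσ : ∀ x : 𝓞 L, ρ (σ • x) = ρ x ^ l) (hσφ : ∀ x, σ (φ x) = φ x)
    (hψ : ∀ x : 𝓞 E, ρ (RingOfIntegers.mapRingHom φ x) = ZMod.castHom (dvd_refl l) k (ψ x))
    {r : ℕ} (hlin : PO.map ψ ∈ linSet r l) (β : L)
    (hβ : ((PO.map (algebraMap (𝓞 E) E)).map φ).IsRoot β) : σ β = β := by
  obtain ⟨m, H, h2⟩ := exists_fb hm hs hσ hσφ hψ (sep_lin hlin)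
  obtain ⟨b, hb, rfl⟩ := (h2 β).1 hβ
  obtain ⟨T, -, hT⟩ := hlin
  have h3 := H.lin hT hb
  exact congrArg (fun x : 𝓞 L => (x : L)) h3

/-- The swap pattern. -/
lemma blk_swap (hm : PO.Monic) (hs : ((PO.map (algebraMap (𝓞 E) E)).map φ).Splits)
    (hσ : ∀ x : 𝓞 L, ρ (σ • x) = ρ x ^ l) (hσφ : ∀ x, σ (φ x) = φ x)
    (hψ : ∀ x : 𝓞 E, ρ (RingOfIntegers.mapRingHom φ x) = ZMod.castHom (dvd_refl l) k (ψ x))
    {r N : ℕ} (hsw : PO.map ψ ∈ swapSet r N l) :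
    ∃ α α' : L, ((PO.map (algebraMap (𝓞 E) E)).map φ).IsRoot α ∧
      ((PO.map (algebraMap (𝓞 E) E)).map φ).IsRoot α' ∧ α ≠ α' ∧ σ α = α' ∧ σ α' = α ∧
      α ^ N ≠ α' ^ N ∧ ∀ β : L, ((PO.map (algebraMap (𝓞 E) E)).map φ).IsRoot β → β ≠ α →
        β ≠ α' → σ β = β := by
  obtain ⟨m, H, h2⟩ := exists_fb hm hs hσ hσφ hψ (sep_swap hsw)
  obtain ⟨T, u, v, -, hns, hluc, hg⟩ := hsw
  obtain ⟨a, ha, a', ha', hne, h3, h4, h5, h6⟩ := H.swap hns hluc hg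
  refine ⟨(a : L), (a' : L), (h2 _).2 ⟨a, ha, rfl⟩, (h2 _).2 ⟨a', ha', rfl⟩, ?_, ?_, ?_, ?_, ?_⟩
  · intro h
    exact hne (RingOfIntegers.coe_injective h)
  · exact congrArg (fun x : 𝓞 L => (x : L)) h3
  · exact congrArg (fun x : 𝓞 L => (x : L)) h4
  · intro h
    apply h5
    apply RingOfIntegers.coe_injective
    rw [map_pow, map_pow]
    exact h
  · intro β hβ n1 n2
    obtain ⟨b, hb, rfl⟩ := (h2 β).1 hβ
    have h7 := h6 b hb (fun e => n1 (by rw [e])) (fun e => n2 (by rw [e]))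
    exact congrArg (fun x : 𝓞 L => (x : L)) h7

/-- The fix pattern. -/
lemma blk_fix [Finite k] (hm : PO.Monic) (hs : ((PO.map (algebraMap (𝓞 E) E)).map φ).Splits)
    (hσ : ∀ x : 𝓞 L, ρ (σ • x) = ρ x ^ l) (hσφ : ∀ x, σ (φ x) = φ x)
    (hψ : ∀ x : 𝓞 E, ρ (RingOfIntegers.mapRingHom φ x) = ZMod.castHom (dvd_refl l) k (ψ x))
    {r : ℕ} (hr : 3 ≤ r) (hfx : PO.map ψ ∈ fixSet r l) :
    Fxp (PO.map (algebraMap (𝓞 E) E)) φ := by
  obtain ⟨m, H, h2⟩ := exists_fb hm hs hσ hσφ hψ (sep_fix hr hfx)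
  obtain ⟨t, w, -, -, hw, hg⟩ := hfx
  obtain ⟨a, ha, h3, h4⟩ := H.fix hw hg
  refine ⟨σ, (a : L), hσφ, (h2 _).2 ⟨a, ha, rfl⟩, congrArg (fun x : 𝓞 L => (x : L)) h3, ?_⟩
  have hit : ∀ (n : ℕ) (x : 𝓞 L),
      (((MulSemiringAction.toRingHom (L ≃ₐ[ℚ] L) (𝓞 L) σ : 𝓞 L →+* 𝓞 L) : 𝓞 L → 𝓞 L)^[n] x :
        L) = (σ : L → L)^[n] (x : L) := by
    intro n
    induction n with
    | zero => intro x; rfl
    | succ n ih =>
      intro x
      rw [Function.iterate_succ_apply, Function.iterate_succ_apply, ih]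
      rfl
  intro β hβ n1 β' hβ' n2
  obtain ⟨b, hb, rfl⟩ := (h2 β).1 hβ
  obtain ⟨b', hb', rfl⟩ := (h2 β').1 hβ'
  obtain ⟨n, hn⟩ := h4 b hb (fun e => n1 (by rw [e])) b' hb' (fun e => n2 (by rw [e]))
  refine ⟨n, ?_⟩
  rw [← hit, hn]

end Block

end Pool.Agent.K7.H1.UM
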