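import Pool.Agent.K7.H1.UM.NT1

/-!
# The blocks of roots of the polynomials for unitary indices
-/

set_option autoImplicit false
set_option linter.unusedSectionVars false

open Polynomial NumberField

namespace Pool.Agent.K7.H1.UM

open Pool.Agent.W458.MF Pool.Agent.W521.Frob Pool.Agent.W521.Criterion Pool.Agent.W338.MF

section Half

variable {E : Type} [Field E] [NumberField E] {q : ℕ} {h : ℤ[X]} {P : (𝓞 E)[X]}
  {c : E →+* E} {L : Type} [Field L] [NumberField L] {j : L →+* ℂ}

lemma HalfPol.prod (H : HalfPol E q h P) : (weil q h).map (Int.castRingHom ℂ) =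
    ∏ φ : E →+* ℂ, P.map (φ.comp (algebraMap (𝓞 E) E)) := H.conjugates

lemma HalfPol.map_map (φ : E →+* ℂ) : P.map (φ.comp (algebraMap (𝓞 E) E)) =
    (P.map (algebraMap (𝓞 E) E)).map φ := (Polynomial.map_map _ _ _).symm

lemma isRoot_j (Q : E[X]) (φ : E →+* L) (z : L) :
    (Q.map (j.comp φ)).IsRoot (j z) ↔ (Q.map φ).IsRoot z := by
  rw [← Polynomial.map_map, IsRoot.def, IsRoot.def, eval_map, eval₂_at_apply]
  exact map_eq_zero j

lemma HalfPol.root_iff (H : HalfPol E q h P)
    (hemb : ∀ φ' : E →+* ℂ, ∃ φ : E →+* L, j.comp φ = φ') (z : L) :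
    aeval z (weil q h) = 0 ↔ ∃ φ : E →+* L, ((P.map (algebraMap (𝓞 E) E)).map φ).IsRoot z := by
  have h1 : aeval z (weil q h) = 0 ↔ ((weil q h).map (Int.castRingHom ℂ)).eval (j z) = 0 := by
    rw [eval_map]
    constructor
    · intro h2
      exact aeval_up j _ _ h2
    · intro h2
      exact aeval_down j _ _ h2
  rw [h1, H.prod, eval_prod, Finset.prod_eq_zero_iff]
  constructor
  · rintro ⟨φ', -, h2⟩
    obtain ⟨φ, rfl⟩ := hemb φ'
    refine ⟨φ, (isRoot_j (j := j) _ φ z).1 ?_⟩
    rw [← HalfPol.map_map]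
    exact h2
  · rintro ⟨φ, h2⟩
    refine ⟨j.comp φ, Finset.mem_univ _, ?_⟩
    have h3 := (isRoot_j (j := j) _ φ z).2 h2
    rw [← HalfPol.map_map] at h3
    exact h3

lemma HalfPol.splits (H : HalfPol E q h P)
    (hL : ∀ z : ℂ, aeval z (weil q h) = 0 → ∃ x : L, j x = z) (φ : E →+* L) :
    ((P.map (algebraMap (𝓞 E) E)).map φ).Splits := by
  refine Splits.of_splits_map j (IsAlgClosed.splits _) ?_
  intro z hz
  obtain ⟨x, hx⟩ := hL z (by
    have h1 : ((P.map (algebraMap (𝓞 E) E)).map (j.comp φ)).IsRoot z := by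
      rw [← Polynomial.map_map]
      exact (mem_roots'.1 hz).2
    have h2 : ((weil q h).map (Int.castRingHom ℂ)).eval z = 0 := by
      rw [H.prod, eval_prod]
      refine Finset.prod_eq_zero (Finset.mem_univ (j.comp φ)) ?_
      rw [HalfPol.map_map]
      exact h1
    rw [eval_map] at h2
    exact h2)
  exact ⟨x, hx⟩

lemma HalfPol.dual (j : L →+* ℂ) (H : HalfPol E q h P) (hq : q ≠ 0)
    (hc : ∀ φ : E →+* ℂ, φ.comp c = ComplexEmbedding.conjugate φ) (φ : E →+* L) (z : L)
    (hz : ((P.map (algebraMap (𝓞 E) E)).map φ).IsRoot z) :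
    ((P.map (algebraMap (𝓞 E) E)).map (φ.comp c)).IsRoot (q / z) := by
  have h1 := (isRoot_j (j := j) _ φ z).2 hz
  have h2 := H.abs (j.comp φ) (j z) (by rw [HalfPol.map_map]; exact h1)
  have hqC : (q : ℂ) ≠ 0 := by exact_mod_cast hq
  have hz0 : j z ≠ 0 := by
    intro h0
    rw [h0, zero_mul] at h2
    exact hqC h2.symm
  rw [← isRoot_j (j := j), map_div₀, map_natCast]
  have h3 : (q : ℂ) / j z = (starRingEnd ℂ) (j z) := by
    rw [← h2]
    field_simp
  have h4 : j.comp (φ.comp c) = (starRingEnd ℂ).comp (j.comp φ) := by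
    rw [← RingHom.comp_assoc, hc]
    rfl
  rw [h3, h4, ← Polynomial.map_map, IsRoot.def, eval_map, eval₂_at_apply]
  have h5 : eval (j z) ((P.map (algebraMap (𝓞 E) E)).map (j.comp φ)) = 0 := h1
  rw [h5, map_zero]

lemma HalfPol.coeff_ne (H : HalfPol E q h P) (hq : q ≠ 0) : P.coeff 0 ≠ 0 := by
  intro h0
  obtain ⟨φ⟩ : Nonempty (E →+* ℂ) := inferInstance
  have h1 := H.abs φ 0 (by
    rw [IsRoot.def, ← coeff_zero_eq_eval_zero, coeff_map, h0, map_zero])
  rw [zero_mul] at h1
  exact hq (by exact_mod_cast h1.symm)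

/-- `P` is irreducible if it is irreducible modulo a prime. -/
lemma irr_of_mod {l : ℕ} [Fact l.Prime] (hP : P.Monic) (ψ : 𝓞 E →+* ZMod l)
    (hi : Irreducible (P.map ψ)) : Irreducible (P.map (algebraMap (𝓞 E) E)) := by
  have h1 := Monic.irreducible_of_irreducible_map ψ P hP hi
  exact (Monic.irreducible_iff_irreducible_map_fraction_map (K := E) hP).1 h1

lemma irr_of_deg (hP : P.Monic) (hd : P.natDegree = 1) :
    Irreducible (P.map (algebraMap (𝓞 E) E)) := by
  refine irreducible_of_degree_eq_one ?_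
  rw [degree_eq_natDegree ((hP.map _).ne_zero), hP.natDegree_map, hd]
  rfl

lemma nodup_of_irr (hi : Irreducible (P.map (algebraMap (𝓞 E) E))) (φ : E →+* L) :
    ((P.map (algebraMap (𝓞 E) E)).map φ).roots.Nodup :=
  nodup_roots (hi.separable.map)

/-- Complex conjugate blocks are disjoint. -/
lemma disj_conj [IsGalois ℚ L] (hP : P.Monic) (hi : Irreducible (P.map (algebraMap (𝓞 E) E)))
    (hcc : ∀ x, c (c x) = x) (hne : (P.map (algebraMap (𝓞 E) E)).map c ≠
      P.map (algebraMap (𝓞 E) E)) (φ : E →+* L) (z : L)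
    (hz : ((P.map (algebraMap (𝓞 E) E)).map φ).IsRoot z)
    (hz' : ((P.map (algebraMap (𝓞 E) E)).map (φ.comp c)).IsRoot z) : False := by
  let _ : Algebra E L := φ.toAlgebra
  set Q := P.map (algebraMap (𝓞 E) E) with hQ
  have hQm : Q.Monic := hP.map _
  let c' : E ≃+* E := RingEquiv.ofRingHom c c (RingHom.ext hcc) (RingHom.ext hcc)
  have hirr' : Irreducible (Q.map c) := by
    have h1 := (MulEquiv.irreducible_iff (Polynomial.mapEquiv c') (x := Q)).2 hi
    exact h1
  have h1 : minpoly E z = Q := by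
    refine (minpoly.eq_of_irreducible_of_monic hi ?_ hQm).symm
    rw [IsRoot.def, eval_map] at hz
    exact hz
  have h2 : minpoly E z = Q.map c := by
    refine (minpoly.eq_of_irreducible_of_monic hirr' ?_ (hQm.map c)).symm
    rw [← Polynomial.map_map, IsRoot.def, eval_map] at hz'
    exact hz'
  exact hne (h2.symm.trans h1)

end Half

section Emb

variable {E : Type} [Field E] [NumberField E] {f : ℤ[X]} {θ : 𝓞 E} {D : ℕ}
  {L : Type} [Field L] [NumberField L] {j : L →+* ℂ}

lemma Prim.root_emb (H : Prim E f θ D) {K : Type*} [Field K] [CharZero K] (φ : E →+* K) :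
    aeval (φ (θ : E)) f = 0 := by
  have h3 := Polynomial.hom_eval₂ f (algebraMap ℤ (𝓞 E)) (φ.comp (algebraMap (𝓞 E) E)) θ
  rw [RingHom.ext_int ((φ.comp (algebraMap (𝓞 E) E)).comp (algebraMap ℤ (𝓞 E)))
    (algebraMap ℤ K)] at h3
  have h4 : eval₂ (algebraMap ℤ (𝓞 E)) θ f = 0 := H.root
  rw [h4, map_zero] at h3
  exact h3.symm

lemma Prim.emb (H : Prim E f θ D) (hL : ∀ z : ℂ, aeval z f = 0 → ∃ x : L, j x = z)
    (φ' : E →+* ℂ) : ∃ φ : E →+* L, j.comp φ = φ' := by
  obtain ⟨x, hx⟩ := hL _ (H.root_emb φ')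
  obtain ⟨φ, hφ⟩ := H.lift L x (aeval_down j _ _ (by rw [hx]; exact H.root_emb φ'))
  refine ⟨φ, H.ext _ _ ?_⟩
  rw [RingHom.comp_apply, hφ, hx]

lemma Prim.splits (H : Prim E f θ D) (hL : ∀ z : ℂ, aeval z f = 0 → ∃ x : L, j x = z) :
    (f.map (algebraMap ℤ L)).Splits := by
  refine Splits.of_splits_map j (IsAlgClosed.splits _) ?_
  intro z hz
  have h1 := (mem_roots'.1 hz).2
  rw [Polynomial.map_map, IsRoot.def, eval_map,
    RingHom.ext_int (j.comp (algebraMap ℤ L)) (algebraMap ℤ ℂ)] at h1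
  exact hL z h1

/-- Different embeddings have different reductions. -/
lemma Prim.inj_mod (H : Prim E f θ D) {k : Type} [Field k] {l : ℕ} [Fact l.Prime] [CharP k l]
    (hf : SplitsMod f l) {ρ : 𝓞 L →+* k} {ψ : 𝓞 E →+* ZMod l} {φ φ' : E →+* L}
    (hψ : ∀ x : 𝓞 E, ρ (RingOfIntegers.mapRingHom φ x) = ZMod.castHom (dvd_refl l) k (ψ x))
    (hψ' : ∀ x : 𝓞 E, ρ (RingOfIntegers.mapRingHom φ' x) = ZMod.castHom (dvd_refl l) k (ψ x)) :
    φ = φ' := by
  refine H.ext _ _ ?_
  have hroot : ∀ φ : E →+* L, aeval (RingOfIntegers.mapRingHom φ θ) f = 0 := by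
    intro φ
    apply RingOfIntegers.coe_injective
    have h5 := aeval_algebraMap_apply L (RingOfIntegers.mapRingHom φ θ) f
    exact h5.symm.trans ((H.root_emb φ).trans (map_zero _).symm)
  have h1 := eq_of_map_eq ρ f (Prim.sep_mod hf) _ _ (hroot φ) (hroot φ') ((hψ θ).trans (hψ' θ).symm)
  exact congrArg (fun x : 𝓞 L => (x : L)) h1

end Emb

section NonDegen

variable {U : Type} [Fintype U] {E : U → Type} [∀ u, Field (E u)] [∀ u, NumberField (E u)]
  {δ : ∀ u, E u} {N : Set ℂ}

/-- The conjugates of the determinants are different. -/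
lemma NonDeg.inj (hN : NonDeg E δ N) (u : U) (hδ : δ u ≠ 0)
    (hc : ∀ φ : E u →+* ℂ, ComplexEmbedding.conjugate φ ≠ φ) {φ φ' : E u →+* ℂ}
    (h : φ (δ u) = φ' (δ u)) : φ = φ' := by
  classical
  by_contra hne
  set k₀ : (E u →+* ℂ) → ℤ := fun χ =>
    (if χ = φ then 1 else 0) + (if χ = ComplexEmbedding.conjugate φ then -1 else 0) +
    ((if χ = φ' then -1 else 0) + (if χ = ComplexEmbedding.conjugate φ' then 1 else 0)) with hk₀
  have hcc : ∀ χ : E u →+* ℂ, ComplexEmbedding.conjugate (ComplexEmbedding.conjugate χ) = χ :=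
    fun χ => star_star χ
  have hsw : ∀ χ χ' : E u →+* ℂ, ComplexEmbedding.conjugate χ = χ' ↔
      χ = ComplexEmbedding.conjugate χ' := by
    intro χ χ'
    constructor
    · rintro rfl
      exact (hcc χ).symm
    · rintro rfl
      exact hcc χ'
  have h1 := hN (Function.update (fun _ _ => 0) u k₀) (by
    intro u' χ
    by_cases hu : u' = u
    · subst hu
      rw [Function.update_self]
      simp only [hk₀, hsw, hcc]
      split_ifs <;> norm_num
    · rw [Function.update_of_ne hu]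
      simp) 1 (one_mem _) 1 one_pos (by
    rw [mul_one, Finset.prod_eq_single u]
    · rw [Function.update_self]
      have hδφ : ∀ χ : E u →+* ℂ, χ (δ u) ≠ 0 := fun χ => (_root_.map_ne_zero χ).2 hδ
      have e1 : ∀ χ : E u →+* ℂ, χ (δ u) ^ k₀ χ =
          ((if χ = φ then χ (δ u) else 1) *
            (if χ = ComplexEmbedding.conjugate φ then (χ (δ u))⁻¹ else 1)) *
          ((if χ = φ' then (χ (δ u))⁻¹ else 1) *
            (if χ = ComplexEmbedding.conjugate φ' then χ (δ u) else 1)) := by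
        intro χ
        simp only [hk₀]
        rw [zpow_add₀ (hδφ χ), zpow_add₀ (hδφ χ), zpow_add₀ (hδφ χ)]
        congr 1
        · congr 1
          · split_ifs <;> simp
          · split_ifs <;> simp
        · congr 1
          · split_ifs <;> simp
          · split_ifs <;> simp
      rw [Finset.prod_congr rfl fun χ _ => e1 χ]
      simp only [Finset.prod_mul_distrib, Finset.prod_ite_eq', Finset.mem_univ, if_true]
      rw [ComplexEmbedding.conjugate_coe_eq, ComplexEmbedding.conjugate_coe_eq, ← h]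
      have h2 := hδφ φ
      have h3 : (starRingEnd ℂ) (φ (δ u)) ≠ 0 := (_root_.map_ne_zero _).2 h2
      push_cast
      field_simp
    · intro u' _ hu
      rw [Function.update_of_ne hu]
      simp
    · intro hu
      exact absurd (Finset.mem_univ u) hu) u φ
  rw [Function.update_self] at h1
  simp only [hk₀] at h1
  rw [if_true, if_neg (fun e => hc φ e.symm), if_neg hne] at h1
  split_ifs at h1 <;> omega

end NonDegen

end Pool.Agent.K7.H1.UM
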