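import Pool.Agent.K7.H1.UM.NT2

/-!
# The patterns imply the existence of swaps
-/

set_option autoImplicit false
set_option linter.unusedSectionVars false

open Polynomial NumberField

namespace Pool.Agent.K7.H1.UM

open Pool.Agent.W458.MF Pool.Agent.W521.Frob Pool.Agent.W521.Criterion Pool.Agent.W338.MF

section Fixed

variable {L : Type} [Field L] [NumberField L] {k : Type} [Field k] {l : ℕ} [Fact l.Prime]
  [CharP k l] {ρ : 𝓞 L →+* k} {σ : L ≃ₐ[ℚ] L}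

lemma aeval_int (R : ℤ[X]) (x : 𝓞 L) (hx : aeval (x : L) R = 0) : aeval x R = 0 := by
  apply RingOfIntegers.coe_injective
  have h5 := aeval_algebraMap_apply L x R
  exact h5.symm.trans (hx.trans (map_zero _).symm)

lemma aeval_smul (R : ℤ[X]) (x : 𝓞 L) (hx : aeval x R = 0) : aeval (σ • x) R = 0 := by
  apply aeval_int
  have h1 : (((σ • x : 𝓞 L)) : L) = σ (x : L) := rfl
  rw [h1]
  have h5 := aeval_algebraMap_apply L x R
  rw [hx, map_zero] at h5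
  have h6 := Polynomial.hom_eval₂ R (algebraMap ℤ L) (σ : L →+* L) (x : L)
  rw [RingHom.ext_int ((σ : L →+* L).comp (algebraMap ℤ L)) (algebraMap ℤ L)] at h6
  have h7 : eval₂ (algebraMap ℤ L) (x : L) R = 0 := h5
  rw [h7, map_zero] at h6
  exact h6.symm

lemma root_mod (R : ℤ[X]) {T : Finset (ZMod l)}
    (hT : R.map (Int.castRingHom (ZMod l)) = ∏ t ∈ T, (X - C t)) (x : 𝓞 L) (hx : aeval x R = 0) :
    ∃ t ∈ T, ρ x = ZMod.castHom (dvd_refl l) k t := by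
  set cst := ZMod.castHom (dvd_refl l) k with hcst
  have h1 : eval₂ (Int.castRingHom k) (ρ x) R = 0 := by
    have h3 := Polynomial.hom_eval₂ R (algebraMap ℤ (𝓞 L)) ρ x
    rw [RingHom.ext_int (ρ.comp (algebraMap ℤ (𝓞 L))) (Int.castRingHom k)] at h3
    have h4 : eval₂ (algebraMap ℤ (𝓞 L)) x R = 0 := hx
    rw [h4, map_zero] at h3
    exact h3.symm
  rw [← RingHom.ext_int (cst.comp (Int.castRingHom (ZMod l))) (Int.castRingHom k),
    ← eval_map, ← Polynomial.map_map, hT, Polynomial.map_prod, eval_prod,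
    Finset.prod_eq_zero_iff] at h1
  obtain ⟨t, ht, h2⟩ := h1
  rw [Polynomial.map_sub, map_X, map_C, eval_sub, eval_X, eval_C, sub_eq_zero] at h2
  exact ⟨t, ht, h2⟩

lemma fixed_int (hσ : ∀ x : 𝓞 L, ρ (σ • x) = ρ x ^ l) (R : ℤ[X])
    (hR : SplitsMod R l) (x : 𝓞 L) (hx : aeval x R = 0) : σ • x = x := by
  obtain ⟨T, hT⟩ := id hR
  obtain ⟨t, -, ht⟩ := root_mod (ρ := ρ) R hT x hx
  refine eq_of_map_eq ρ R (Prim.sep_mod hR) _ _ (aeval_smul R x hx) hx ?_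
  rw [hσ, ht, cast_pow]

lemma fixed_of_splits (hσ : ∀ x : 𝓞 L, ρ (σ • x) = ρ x ^ l) (R : ℤ[X]) (hRm : R.Monic)
    (hR : SplitsMod R l) (β : L) (hβ : aeval β R = 0) : σ β = β := by
  have h1 : IsIntegral ℤ β := ⟨R, hRm, hβ⟩
  have h2 := fixed_int hσ R hR ⟨β, h1⟩ (aeval_int R _ hβ)
  exact congrArg (fun x : 𝓞 L => (x : L)) h2

lemma fixed_of_splitSet (hσ : ∀ x : 𝓞 L, ρ (σ • x) = ρ x ^ l) (hl2 : l ≠ 2) {q : ℕ}
    (hlq : ¬ l ∣ q) {h : ℤ[X]} (hm : h.Monic) {g : ℕ}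
    (hpat : h.map (Int.castRingHom (ZMod l)) ∈ splitSet g l q) (β : L)
    (hβ : aeval β (weil q h) = 0) : σ β = β := by
  set cst := ZMod.castHom (dvd_refl l) k with hcst
  have hl : l.Prime := Fact.out
  have hq0 : q ≠ 0 := by
    rintro rfl
    exact hlq (dvd_zero _)
  obtain ⟨hβ0, hθ⟩ := (root_iff hq0 hm β).1 hβ
  obtain ⟨T, -, hT, hsq⟩ := hpat
  have h1 : IsIntegral ℤ β := ⟨weil q h, weil_monic q hm, hβ⟩
  have h3 : IsIntegral ℤ (β + q / β) := ⟨h, hm, hθ⟩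
  set b : 𝓞 L := ⟨β, h1⟩ with hb
  set t : 𝓞 L := ⟨β + q / β, h3⟩ with ht
  have hbt : b ^ 2 + (q : 𝓞 L) = t * b := by
    apply RingOfIntegers.ext
    change β ^ 2 + (algebraMap (𝓞 L) L) (q : 𝓞 L) = (β + q / β) * β
    rw [map_natCast]
    field_simp
  have htr : aeval t h = 0 := aeval_int h t hθ
  have hσt : σ • t = t := fixed_int hσ h ⟨T, hT⟩ t htr
  obtain ⟨s, hs, hts⟩ := root_mod (ρ := ρ) h hT t htr
  obtain ⟨⟨r, hr⟩, hne⟩ := hsq s hs
  have h2k : (2 : k) ≠ 0 := by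
    have h1 : ((2 : ℕ) : k) ≠ 0 := by
      rw [Ne, CharP.cast_eq_zero_iff k l]
      intro h1
      exact hl2 ((Nat.prime_dvd_prime_iff_eq hl Nat.prime_two).1 h1)
    exact_mod_cast h1
  have hquad : ρ b ^ 2 + (q : k) = cst s * ρ b := by
    have h4 := congrArg ρ hbt
    rw [map_add, map_mul, map_pow, map_natCast, hts] at h4
    exact h4
  have h4 : (2 * ρ b - cst s) ^ 2 = cst r ^ 2 := by
    rw [← map_pow cst r 2, sq r, ← hr, map_sub, map_pow, map_mul, map_natCast, map_ofNat]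
    linear_combination (4 : k) * hquad
  have h5 : ∃ u : ZMod l, 2 * ρ b = cst u := by
    rcases sq_eq_sq_iff_eq_or_eq_neg.1 h4 with h6 | h6
    · exact ⟨s + r, by rw [map_add]; linear_combination h6⟩
    · exact ⟨s - r, by rw [map_sub]; linear_combination h6⟩
  obtain ⟨u, hu⟩ := h5
  have h2l : (2 : k) ^ l = 2 := by
    have := cast_pow (k := k) (2 : ZMod l)
    rwa [map_ofNat] at this
  have h6 : ρ b ^ l = ρ b := by
    have h7 := cast_pow (k := k) u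
    rw [← hcst, ← hu, mul_pow, h2l] at h7
    exact mul_left_cancel₀ h2k h7
  have h7 : (σ • b) ^ 2 + (q : 𝓞 L) = t * (σ • b) := by
    have h8 := congrArg (fun x => σ • x) hbt
    simp only [smul_add, smul_mul', smul_pow'] at h8
    have h9 : σ • ((q : ℕ) : 𝓞 L) = (q : 𝓞 L) :=
      map_natCast (MulSemiringAction.toRingHom (Gal(L/ℚ)) (𝓞 L) σ) q
    rwa [h9, hσt] at h8
  have h8 : σ • b = b := by
    by_contra hne'
    have h9 : (σ • b - b) * (σ • b + b - t) = 0 := by linear_combination h7 - hbt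
    have h10 := sub_eq_zero.1 ((mul_eq_zero.1 h9).resolve_left (sub_ne_zero.2 hne'))
    have h11 := congrArg ρ h10
    rw [map_add, hσ, h6, hts] at h11
    apply hne
    apply cst.injective
    rw [map_zero, map_sub, map_pow, map_mul, map_natCast, map_ofNat]
    rw [← hcst] at h11
    rw [← h11] at hquad ⊢
    linear_combination (-4 : k) * hquad
  exact congrArg (fun x : 𝓞 L => (x : L)) h8

end Fixed

/-- The data of a unitary index. -/
structure UData (E : Type) [Field E] [NumberField E] (q : ℕ) (h : ℤ[X]) (P : (𝓞 E)[X])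
    (c : E →+* E) (f : ℤ[X]) (θ : 𝓞 E) (D : ℕ) : Prop where
  half : HalfPol E q h P
  prim : Prim E f θ D
  cc : ∀ x, c (c x) = x
  conj : ∀ φ : E →+* ℂ, φ.comp c = ComplexEmbedding.conjugate φ
  cne : c ≠ RingHom.id E

/-- The conjugate homomorphism. -/
noncomputable abbrev cj {E : Type} [Field E] [NumberField E] (c : E →+* E) : 𝓞 E →+* 𝓞 E :=
  RingOfIntegers.mapRingHom c

/-- All the polynomials split modulo `l`. -/
def LinU {E : Type} [Field E] [NumberField E] (P : (𝓞 E)[X]) (c : E →+* E) (l : ℕ) : Prop :=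
  ∀ ψ : 𝓞 E →+* ZMod l, P.map ψ ∈ linSet P.natDegree l ∨
    P.map (ψ.comp (cj c)) ∈ linSet P.natDegree l

/-- All the polynomials split modulo `l` except one, and its conjugate. -/
def SwapU {E : Type} [Field E] [NumberField E] (P : (𝓞 E)[X]) (c : E →+* E) (N l : ℕ) : Prop :=
  ∃ ψ₀ : 𝓞 E →+* ZMod l, P.map ψ₀ ∈ swapSet P.natDegree N l ∧
    ∀ ψ : 𝓞 E →+* ZMod l, ψ ≠ ψ₀ → ψ ≠ ψ₀.comp (cj c) →
      (P.map ψ ∈ linSet P.natDegree l ∨ P.map (ψ.comp (cj c)) ∈ linSet P.natDegree l)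

section Blocks

variable {E : Type} [Field E] [NumberField E] {q : ℕ} {h : ℤ[X]} {P : (𝓞 E)[X]}
  {c : E →+* E} {f : ℤ[X]} {θ : 𝓞 E} {D : ℕ}
  {L : Type} [Field L] [NumberField L] [IsGalois ℚ L] {j : L →+* ℂ}
  {k : Type} [Field k] {l : ℕ} [Fact l.Prime] [CharP k l] {ρ : 𝓞 L →+* k}
  {σ : L ≃ₐ[ℚ] L}

lemma cj_comp (c : E →+* E) (ψ : 𝓞 E →+* ZMod l) {φ : E →+* L}
    (hψ : ∀ x : 𝓞 E, ρ (RingOfIntegers.mapRingHom φ x) = ZMod.castHom (dvd_refl l) k (ψ x))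
    (x : 𝓞 E) : ρ (RingOfIntegers.mapRingHom (φ.comp c) x) =
      ZMod.castHom (dvd_refl l) k ((ψ.comp (cj c)) x) :=
  hψ (cj c x)

lemma comp_cc (hcc : ∀ x, c (c x) = x) (φ : E →+* L) : (φ.comp c).comp c = φ :=
  RingHom.ext fun x => congrArg φ (hcc x)

lemma fixed_dual (j : L →+* ℂ) (H : UData E q h P c f θ D) (hq : q ≠ 0) (φ : E →+* L)
    (hfix : ∀ β : L, ((P.map (algebraMap (𝓞 E) E)).map (φ.comp c)).IsRoot β → σ β = β) (β : L)
    (hβ : ((P.map (algebraMap (𝓞 E) E)).map φ).IsRoot β) : σ β = β := by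
  have h1 := hfix _ (H.half.dual j hq H.conj φ β hβ)
  have hqL : (q : L) ≠ 0 := by exact_mod_cast hq
  rw [map_div₀, map_natCast] at h1
  have h2 : (q : L) / ((q : L) / σ β) = (q : L) / ((q : L) / β) := by rw [h1]
  rwa [div_div_cancel₀ hqL, div_div_cancel₀ hqL] at h2

lemma fixed_block (j : L →+* ℂ) (H : UData E q h P c f θ D) (hq : q ≠ 0) (hD : ¬ l ∣ D)
    (hf : SplitsMod f l) (hL : ∀ z : ℂ, aeval z (weil q h) = 0 → ∃ x : L, j x = z)
    (hσ : ∀ x : 𝓞 L, ρ (σ • x) = ρ x ^ l) (φ : E →+* L) (ψ : 𝓞 E →+* ZMod l)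
    (hψ : ∀ x : 𝓞 E, ρ (RingOfIntegers.mapRingHom φ x) = ZMod.castHom (dvd_refl l) k (ψ x))
    (hor : P.map ψ ∈ linSet P.natDegree l ∨ P.map (ψ.comp (cj c)) ∈ linSet P.natDegree l) (β : L)
    (hβ : ((P.map (algebraMap (𝓞 E) E)).map φ).IsRoot β) : σ β = β := by
  have hfx : ∀ (φ : E →+* L) (x : E), σ (φ x) = φ x := fun φ x =>
    H.prim.fixed hD hf ρ σ hσ φ x
  rcases hor with h1 | h1
  · exact blk_lin H.half.monic (H.half.splits hL φ) hσ (hfx φ) hψ h1 β hβ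
  · refine fixed_dual j H hq φ (fun β' hβ' => ?_) β hβ
    exact blk_lin H.half.monic (H.half.splits hL _) hσ (hfx _) (cj_comp c ψ hψ) h1 β' hβ'

lemma exists_psi (H : UData E q h P c f θ D) (hD : ¬ l ∣ D) (hf : SplitsMod f l)
    (ρ : 𝓞 L →+* k) (φ : E →+* L) : ∃ ψ : 𝓞 E →+* ZMod l, ∀ x : 𝓞 E,
      ρ (RingOfIntegers.mapRingHom φ x) = ZMod.castHom (dvd_refl l) k (ψ x) :=
  H.prim.factor hD hf (ρ.comp (RingOfIntegers.mapRingHom φ))

/-- The Frobenius element fixes all roots if all the polynomials split. -/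
lemma fixed_of_linU (j : L →+* ℂ) (H : UData E q h P c f θ D) (hq : q ≠ 0) (hD : ¬ l ∣ D)
    (hf : SplitsMod f l) (hL : ∀ z : ℂ, aeval z (weil q h) = 0 → ∃ x : L, j x = z)
    (hLf : ∀ z : ℂ, aeval z f = 0 → ∃ x : L, j x = z)
    (hσ : ∀ x : 𝓞 L, ρ (σ • x) = ρ x ^ l) (hlin : LinU P c l) (β : L)
    (hβ : aeval β (weil q h) = 0) : σ β = β := by
  obtain ⟨φ, hφ⟩ := (H.half.root_iff (H.prim.emb hLf) β).1 hβ
  obtain ⟨ψ, hψ⟩ := exists_psi H hD hf ρ φ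
  exact fixed_block j H hq hD hf hL hσ φ ψ hψ (hlin ψ) β hφ

/-- The Frobenius element swaps two roots. -/
lemma exists_swap {J : Type} {q : J → ℕ} {h : J → ℤ[X]} {R : ℤ[X]} {i : J} {N : ℕ} (j : L →+* ℂ)
    (H : UData E (q i) (h i) P c f θ D)
    (hq : q i ≠ 0) (hD : ¬ l ∣ D) (hf : SplitsMod f l)
    (hL : ∀ z : ℂ, aeval z (weil (q i) (h i)) = 0 → ∃ x : L, j x = z)
    (hLf : ∀ z : ℂ, aeval z f = 0 → ∃ x : L, j x = z)
    (hσ : ∀ x : 𝓞 L, ρ (σ • x) = ρ x ^ l) (hsw : SwapU P c N l)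
    (h1 : ∀ i', i' ≠ i → ∀ β : L, aeval β (weil (q i') (h i')) = 0 → σ β = β)
    (h2 : ∀ β : L, aeval β R = 0 → σ β = β) :
    ∃ (φ : E →+* L) (α α' : L), Swp q h R i (P.map (algebraMap (𝓞 E) E)) c φ α α' ∧
      α ^ N ≠ α' ^ N := by
  obtain ⟨ψ₀, h3, h4⟩ := hsw
  obtain ⟨φ, hφ⟩ := H.prim.exists_emb hD (H.prim.splits hLf) ρ ψ₀
  have hfx : ∀ (φ : E →+* L) (x : E), σ (φ x) = φ x := fun φ x =>
    H.prim.fixed hD hf ρ σ hσ φ x
  obtain ⟨α, α', a1, a2, a3, a4, a5, a6, a7⟩ := blk_swap H.half.monic (H.half.splits hL φ) hσ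
    (hfx φ) hφ h3
  refine ⟨φ, α, α', ⟨σ, a1, a2, a3, a4, a5, a7, ?_, h1, h2⟩, a6⟩
  intro φ' n1 n2 β hβ
  obtain ⟨ψ, hψ⟩ := exists_psi H hD hf ρ φ'
  refine fixed_block j H hq hD hf hL hσ φ' ψ hψ (h4 ψ ?_ ?_) β hβ
  · rintro rfl
    exact n1 (H.prim.inj_mod hf hψ hφ)
  · rintro rfl
    exact n2 (H.prim.inj_mod hf hψ (cj_comp c ψ₀ hφ))

end Blocks

end Pool.Agent.K7.H1.UM
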