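import Pool.Agent.K7.H1.UM.NT3

/-!
# The patterns imply that the relations are balanced for the unitary indices
-/

set_option autoImplicit false
set_option linter.unusedSectionVars false

open Polynomial NumberField

namespace Pool.Agent.K7.H1.UM

open Pool.Agent.W458.MF Pool.Agent.W521.Frob Pool.Agent.W521.Criterion Pool.Agent.W338.MF
  Pool.Agent.W928.MF

section Rou

variable {L : Type} [Field L] [NumberField L] {q : ℕ} {h : ℤ[X]}

lemma finrank_root (hm : h.Monic) (α : L) (hα : aeval α (weil q h) = 0) :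
    Module.finrank ℚ (IntermediateField.adjoin ℚ {α}) ≤ 2 * h.natDegree := by
  have hint : IsIntegral ℚ α := Algebra.IsIntegral.isIntegral α
  rw [IntermediateField.adjoin.finrank hint]
  have h4 : minpoly ℚ α ∣ (weil q h).map (Int.castRingHom ℚ) := by
    apply minpoly.dvd
    rw [aeval_def, eval₂_map, RingHom.ext_int ((algebraMap ℚ L).comp _) (algebraMap ℤ L)]
    exact hα
  have h5 := natDegree_le_of_dvd h4 ((weil_monic q hm).map _).ne_zero
  rwa [(weil_monic q hm).natDegree_map, weil_natDegree q hm] at h5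

/-- The quotient of the two roots is not a root of unity. -/
lemma not_rou (j : L →+* ℂ) (hq : q ≠ 0) (hm : h.Monic) {N d : ℕ} (hd : 2 * h.natDegree ≤ d)
    (huni : ∀ z : ℂ, (∃ t : ℕ, 0 < t ∧ z ^ t = 1) →
      (∃ P : ℚ[X], P ≠ 0 ∧ P.natDegree ≤ d * d ∧ aeval z P = 0) → z ^ N = 1)
    (α α' : L) (hα : aeval α (weil q h) = 0) (hα' : aeval α' (weil q h) = 0)
    (hne : α ^ N ≠ α' ^ N) (t : ℕ) (ht : 0 < t) : α ^ t ≠ α' ^ t := by
  intro hαt
  have h0 := root_ne_zero hq hm hα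
  have h0' := root_ne_zero hq hm hα'
  set ζ : L := α / α' with hζ
  have hζt : ζ ^ t = 1 := by rw [hζ, div_pow, hαt, div_self (pow_ne_zero _ h0')]
  have hmem : ζ ∈ IntermediateField.adjoin ℚ {α} ⊔ IntermediateField.adjoin ℚ {α'} := by
    have h1 : α ∈ IntermediateField.adjoin ℚ {α} := IntermediateField.mem_adjoin_simple_self ℚ α
    have h2 : α' ∈ IntermediateField.adjoin ℚ {α'} :=
      IntermediateField.mem_adjoin_simple_self ℚ α'
    rw [hζ]
    exact div_mem ((le_sup_left : _ ≤ IntermediateField.adjoin ℚ {α} ⊔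
      IntermediateField.adjoin ℚ {α'}) h1) ((le_sup_right : _ ≤
      IntermediateField.adjoin ℚ {α} ⊔ IntermediateField.adjoin ℚ {α'}) h2)
  set F := IntermediateField.adjoin ℚ {α} ⊔ IntermediateField.adjoin ℚ {α'} with hF
  have h2 : (minpoly ℚ (⟨ζ, hmem⟩ : F)).natDegree ≤ Module.finrank ℚ F := minpoly.natDegree_le _
  have h3 : minpoly ℚ (⟨ζ, hmem⟩ : F) = minpoly ℚ ζ :=
    (minpoly.algebraMap_eq (algebraMap F L).injective (⟨ζ, hmem⟩ : F)).symm
  have h4 : Module.finrank ℚ F ≤ d * d := by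
    refine (IntermediateField.finrank_sup_le _ _).trans ?_
    exact Nat.mul_le_mul ((finrank_root hm α hα).trans hd) ((finrank_root hm α' hα').trans hd)
  rw [h3] at h2
  have hζN : ζ ^ N = 1 := by
    apply j.injective
    rw [map_pow, map_one]
    refine huni (j ζ) ⟨t, ht, by rw [← map_pow, hζt, map_one]⟩
      ⟨minpoly ℚ ζ, minpoly.ne_zero (Algebra.IsIntegral.isIntegral ζ), h2.trans h4, ?_⟩
    have h1 := Polynomial.hom_eval₂ (minpoly ℚ ζ) (algebraMap ℚ L) j ζ
    have h2 : eval₂ (algebraMap ℚ L) ζ (minpoly ℚ ζ) = 0 := minpoly.aeval ℚ ζ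
    rw [h2, map_zero, Subsingleton.elim (j.comp (algebraMap ℚ L)) (algebraMap ℚ ℂ)] at h1
    exact h1.symm
  apply hne
  rw [hζ, div_pow, div_eq_iff (pow_ne_zero _ h0'), one_mul] at hζN
  exact hζN

end Rou

section Main

variable {I U : Type} [Fintype I] [Fintype U] {q : I ⊕ U → ℕ} {h : I ⊕ U → ℤ[X]} {R : ℤ[X]}
  {E : U → Type} [∀ u, Field (E u)] [∀ u, NumberField (E u)] {P : ∀ u, (𝓞 (E u))[X]}
  {c : ∀ u, E u →+* E u} {f : U → ℤ[X]} {θ : ∀ u, 𝓞 (E u)} {D : U → ℕ}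

/-- The general conditions on the prime `l`. -/
structure Base (q : I ⊕ U → ℕ) (R : ℤ[X]) (f : U → ℤ[X]) (D : U → ℕ) (l : ℕ) : Prop where
  prime : l.Prime
  ne_two : l ≠ 2
  ndvd : ∀ i, ¬ l ∣ q i
  splits : SplitsMod R l
  idx : ∀ u, ¬ l ∣ D u
  gen : ∀ u, SplitsMod (f u) l

/-- The patterns. -/
structure Pats (q : I ⊕ U → ℕ) (h : I ⊕ U → ℤ[X]) (R : ℤ[X]) (P : ∀ u, (𝓞 (E u))[X])
    (c : ∀ u, E u →+* E u) (f : U → ℤ[X]) (D : U → ℕ) (N : ℕ) : Prop where
  swap : ∀ u₀, 2 ≤ (P u₀).natDegree → ∃ l, Base q R f D l ∧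
    (∀ i : I, (h (.inl i)).map (Int.castRingHom (ZMod l)) ∈
      splitSet (h (.inl i)).natDegree l (q (.inl i))) ∧
    SwapU (P u₀) (c u₀) N l ∧ ∀ u, u ≠ u₀ → LinU (P u) (c u) l
  irr : ∀ u, 3 ≤ (P u).natDegree → ∃ l : ℕ, l.Prime ∧ ∃ ψ : 𝓞 (E u) →+* ZMod l,
    Irreducible ((P u).map ψ)
  fix : ∀ u, 3 ≤ (P u).natDegree → ∃ l : ℕ, Base q R f D l ∧ ∃ ψ : 𝓞 (E u) →+* ZMod l,
    (P u).map ψ ∈ fixSet (P u).natDegree l

/-- The polynomials are irreducible. -/
lemma Pats.irreducible {N : ℕ} (hP : Pats q h R P c f D N) (u : U) (hm : (P u).Monic)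
    (hd : 0 < (P u).natDegree) : Irreducible ((P u).map (algebraMap (𝓞 (E u)) (E u))) := by
  rcases Nat.lt_or_ge (P u).natDegree 3 with h3 | h3
  · rcases Nat.lt_or_ge (P u).natDegree 2 with h2 | h2
    · exact irr_of_deg hm (by omega)
    · obtain ⟨l, hB, -, ⟨ψ₀, ⟨T, x, v, hT, hns, -, hg⟩, -⟩, -⟩ := hP.swap u h2
      have : Fact l.Prime := ⟨hB.prime⟩
      have hT0 : T = ∅ := by
        rw [← Finset.card_eq_zero]
        omega
      rw [hT0, Finset.prod_empty, mul_one] at hg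
      exact irr_of_mod hm ψ₀ (by rw [hg]; exact quad_irr hns)
  · obtain ⟨l, hl, ψ, hψ⟩ := hP.irr u h3
    have : Fact l.Prime := ⟨hl⟩
    exact irr_of_mod hm ψ hψ

variable (hq : ∀ i, q i ≠ 0) (hm : ∀ i, (h i).Monic) (hRm : R.Monic)
  (L : Type) [Field L] [NumberField L] [IsGalois ℚ L] (j : L →+* ℂ)
  (hL : ∀ i, ∀ z : ℂ, aeval z (weil (q i) (h i)) = 0 → ∃ x : L, j x = z)
  (hLf : ∀ u, ∀ z : ℂ, aeval z (f u) = 0 → ∃ x : L, j x = z)
  (hH : ∀ u, UData (E u) (q (.inr u)) (h (.inr u)) (P u) (c u) (f u) (θ u) (D u))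

include hq hm hRm hL hLf hH

/-- All the roots are swapped with others. -/
lemma all_swaps {N : ℕ} (hP : Pats q h R P c f D N) (u : U) (hd : 2 ≤ (P u).natDegree)
    (φ : E u →+* L) (z : L) (hz : (((P u).map (algebraMap (𝓞 (E u)) (E u))).map φ).IsRoot z) :
    ∃ (z' : L), Swp q h R (.inr u) ((P u).map (algebraMap (𝓞 (E u)) (E u))) (c u) φ z z' ∧
      ∃ (τ : L ≃ₐ[ℚ] L) (α α' : L), τ α = z ∧ τ α' = z' ∧ α ^ N ≠ α' ^ N ∧
        aeval α (weil (q (.inr u)) (h (.inr u))) = 0 ∧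
        aeval α' (weil (q (.inr u)) (h (.inr u))) = 0 := by
  obtain ⟨l, hB, hI, hsw, hlin⟩ := hP.swap u hd
  have : Fact l.Prime := ⟨hB.prime⟩
  obtain ⟨k, _, _, _, ρ, σ, hσ⟩ := exists_frob' L l hB.prime
  obtain ⟨φ₀, α, α', h1, h2⟩ := exists_swap j (hH u) (hq _) (hB.idx u) (hB.gen u) (hL _) (hLf u)
    hσ hsw (R := R) (by
      intro i' hi' β hβ
      rcases i' with i' | u'
      · exact fixed_of_splitSet hσ hB.ne_two (hB.ndvd _) (hm _) (hI i') β hβ
      · exact fixed_of_linU j (hH u') (hq _) (hB.idx u') (hB.gen u') (hL _) (hLf u') hσ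
          (hlin u' fun e => hi' (by rw [e])) β hβ) (fun β hβ =>
      fixed_of_splits hσ R hRm hB.splits β hβ)
  have hirr := hP.irreducible u (hH u).half.monic (hH u).half.deg
  obtain ⟨σ', r1, r2, -⟩ := id h1
  obtain ⟨τ, t1, t2⟩ := (hH u).prim.exists_aut_root ((hH u).half.monic.map _) hirr φ₀ φ r1 hz
  have h3 := swp_conj τ t1 h1
  rw [t2] at h3
  have hr : ∀ x : L, (((P u).map (algebraMap (𝓞 (E u)) (E u))).map φ₀).IsRoot x →
      aeval x (weil (q (.inr u)) (h (.inr u))) = 0 := fun x hx =>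
    ((hH u).half.root_iff ((hH u).prim.emb (hLf u)) x).2 ⟨φ₀, hx⟩
  exact ⟨τ α', h3, τ, α, α', t2, rfl, h2, hr _ r1, hr _ r2⟩

/-- The fixing automorphisms. -/
lemma all_fix {N : ℕ} (hP : Pats q h R P c f D N) (u : U) (hd : 3 ≤ (P u).natDegree)
    (φ : E u →+* L) : Fxp ((P u).map (algebraMap (𝓞 (E u)) (E u))) φ := by
  obtain ⟨l, hB, ψ, hψ⟩ := hP.fix u hd
  have : Fact l.Prime := ⟨hB.prime⟩
  obtain ⟨k, _, _, _, ρ, σ, hσ⟩ := exists_frob' L l hB.prime
  obtain ⟨φ₀, hφ₀⟩ := (hH u).prim.exists_emb (hB.idx u) ((hH u).prim.splits (hLf u)) ρ ψ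
  have h1 := blk_fix (hH u).half.monic ((hH u).half.splits (hL _) φ₀) hσ
    (fun x => (hH u).prim.fixed (hB.idx u) (hB.gen u) ρ σ hσ φ₀ x) hφ₀ hd hψ
  obtain ⟨τ, hτ⟩ := (hH u).prim.exists_aut φ₀ φ
  exact fxp_conj τ hτ h1

/-- The blocks of roots. -/
lemma blocks {N : ℕ} (hP : Pats q h R P c f D N) {S : Set ℂ}
    (hN : NonDeg E (fun u => (-1) ^ (P u).natDegree * ((P u).coeff 0 : E u)) S) (u : U) :
    Blocks (q (.inr u)) (h (.inr u)) (E u) (c u) ((P u).map (algebraMap (𝓞 (E u)) (E u))) L j := by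
  have hirr := hP.irreducible u (hH u).half.monic (hH u).half.deg
  have hemb := (hH u).prim.emb (hLf u)
  have hcb : ∀ φ : E u →+* ℂ, ComplexEmbedding.conjugate φ ≠ φ := by
    intro φ hφ
    apply (hH u).cne
    rw [← (hH u).conj] at hφ
    exact RingHom.ext fun x => φ.injective (DFunLike.congr_fun hφ x)
  have hδ0 : (-1) ^ (P u).natDegree * ((P u).coeff 0 : E u) ≠ 0 := by
    refine mul_ne_zero (pow_ne_zero _ (neg_ne_zero.2 one_ne_zero)) ?_
    intro h0
    exact (hH u).half.coeff_ne (hq _) (RingOfIntegers.coe_injective h0)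
  have hinj : ∀ φ φ' : E u →+* ℂ, φ ((P u).coeff 0 : E u) = φ' ((P u).coeff 0 : E u) →
      φ = φ' := by
    intro φ φ' he
    refine hN.inj u hδ0 hcb ?_
    rw [map_mul, map_mul, he, map_pow, map_pow, map_neg, map_neg, map_one, map_one]
  have hPm : ((P u).map (algebraMap (𝓞 (E u)) (E u))).Monic := (hH u).half.monic.map _
  refine ⟨hPm, ?_, (hH u).half.root_iff hemb, (hH u).half.splits (hL _), nodup_of_irr hirr,
    (hH u).half.dual j (hq _) (hH u).conj, ?_, (hH u).conj, hemb⟩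
  · rw [(hH u).half.monic.natDegree_map]
    exact (hH u).half.deg
  · intro φ φ' z hz hz'
    by_contra hne
    by_cases hcase : φ' = φ.comp (c u)
    · refine disj_conj (hH u).half.monic hirr (hH u).cc ?_ φ z hz (by rw [← hcase]; exact hz')
      intro he
      obtain ⟨χ⟩ : Nonempty (E u →+* ℂ) := inferInstance
      apply hcb χ
      refine hinj _ _ ?_
      rw [← (hH u).conj]
      have h1 := congrArg (fun g : (E u)[X] => g.coeff 0) he
      simp only [coeff_map] at h1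
      exact congrArg χ h1
    · rcases Nat.lt_or_ge (P u).natDegree 2 with h2 | h2
      · -- degree one
        have hd1 : (P u).natDegree = 1 := by
          have := (hH u).half.deg
          omega
        have h3 : ∀ χ : E u →+* L, (((P u).map (algebraMap (𝓞 (E u)) (E u))).map χ).IsRoot z →
            z = -χ ((P u).coeff 0 : E u) := by
          intro χ hχ
          have h4 : ((P u).map (algebraMap (𝓞 (E u)) (E u))).map χ =
              X + C (χ ((P u).coeff 0 : E u)) := by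
            have h5 := (hH u).half.monic.eq_X_add_C hd1
            conv_lhs => rw [h5]
            simp
          rw [h4, IsRoot.def, eval_add, eval_X, eval_C] at hχ
          linear_combination hχ
        have h4 : φ ((P u).coeff 0 : E u) = φ' ((P u).coeff 0 : E u) :=
          neg_injective ((h3 φ hz).symm.trans (h3 φ' hz'))
        apply hne
        have h5 := hinj (j.comp φ) (j.comp φ') (congrArg j h4)
        exact RingHom.ext fun x => j.injective (DFunLike.congr_fun h5 x)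
      · obtain ⟨z', ⟨σ, -, -, s1, s2, -, -, s3, -⟩, -⟩ :=
          all_swaps hq hm hRm L j hL hLf hH hP u h2 φ z hz
        have h3 := s3 φ' (fun e => hne e.symm) hcase z hz'
        exact s1 (h3.symm.trans s2)

end Main

end Pool.Agent.K7.H1.UM
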