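import Pool.Agent.K7.H1.UM.NT4

/-!
# The patterns imply that the relations are balanced for the unitary indices (end)
-/

set_option autoImplicit false
set_option linter.unusedSectionVars false

open Polynomial NumberField

namespace Pool.Agent.K7.H1.UM

open Pool.Agent.W458.MF Pool.Agent.W521.Frob Pool.Agent.W521.Criterion Pool.Agent.W338.MF
  Pool.Agent.W928.MF

/-- The relations are balanced at the index `i`. -/
def BalancedAt {J : Type} (q : J → ℕ) (h : J → ℤ[X]) (R : ℤ[X]) (i : J) : Prop :=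
  ∀ (_ : BEq (J × ℂ)) (_ : LawfulBEq (J × ℂ)) (l : List (J × ℂ)),
    (∀ x ∈ l, aeval x.2 (weil (q x.1) (h x.1)) = 0) → ∀ t : ℕ, 0 < t →
    ∀ ν ∈ Submonoid.closure {z : ℂ | aeval z R = 0}, ∀ c : ℕ, 0 < c →
      (l.map fun x => x.2 ^ t).prod * ν = (c : ℂ) →
        ∀ z, l.count (i, z) = l.count (i, (q i : ℂ) / z)

lemma balanced_of_at {J : Type} {q : J → ℕ} {h : J → ℤ[X]} {R : ℤ[X]}
    (H : ∀ i, BalancedAt q h R i) : Balanced q h R := by
  intro l hl t ht ν hν c hc hprod i z
  exact H i _ inferInstance l hl t ht ν hν c hc hprod z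

section Down

variable {J : Type} {q : J → ℕ} {h : J → ℤ[X]} {R : ℤ[X]}

/-- Transfer of a relation to the number field `L`. -/
lemma rel_down (L : Type) [Field L] [NumberField L] (j : L →+* ℂ)
    (hL : ∀ i, ∀ z : ℂ, aeval z (weil (q i) (h i)) = 0 → ∃ x : L, j x = z)
    (hLR : ∀ z : ℂ, aeval z R = 0 → ∃ x : L, j x = z)
    (l : List (J × ℂ)) (hl : ∀ x ∈ l, aeval x.2 (weil (q x.1) (h x.1)) = 0) (t : ℕ)
    (ν : ℂ) (hν : ν ∈ Submonoid.closure {z : ℂ | aeval z R = 0}) (c : ℕ)
    (hprod : (l.map fun x => x.2 ^ t).prod * ν = (c : ℂ)) :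
    ∃ (l' : List (J × L)) (ν' : L), l'.map (Prod.map id j) = l ∧
      (∀ x ∈ l', aeval x.2 (weil (q x.1) (h x.1)) = 0) ∧ j ν' = ν ∧
      ν' ∈ Submonoid.closure {x : L | aeval x R = 0} ∧
      (l'.map fun x => x.2).prod ^ t * ν' = (c : L) := by
  obtain ⟨l', rfl, hl'⟩ : ∃ l' : List (J × L), l'.map (Prod.map id j) = l ∧
      ∀ x ∈ l', aeval x.2 (weil (q x.1) (h x.1)) = 0 := by
    clear hprod
    induction l with
    | nil => exact ⟨[], rfl, by simp⟩
    | cons a T ih =>
      obtain ⟨T', h1, h2⟩ := ih fun z hz => hl z (List.mem_cons_of_mem a hz)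
      have h3 := hl a List.mem_cons_self
      obtain ⟨x, hx⟩ := hL a.1 a.2 h3
      refine ⟨(a.1, x) :: T', ?_, ?_⟩
      · rw [List.map_cons, h1]
        congr 1
        exact Prod.ext rfl hx
      · intro y hy
        rcases List.mem_cons.1 hy with e | e
        · rw [e]
          exact aeval_down j _ x (by rw [hx]; exact h3)
        · exact h2 y e
  obtain ⟨ν', rfl, hν'⟩ : ∃ ν' : L, j ν' = ν ∧ ν' ∈ Submonoid.closure {x : L | aeval x R = 0} := by
    clear hprod
    induction hν using Submonoid.closure_induction with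
    | mem x hx =>
      obtain ⟨y, hy⟩ := hLR x hx
      exact ⟨y, hy, Submonoid.subset_closure (aeval_down j _ y (by rw [hy]; exact hx))⟩
    | one => exact ⟨1, map_one j, one_mem _⟩
    | mul x y _ _ h1 h2 =>
      obtain ⟨a, ha, ha'⟩ := h1
      obtain ⟨b, hb, hb'⟩ := h2
      exact ⟨a * b, by rw [map_mul, ha, hb], mul_mem ha' hb'⟩
  refine ⟨l', ν', rfl, hl', rfl, hν', ?_⟩
  apply j.injective
  have e1 : ∀ k : List (J × L), ((k.map (Prod.map id j)).map fun x : J × ℂ => x.2 ^ t).prod =
      (j (k.map fun x => x.2).prod) ^ t := by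
    intro k
    induction k with
    | nil => simp
    | cons a k ih =>
      rw [List.map_cons, List.map_cons, List.prod_cons, ih, List.map_cons, List.prod_cons,
        map_mul, mul_pow]
      rfl
  rw [map_mul, map_pow, map_natCast, ← hprod, e1]

/-- The products for automorphisms which fix the roots of `R`. -/
lemma prod_aut {L : Type} [Field L] [NumberField L] (l : List (J × L)) (t : ℕ) (ν : L)
    (hν : ν ∈ Submonoid.closure {x : L | aeval x R = 0}) (c : ℕ) (hc : 0 < c)
    (hrel : (l.map fun x => x.2).prod ^ t * ν = (c : L)) (σ : L ≃ₐ[ℚ] L)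
    (hσ : ∀ β : L, aeval β R = 0 → σ β = β) :
    ((l.map fun x : J × L => σ x.2 / x.2).prod) ^ t = 1 := by
  have hc0 : ((c : ℕ) : L) ≠ 0 := by
    have : c ≠ 0 := hc.ne'
    exact_mod_cast this
  have hν0 : ν ≠ 0 := by
    intro h0
    rw [h0, mul_zero] at hrel
    exact hc0 hrel.symm
  set P : L := (l.map fun x => x.2).prod with hP
  have hPt : P ^ t ≠ 0 := by
    intro h0
    rw [h0, zero_mul] at hrel
    exact hc0 hrel.symm
  have hσν : σ ν = ν := by
    induction hν using Submonoid.closure_induction with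
    | mem x hx => exact hσ x hx
    | one => exact map_one σ
    | mul x y hx hy h1 h2 =>
      have h3 : ∀ z ∈ Submonoid.closure {x : L | aeval x R = 0}, σ z = z := by
        intro y hy
        induction hy using Submonoid.closure_induction with
        | mem x hx => exact hσ x hx
        | one => exact map_one σ
        | mul x y _ _ h1 h2 => rw [map_mul, h1, h2]
      rw [map_mul, h3 x hx, h3 y hy]
  have hσP : (σ P) ^ t = P ^ t := by
    have h1 := congrArg σ hrel
    rw [map_mul, map_pow, hσν, map_natCast, ← hrel] at h1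
    exact mul_right_cancel₀ hν0 h1
  have hprodf : (l.map fun x : J × L => σ x.2 / x.2).prod = σ P / P := by
    have e1 : ∀ k : List (J × L), (k.map fun x : J × L => σ x.2 / x.2).prod =
        σ (k.map fun x => x.2).prod / (k.map fun x => x.2).prod := by
      intro k
      induction k with
      | nil => simp
      | cons a k ih =>
        rw [List.map_cons, List.prod_cons, ih, List.map_cons, List.prod_cons, map_mul,
          div_mul_div_comm]
    exact e1 l
  rw [hprodf, div_pow, hσP, div_self hPt]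

end Down

section Swap

variable {J : Type} {q : J → ℕ} {h : J → ℤ[X]} {R : ℤ[X]} (hq : ∀ i, q i ≠ 0)
  (hm : ∀ i, (h i).Monic) {E : Type} [Field E] [NumberField E] {Q : E[X]} {c : E →+* E}
  {L : Type} [Field L] [NumberField L] (j : L →+* ℂ) {i : J}

include hq hm in
/-- The exponents at swapped roots. -/
lemma swp_count [BEq (J × L)] [LawfulBEq (J × L)] (hcc : ∀ x, c (c x) = x)
    (hB : Blocks (q i) (h i) E c Q L j)
    (l : List (J × L)) (hl : ∀ x ∈ l, aeval x.2 (weil (q x.1) (h x.1)) = 0) (t : ℕ) (ht : 0 < t)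
    (hgen : ∀ σ : L ≃ₐ[ℚ] L, (∀ β : L, aeval β R = 0 → σ β = β) →
      ((l.map fun x : J × L => σ x.2 / x.2).prod) ^ t = 1)
    {φ : E →+* L} (hφ : φ ≠ φ.comp c) {z z' : L} (hS : Swp q h R i Q c φ z z')
    (hrou : ∀ s : ℕ, 0 < s → z ^ s ≠ z' ^ s) :
    (l.count (i, z) : ℤ) - (l.count (i, (q i : L) / z) : ℤ) =
      (l.count (i, z') : ℤ) - (l.count (i, (q i : L) / z') : ℤ) := by
  have hqL : (q i : L) ≠ 0 := by exact_mod_cast hq i
  obtain ⟨σ, r1, r2, r3, r4, r5, r6, r7, r8, r9⟩ := hS
  have hz0 : z ≠ 0 := root_ne_zero (hq i) (hm i) ((hB.root z).2 ⟨φ, r1⟩)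
  have hz0' : z' ≠ 0 := root_ne_zero (hq i) (hm i) ((hB.root z').2 ⟨φ, r2⟩)
  have hdist : ∀ x y : L, (Q.map φ).IsRoot x → (Q.map φ).IsRoot y → x ≠ (q i : L) / y := by
    intro x y hx hy e
    apply hφ
    refine hB.disj φ (φ.comp c) x hx ?_
    rw [e]
    exact hB.dual φ y hy
  have hdiv : ∀ x y : L, x ≠ y → (q i : L) / x ≠ (q i : L) / y := by
    intro x y hxy e
    apply hxy
    have h1 : (q i : L) / ((q i : L) / x) = (q i : L) / ((q i : L) / y) := by rw [e]
    rwa [div_div_cancel₀ hqL, div_div_cancel₀ hqL] at h1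
  have hpair : ∀ x y : L, x ≠ y → (i, x) ≠ (i, y) := by
    intro x y hxy h0
    exact hxy (Prod.ext_iff.1 h0).2
  set r : L := z' / z with hr
  have hr0 : r ≠ 0 := div_ne_zero hz0' hz0
  have hfour := prod_four (fun x : J × L => σ x.2 / x.2) (i, z) (i, z') (i, (q i : L) / z')
    (i, (q i : L) / z) (hpair _ _ r3) (hpair _ _ (hdist _ _ r1 r2)) (hpair _ _ (hdist _ _ r1 r1))
    (hpair _ _ (hdist _ _ r2 r2)) (hpair _ _ (hdist _ _ r2 r1)) (hpair _ _ (hdiv _ _ r3.symm))
    r r hr0 hr0
    (by
      simp only [hr]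
      rw [r4])
    (by
      simp only [hr]
      rw [r5, inv_div])
    (by
      simp only [hr]
      rw [map_div₀, map_natCast, r5]
      field_simp)
    (by
      simp only [hr]
      rw [map_div₀, map_natCast, r4]
      field_simp) l (by
      rintro ⟨i', x⟩ hx h1 h2 h3 h4
      have hx' := hl _ hx
      have hx0 : x ≠ 0 := root_ne_zero (hq i') (hm i') hx'
      change σ x / x = 1
      by_cases hi : i' = i
      · subst hi
        obtain ⟨φ', hφ'⟩ := (hB.root x).1 hx'
        have h5 : σ x = x := by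
          by_cases e1 : φ' = φ
          · subst e1
            exact r6 x hφ' (fun e => h1 (by rw [e])) (fun e => h2 (by rw [e]))
          · by_cases e2 : φ' = φ.comp c
            · subst e2
              have h6 := hB.dual _ x hφ'
              have h7 : (φ.comp c).comp c = φ := RingHom.ext fun x => congrArg φ (hcc x)
              rw [h7] at h6
              have h8 := r6 _ h6 (fun e => h4 (by
                rw [← e, div_div_cancel₀ hqL])) (fun e => h3 (by
                rw [← e, div_div_cancel₀ hqL]))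
              rw [map_div₀, map_natCast] at h8
              have h9 : (q i' : L) / ((q i' : L) / σ x) = (q i' : L) / ((q i' : L) / x) := by
                rw [h8]
              rwa [div_div_cancel₀ hqL, div_div_cancel₀ hqL] at h9
            · exact r7 φ' e1 e2 x hφ'
        rw [h5, div_self hx0]
      · rw [r8 i' hi x hx', div_self hx0])
  set A := l.count (i, z)
  set A' := l.count (i, z')
  set B := l.count (i, (q i : L) / z)
  set B' := l.count (i, (q i : L) / z')
  have e1 : (r ^ (A' + B)) ^ t = (r ^ (A + B')) ^ t := by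
    rw [pow_add, pow_add, ← hfour, mul_pow _ (r ^ A' * r ^ B), hgen σ r9, one_mul]
  rw [← pow_mul, ← pow_mul] at e1
  have fin : ∀ a d : ℕ, r ^ ((a + d + 1) * t) = r ^ (a * t) → False := by
    intro a d hk
    have h1 : (a + d + 1) * t = a * t + (d + 1) * t := by ring
    rw [h1, pow_add] at hk
    have h2 : r ^ ((d + 1) * t) = 1 := by
      have h3 : r ^ (a * t) * r ^ ((d + 1) * t) = r ^ (a * t) * 1 := by rw [hk, mul_one]
      exact mul_left_cancel₀ (pow_ne_zero _ hr0) h3
    refine hrou ((d + 1) * t) (by positivity) ?_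
    rw [hr, div_pow, div_eq_iff (pow_ne_zero _ hz0), one_mul] at h2
    exact h2.symm
  have h2 : A' + B = A + B' := by
    by_contra hne
    rcases lt_or_gt_of_ne hne with hlt | hlt
    · obtain ⟨d, hd⟩ := Nat.exists_eq_add_of_lt hlt
      rw [hd] at e1
      exact fin _ d e1.symm
    · obtain ⟨d, hd⟩ := Nat.exists_eq_add_of_lt hlt
      rw [hd] at e1
      exact fin _ d e1
  omega

end Swap

section Main

variable {I U : Type} [Fintype I] [Fintype U] {q : I ⊕ U → ℕ} {h : I ⊕ U → ℤ[X]} {R : ℤ[X]}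
  {E : U → Type} [∀ u, Field (E u)] [∀ u, NumberField (E u)] {P : ∀ u, (𝓞 (E u))[X]}
  {c : ∀ u, E u →+* E u} {f : U → ℤ[X]} {θ : ∀ u, 𝓞 (E u)} {D : U → ℕ}
  (hq : ∀ i, q i ≠ 0) (hm : ∀ i, (h i).Monic) (hRm : R.Monic)
  (L : Type) [Field L] [NumberField L] [IsGalois ℚ L] (j : L →+* ℂ)
  (hL : ∀ i, ∀ z : ℂ, aeval z (weil (q i) (h i)) = 0 → ∃ x : L, j x = z)
  (hLR : ∀ z : ℂ, aeval z R = 0 → ∃ x : L, j x = z)
  (hLf : ∀ u, ∀ z : ℂ, aeval z (f u) = 0 → ∃ x : L, j x = z)
  (hH : ∀ u, UData (E u) (q (.inr u)) (h (.inr u)) (P u) (c u) (f u) (θ u) (D u))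

include hq hm hRm hL hLR hLf hH

/-- The relations are balanced at the unitary indices, if they are at the others. -/
theorem bal_unitary {N : ℕ} (hP : Pats q h R P c f D N)
    (hN : NonDeg E (fun u => (-1) ^ (P u).natDegree * ((P u).coeff 0 : E u))
      {z : ℂ | aeval z R = 0})
    (huni : ∀ u, ∀ z : ℂ, (∃ t : ℕ, 0 < t ∧ z ^ t = 1) →
      (∃ P : ℚ[X], P ≠ 0 ∧ P.natDegree ≤ (2 * (h (.inr u)).natDegree) *
        (2 * (h (.inr u)).natDegree) ∧ aeval z P = 0) → z ^ N = 1)
    (hI : ∀ i : I, BalancedAt q h R (.inl i)) (u : U) : BalancedAt q h R (.inr u) := by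
  classical
  intro _ _ l hl t ht ν hν c₀ hc₀ hprod z
  have hB := blocks hq hm hRm L j hL hLf hH hP hN
  by_cases hz : aeval z (weil (q (.inr u)) (h (.inr u))) = 0
  swap
  · have hqC : ((q (.inr u) : ℕ) : ℂ) ≠ 0 := by exact_mod_cast hq _
    have h1 : ((.inr u : I ⊕ U), z) ∉ l := fun h1 => hz (hl _ h1)
    have h2 : ((.inr u : I ⊕ U), (q (.inr u) : ℂ) / z) ∉ l := by
      intro h2
      have h4 := root_conj (hq _) (hm _) (hl _ h2)
      change aeval ((q (.inr u) : ℂ) / ((q (.inr u) : ℂ) / z))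
        (weil (q (.inr u)) (h (.inr u))) = 0 at h4
      rw [div_div_cancel₀ hqC] at h4
      exact hz h4
    exact (List.count_eq_zero.2 h1).trans (List.count_eq_zero.2 h2).symm
  obtain ⟨l', ν', rfl, hl', rfl, hν', hrel⟩ := rel_down L j hL hLR l hl t ν hν c₀ hprod
  have hinj : Function.Injective (Prod.map id j : (I ⊕ U) × L → (I ⊕ U) × ℂ) :=
    Function.Injective.prodMap Function.injective_id j.injective
  have hqj : ∀ (i : I ⊕ U) (x : L), (q i : ℂ) / j x = j (q i / x) := by
    intro i x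
    rw [map_div₀, map_natCast]
  obtain ⟨x, rfl⟩ := hL _ z hz
  have hx : aeval x (weil (q (.inr u)) (h (.inr u))) = 0 := aeval_down j _ x hz
  rw [hqj]
  let _ : BEq ((I ⊕ U) × L) := ⟨fun x y => decide (x = y)⟩
  have : LawfulBEq ((I ⊕ U) × L) :=
    { eq_of_beq := fun {a b} h => of_decide_eq_true h
      rfl := fun {a} => decide_eq_true rfl }
  refine count_transfer (Prod.map id j) hinj l' (.inr u, x) (.inr u, (q (.inr u) : L) / x) ?_
  have hPm : ∀ u, ((P u).map (algebraMap (𝓞 (E u)) (E u))).natDegree = (P u).natDegree := fun u =>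
    (hH u).half.monic.natDegree_map _
  refine nd_balance hq hm L j hB (N := {z : ℂ | aeval z R = 0}) (by
    have h1 : (fun u => (-1) ^ ((P u).map (algebraMap (𝓞 (E u)) (E u))).natDegree *
        ((P u).map (algebraMap (𝓞 (E u)) (E u))).coeff 0) =
        fun u => (-1) ^ (P u).natDegree * ((P u).coeff 0 : E u) := by
      funext u
      rw [hPm, coeff_map]
    rw [h1]
    exact hN) l' hl' t ht ν' hν c₀ hc₀ hrel ?_ ?_ u x hx
  · intro i y hy
    have h1 := hI i _ inferInstance _ hl t ht _ hν c₀ hc₀ hprod (j y)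
    rw [hqj] at h1
    have e1 : ((.inl i : I ⊕ U), j y) = Prod.map id j (.inl i, y) := rfl
    have e2 : ((.inl i : I ⊕ U), j ((q (.inl i) : L) / y)) =
      Prod.map id j (.inl i, (q (.inl i) : L) / y) := rfl
    rw [e1, e2, List.count_map_of_injective l' _ hinj, List.count_map_of_injective l' _ hinj] at h1
    exact h1
  · intro u φ y y' hy hy'
    have hcb : φ ≠ φ.comp (c u) := by
      intro e
      apply (hH u).cne
      exact RingHom.ext fun x => φ.injective (DFunLike.congr_fun e x).symm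
    have hgen := fun σ hσ => prod_aut l' t ν' hν' c₀ hc₀ hrel σ hσ
    refine const_of_swp (i := (.inr u : I ⊕ U)) (c := c u) (q := q) (h := h) (R := R)
      (fun y : L => (l'.count (.inr u, y) : ℤ) -
        (l'.count (.inr u, (q (.inr u) : L) / y) : ℤ)) ((hH u).half.monic.map _) ?_ ?_ ?_ hy hy'
    · intro h2 z hz
      obtain ⟨z', h3, τ, α, α', rfl, rfl, hne, ha, ha'⟩ :=
        all_swaps hq hm hRm L j hL hLf hH hP u (by rwa [hPm] at h2) φ z hz
      refine ⟨_, h3, fun s hs e => ?_⟩
      rw [← map_pow, ← map_pow] at e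
      exact not_rou j (hq _) (hm _) le_rfl (huni u) α α' ha ha' hne s hs (τ.injective e)
    · intro z z' hS hr
      exact swp_count hq hm j (hH u).cc (hB u) l' hl' t ht hgen hcb hS hr
    · intro h3
      exact all_fix hq hm hRm L j hL hLf hH hP u (by rwa [hPm] at h3) φ

omit hLR in
/-- The polynomials are separable. -/
theorem sep_unitary {N : ℕ} (hP : Pats q h R P c f D N) {S : Set ℂ}
    (hN : NonDeg E (fun u => (-1) ^ (P u).natDegree * ((P u).coeff 0 : E u)) S) (u : U) :
    ((weil (q (.inr u)) (h (.inr u))).map (Int.castRingHom ℚ)).Separable := by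
  have hB := blocks hq hm hRm L j hL hLf hH hP hN u
  have hirr := hP.irreducible u (hH u).half.monic (hH u).half.deg
  have h1 : ((weil (q (.inr u)) (h (.inr u))).map (Int.castRingHom ℂ)).Separable := by
    rw [(hH u).half.prod]
    refine separable_prod ?_ ?_
    · intro φ φ' hne
      rw [Function.onFun, HalfPol.map_map, HalfPol.map_map,
        isCoprime_iff_aeval_ne_zero_of_isAlgClosed ℂ ℂ]
      intro a
      by_contra hcon
      push Not at hcon
      obtain ⟨h2, h3⟩ := hcon
      obtain ⟨χ, rfl⟩ := hB.emb φ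
      obtain ⟨χ', rfl⟩ := hB.emb φ'
      have h2' : (((P u).map (algebraMap (𝓞 (E u)) (E u))).map (j.comp χ)).IsRoot a := by
        rw [IsRoot.def, ← coe_aeval_eq_eval]
        exact h2
      have h3' : (((P u).map (algebraMap (𝓞 (E u)) (E u))).map (j.comp χ')).IsRoot a := by
        rw [IsRoot.def, ← coe_aeval_eq_eval]
        exact h3
      have h4 : aeval a (weil (q (.inr u)) (h (.inr u))) = 0 := by
        have h5 : ((weil (q (.inr u)) (h (.inr u))).map (Int.castRingHom ℂ)).eval a = 0 := by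
          rw [(hH u).half.prod, eval_prod]
          refine Finset.prod_eq_zero (Finset.mem_univ (j.comp χ)) ?_
          rw [HalfPol.map_map]
          exact h2'
        rw [eval_map] at h5
        exact h5
      obtain ⟨x, rfl⟩ := hL _ a h4
      rw [isRoot_j] at h2' h3'
      exact hne (by rw [hB.disj χ χ' x h2' h3'])
    · intro φ
      rw [HalfPol.map_map]
      exact hirr.separable.map
  have h2 : ((weil (q (.inr u)) (h (.inr u))).map (Int.castRingHom ℂ)) =
      ((weil (q (.inr u)) (h (.inr u))).map (Int.castRingHom ℚ)).map (algebraMap ℚ ℂ) := by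
    rw [Polynomial.map_map]
    congr 1
  rw [h2, separable_map] at h1
  exact h1

end Main

end Pool.Agent.K7.H1.UM
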