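import Pool.Agent.W458.MF.PDefs
import Pool.Agent.W458.MF.ExDefs

/-!
# Families of varieties with unitary monodromy: definitions
-/

set_option autoImplicit false

open Polynomial NumberField

universe u v

namespace Pool.Agent.K7.H1.UM

open Pool.Agent.H914 Pool.Agent.W534 Pool.Agent.W458.MF Pool.Agent.W458.MF.Fam VarClass Obj
  WeilCohomology

/-- The proportion, among the matrices of rank `r` and determinant `d` over the field with `l`
elements, of those whose characteristic polynomial is in `A`. -/
noncomputable def uproportion (r l : ℕ) (d : ZMod l) (A : Set (ZMod l)[X]) : ℝ :=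
  ({B : Matrix (Fin r) (Fin r) (ZMod l) | B.det = d ∧ B.charpoly ∈ A}.ncard : ℝ) /
    ({B : Matrix (Fin r) (Fin r) (ZMod l) | B.det = d}.ncard : ℝ)

/-- The polynomial `x ^ g * h (x + q / x)`, `g` the degree of `h`, is the product of the conjugates
of the monic polynomial `P` over `E`, and its roots have absolute value `q ^ (1 / 2)`. -/
structure HalfPol (E : Type) [Field E] [NumberField E] (q : ℕ) (h : ℤ[X]) (P : (𝓞 E)[X]) :
    Prop where
  monic : P.Monic
  deg : 0 < P.natDegree
  conjugates : (weilPoly q h).map (Int.castRingHom ℂ) =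
    ∏ φ : E →+* ℂ, P.map (φ.comp (algebraMap (𝓞 E) E))
  abs : ∀ (φ : E →+* ℂ) (z : ℂ), (P.map (φ.comp (algebraMap (𝓞 E) E))).IsRoot z →
    z * (starRingEnd ℂ) z = q

/-- The elements `δ u` of the number fields `E u` are independent relative to `N`: a product of
powers `φ (δ u) ^ k u φ` with odd exponents, and of an element of the submonoid generated by `N`,
is a positive rational number only if the exponents are zero. -/
def NonDeg {U : Type} [Fintype U] (E : U → Type) [∀ u, Field (E u)] [∀ u, NumberField (E u)]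
    (δ : ∀ u, E u) (N : Set ℂ) : Prop :=
  ∀ k : ∀ u, (E u →+* ℂ) → ℤ, (∀ u φ, k u (ComplexEmbedding.conjugate φ) = -k u φ) →
    ∀ ν ∈ Submonoid.closure N, ∀ a : ℚ, 0 < a →
      (∏ u, ∏ φ : E u →+* ℂ, φ (δ u) ^ k u φ) * ν = (a : ℂ) → ∀ u φ, k u φ = 0

/-- The set `T` of homomorphisms to the field with `l` elements does not contain complex conjugate
homomorphisms. -/
def NoPair {E : Type} [Field E] [NumberField E] [IsCMField E] {l : ℕ}
    (T : Finset (𝓞 E →+* ZMod l)) : Prop :=
  ∀ ψ ∈ T, ψ.comp (IsCMField.ringOfIntegersComplexConj E : 𝓞 E →+* 𝓞 E) ∉ T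

/-- The reductions `ψ (P)` of the polynomial `P`, for the homomorphisms `ψ` in `T`, are in the sets
`A ψ`. -/
def RedIn {E : Type} [Field E] {l : ℕ} (P : (𝓞 E)[X])
    (T : Finset (𝓞 E →+* ZMod l)) (A : (𝓞 E →+* ZMod l) → Set (ZMod l)[X]) : Prop :=
  ∀ ψ ∈ T, P.map ψ ∈ A ψ

/-- The family of varieties of dimension `n` over `Y` has full unitary monodromy of rank `r` for the
CM field `E`, modulo all large primes modulo which the polynomial `D` splits: the characteristic
polynomial of the Frobenius endomorphism of the member `s` over the field with `p ^ m` elements is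
the product of the conjugates of the polynomial `P m s` over `E` of degree `r` (the
characteristic polynomial on the eigenspaces of `E`), the determinant of which is `δ m`, and for all
such primes `l ≠ l'` and sets `T` and `T'` of homomorphisms `ψ` from the ring of integers of `E` to
the fields with `l` and `l'` elements, without complex conjugate homomorphisms, the
matrices of the Frobenius endomorphisms on the eigenspaces modulo `ψ` are asymptotically, as `m`
tends to infinity, independent and equidistributed in the sets of the matrices of rank `r` and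
determinant `ψ (δ m)`, as far as their characteristic polynomials are concerned. -/
structure HasUnitaryMonodromy {k : Type u} [Field k] {𝒱 : VarClass k} {ops : CycleOps 𝒱}
    {W : WeilCohomology.{u, v} ops} {Y : 𝒱.Obj} (F : Family W Y) {p : ℕ} (Φ : FrobSystem W p)
    (E : Type) [Field E] [NumberField E] [IsCMField E] (n r l₀ : ℕ) (D : ℤ[X]) (δ : ℕ → 𝓞 E)
    (P : ∀ m, F.S m → (𝓞 E)[X]) : Prop where
  isMember : ∀ m, 0 < m → ∀ s : F.S m, Pol.IsMember (F.member m s) Φ m 0 0 1
  dim : ∀ m (s : F.S m), (F.member m s).obj.dim = n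
  halfPol : ∀ m, 0 < m → ∀ s : F.S m, HalfPol E (p ^ (n * m)) (F.member m s).pol (P m s)
  degree : ∀ m (s : F.S m), (P m s).natDegree = r
  det : ∀ m, 0 < m → ∀ s : F.S m, (P m s).coeff 0 = (-1) ^ r * δ m
  monic : D.Monic
  separable : (D.map (Int.castRingHom ℚ)).Separable
  equidistributed : ∀ l l' : ℕ, l.Prime → l'.Prime → l₀ ≤ l → l₀ ≤ l' → l ≠ l' →
    SplitsAt D l → SplitsAt D l' → ∀ (T : Finset (𝓞 E →+* ZMod l))
    (T' : Finset (𝓞 E →+* ZMod l')), NoPair T → NoPair T' → ∀ ε : ℝ, 0 < ε → ∃ m₀ : ℕ,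
      ∀ m ≥ m₀, Nonempty (F.S m) → ∀ (A : (𝓞 E →+* ZMod l) → Set (ZMod l)[X])
        (A' : (𝓞 E →+* ZMod l') → Set (ZMod l')[X]),
        |({s : F.S m | RedIn (P m s) T A ∧ RedIn (P m s) T' A'}.ncard : ℝ) /
            (Nat.card (F.S m) : ℝ) -
          (∏ ψ ∈ T, uproportion r l (ψ (δ m)) (A ψ)) *
            ∏ ψ ∈ T', uproportion r l' (ψ (δ m)) (A' ψ)| ≤ ε

/-- The family of varieties over `Y` has full unitary monodromy for the CM field `E`, with the
determinants `δ m` of the Frobenius endomorphisms on the eigenspaces of `E`. -/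
def HasUnitary {k : Type u} [Field k] {𝒱 : VarClass k} {ops : CycleOps 𝒱}
    {W : WeilCohomology.{u, v} ops} {Y : 𝒱.Obj} (F : Family W Y) {p : ℕ} (Φ : FrobSystem W p)
    (E : Type) [Field E] [NumberField E] [IsCMField E] (δ : ℕ → 𝓞 E) : Prop :=
  ∃ n r l₀ D P, HasUnitaryMonodromy F Φ E n r l₀ D δ P

/-- The conjugates of the eigenvalues of the Frobenius endomorphism of `Y`. -/
def eigConj {k : Type u} [Field k] {𝒱 : VarClass k} {ops : CycleOps 𝒱}
    {W : WeilCohomology.{u, v} ops} {p : ℕ} (Φ : FrobSystem W p) (Y : 𝒱.Obj) : Set ℂ :=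
  {z | ∃ μ : W.K, Module.End.HasEigenvalue (W.map (Φ.Fr Y)).toLinearMap μ ∧
    aeval z (minpoly ℤ μ) = 0}

end Pool.Agent.K7.H1.UM
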