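import Pool.Agent.K7.H1.UM.Block
import Pool.Agent.K7.H1.UM.UDefs

/-!
# Relations between the roots and relations between the determinants
-/

set_option autoImplicit false

open Polynomial NumberField

namespace Pool.Agent.K7.H1.UM

open Pool.Agent.W458.MF Pool.Agent.W521.Frob Pool.Agent.W521.Criterion

section Ratio

variable {J : Type} [Fintype J] {L : Type} [Field L]

open Classical in
lemma prod_single (S : J → Finset L) (x : J × L) (hx : x.2 ∈ S x.1) (f : L → L) :
    ∏ i, ∏ z ∈ S i, (if (i, z) = x then f z else 1) = f x.2 := by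
  rw [Finset.prod_eq_single x.1, Finset.prod_eq_single x.2]
  · rw [if_pos rfl]
  · intro z _ hz
    rw [if_neg fun e => hz (congrArg Prod.snd e)]
  · intro h
    exact absurd hx h
  · intro i _ hi
    refine Finset.prod_eq_one fun z _ => ?_
    rw [if_neg fun e => hi (congrArg Prod.fst e)]
  · intro h
    exact absurd (Finset.mem_univ _) h

open Classical in
/-- The square of a product of roots. -/
lemma prod_ratio [BEq (J × L)] [LawfulBEq (J × L)] (q : J → L) (hq : ∀ i, q i ≠ 0) (S : J → Finset L)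
    (hS0 : ∀ i, ∀ z ∈ S i, z ≠ 0) (hSq : ∀ i, ∀ z ∈ S i, q i / z ∈ S i) (l : List (J × L))
    (hl : ∀ x ∈ l, x.2 ∈ S x.1) : (l.map fun x => x.2).prod ^ 2 =
      (l.map fun x => q x.1).prod *
        ∏ i, ∏ z ∈ S i, z ^ ((l.count (i, z) : ℤ) - (l.count (i, q i / z) : ℤ)) := by
  induction l with
  | nil => simp
  | cons x l ih =>
    have ih' := ih fun y hy => hl y (List.mem_cons_of_mem x hy)
    have hx := hl x List.mem_cons_self
    have hx0 := hS0 _ _ hx
    have e1 : ∀ i, ∀ z ∈ S i,
        z ^ (((x :: l).count (i, z) : ℤ) - ((x :: l).count (i, q i / z) : ℤ)) =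
        z ^ ((l.count (i, z) : ℤ) - (l.count (i, q i / z) : ℤ)) *
          ((if (i, z) = x then z else 1) *
            (if (i, z) = (x.1, q x.1 / x.2) then z⁻¹ else 1)) := by
      intro i z hz
      have hz0 := hS0 i z hz
      have h1 : ∀ y : J × L, (x :: l).count y = l.count y + if y = x then 1 else 0 := by
        intro y
        rw [List.count_cons]
        by_cases h : x = y
        · rw [if_pos (by rw [h]; exact beq_self_eq_true y), if_pos h.symm]
        · rw [if_neg (by rw [beq_iff_eq]; exact h), if_neg (fun e => h e.symm)]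
      have h2 : ((i, q i / z) = x) ↔ ((i, z) = (x.1, q x.1 / x.2)) := by
        obtain ⟨i', y⟩ := x
        simp only [Prod.mk.injEq]
        constructor
        · rintro ⟨rfl, rfl⟩
          exact ⟨rfl, (div_div_cancel₀ (hq i)).symm⟩
        · rintro ⟨rfl, rfl⟩
          exact ⟨rfl, div_div_cancel₀ (hq i)⟩
      rw [h1, h1]
      have h3 : (((l.count (i, z) + if (i, z) = x then 1 else 0 : ℕ) : ℤ) -
          ((l.count (i, q i / z) + if (i, q i / z) = x then 1 else 0 : ℕ) : ℤ)) =
          ((l.count (i, z) : ℤ) - (l.count (i, q i / z) : ℤ)) +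
          ((if (i, z) = x then 1 else 0) + (if (i, z) = (x.1, q x.1 / x.2) then -1 else 0)) := by
        simp only [h2]
        split_ifs <;> push_cast <;> ring
      rw [h3, zpow_add₀ hz0, zpow_add₀ hz0]
      congr 2
      · split_ifs
        · rw [zpow_one]
        · rw [zpow_zero]
      · split_ifs
        · rw [zpow_neg_one]
        · rw [zpow_zero]
    have e2 : ∏ i, ∏ z ∈ S i,
        z ^ (((x :: l).count (i, z) : ℤ) - ((x :: l).count (i, q i / z) : ℤ)) =
        (∏ i, ∏ z ∈ S i, z ^ ((l.count (i, z) : ℤ) - (l.count (i, q i / z) : ℤ))) *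
          (x.2 * (q x.1 / x.2)⁻¹) := by
      rw [Finset.prod_congr rfl fun i _ => Finset.prod_congr rfl (e1 i)]
      simp only [Finset.prod_mul_distrib]
      rw [prod_single S x hx (fun z => z), prod_single S (x.1, q x.1 / x.2) (hSq _ _ hx)
        (fun z => z⁻¹)]
    rw [e2, List.map_cons, List.prod_cons, mul_pow, ih', List.map_cons, List.prod_cons]
    have hqx := hq x.1
    field_simp

end Ratio

section Main

variable {I U : Type} [Fintype I] [Fintype U] {q : I ⊕ U → ℕ} {h : I ⊕ U → ℤ[X]}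
  (hq : ∀ i, q i ≠ 0) (hm : ∀ i, (h i).Monic)
  {E : U → Type} [∀ u, Field (E u)] [∀ u, NumberField (E u)] {c : ∀ u, E u →+* E u}
  {P : ∀ u, (E u)[X]} (L : Type) [Field L] [NumberField L] (j : L →+* ℂ)

/-- The data of the blocks of roots for a unitary index. -/
structure Blocks (q : ℕ) (h : ℤ[X]) (E : Type) [Field E] [NumberField E] (c : E →+* E)
    (P : E[X]) (L : Type) [Field L] [NumberField L] (j : L →+* ℂ) : Prop where
  monic : P.Monic
  deg : 0 < P.natDegree
  root : ∀ z : L, aeval z (weil q h) = 0 ↔ ∃ φ : E →+* L, (P.map φ).IsRoot z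
  splits : ∀ φ : E →+* L, (P.map φ).Splits
  nodup : ∀ φ : E →+* L, (P.map φ).roots.Nodup
  dual : ∀ (φ : E →+* L) (z : L), (P.map φ).IsRoot z → (P.map (φ.comp c)).IsRoot (q / z)
  disj : ∀ (φ φ' : E →+* L) (z : L), (P.map φ).IsRoot z → (P.map φ').IsRoot z → φ = φ'
  conj : ∀ φ : E →+* ℂ, φ.comp c = ComplexEmbedding.conjugate φ
  emb : ∀ φ' : E →+* ℂ, ∃ φ : E →+* L, j.comp φ = φ'

include hq hm in
/-- If the relation is balanced for the indices in `I`, and the differences of the exponents are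
constant on the blocks for the indices in `U`, and the determinants are independent, then the
relation is balanced. -/
theorem nd_balance [BEq ((I ⊕ U) × L)] [LawfulBEq ((I ⊕ U) × L)] (hB : ∀ u, Blocks (q (.inr u)) (h (.inr u)) (E u) (c u) (P u) L j)
    {N : Set ℂ} (hN : NonDeg E (fun u => (-1) ^ (P u).natDegree * (P u).coeff 0) N)
    (l : List ((I ⊕ U) × L)) (hl : ∀ x ∈ l, aeval x.2 (weil (q x.1) (h x.1)) = 0) (t : ℕ)
    (ht : 0 < t) (ν : L) (hν : j ν ∈ Submonoid.closure N) (c₀ : ℕ) (hc₀ : 0 < c₀)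
    (hrel : (l.map fun x => x.2).prod ^ t * ν = (c₀ : L))
    (hI : ∀ (i : I) (z : L), aeval z (weil (q (.inl i)) (h (.inl i))) = 0 →
      l.count (.inl i, z) = l.count (.inl i, (q (.inl i) : L) / z))
    (hU : ∀ (u : U) (φ : E u →+* L) (z z' : L), ((P u).map φ).IsRoot z →
      ((P u).map φ).IsRoot z' →
      (l.count (.inr u, z) : ℤ) - (l.count (.inr u, (q (.inr u) : L) / z) : ℤ) =
      (l.count (.inr u, z') : ℤ) - (l.count (.inr u, (q (.inr u) : L) / z') : ℤ))
    (u : U) (z : L) (hz : aeval z (weil (q (.inr u)) (h (.inr u))) = 0) :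
    l.count (.inr u, z) = l.count (.inr u, (q (.inr u) : L) / z) := by
  classical
  have hqL : ∀ i, (q i : L) ≠ 0 := fun i => by exact_mod_cast hq i
  set S : I ⊕ U → Finset L := fun i =>
    ((weil (q i) (h i)).map (algebraMap ℤ L)).roots.toFinset with hSdef
  have hS : ∀ i z, z ∈ S i ↔ aeval z (weil (q i) (h i)) = 0 := by
    intro i z
    rw [hSdef]
    simp only
    rw [Multiset.mem_toFinset, mem_roots ((weil_monic (q i) (hm i)).map _).ne_zero, IsRoot.def,
      eval_map]
    rfl
  have hS0 : ∀ i, ∀ z ∈ S i, z ≠ 0 := fun i z hz => root_ne_zero (hq i) (hm i) ((hS i z).1 hz)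
  have hSq : ∀ i, ∀ z ∈ S i, (q i : L) / z ∈ S i := fun i z hz =>
    (hS i _).2 (root_conj (hq i) (hm i) ((hS i z).1 hz))
  have key := prod_ratio (fun i => (q i : L)) hqL S hS0 hSq l fun x hx => (hS _ _).2 (hl x hx)
  set e : ∀ i : I ⊕ U, L → ℤ := fun i z =>
    (l.count (i, z) : ℤ) - (l.count (i, (q i : L) / z) : ℤ) with he
  -- the exponents
  have hex : ∀ (u : U) (φ : E u →+* L), ∃ z, ((P u).map φ).IsRoot z := by
    intro u φ
    have h1 : ((P u).map φ).degree ≠ 0 := by
      rw [degree_eq_natDegree (((hB u).monic.map φ).ne_zero), (hB u).monic.natDegree_map]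
      have := (hB u).deg
      intro h2
      have h3 : (P u).natDegree = 0 := by exact_mod_cast h2
      omega
    obtain ⟨z, hz⟩ := ((hB u).splits φ).exists_eval_eq_zero h1
    exact ⟨z, hz⟩
  choose zr hzr using hex
  set k : ∀ u, (E u →+* L) → ℤ := fun u φ => e (.inr u) (zr u φ) with hk
  have hek : ∀ u φ z, ((P u).map φ).IsRoot z → e (.inr u) z = k u φ := fun u φ z hz =>
    hU u φ z _ hz (hzr u φ)
  have hodd : ∀ u φ, k u (φ.comp (c u)) = -k u φ := by
    intro u φ
    have h1 := (hB u).dual φ _ (hzr u φ)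
    rw [← hek u _ _ h1]
    simp only [hk, he]
    rw [div_div_cancel₀ (hqL _)]
    ring
  -- the products over the blocks
  have hprodI : ∀ i : I, ∏ z ∈ S (.inl i), z ^ e (.inl i) z = 1 := by
    intro i
    refine Finset.prod_eq_one fun z hz => ?_
    have h1 := hI i z ((hS _ _).1 hz)
    simp only [he]
    rw [h1, sub_self, zpow_zero]
  set δ : ∀ u, E u := fun u => (-1) ^ (P u).natDegree * (P u).coeff 0 with hδ
  have hprodU : ∀ u : U, ∏ z ∈ S (.inr u), z ^ e (.inr u) z =
      ∏ φ : E u →+* L, φ (δ u) ^ k u φ := by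
    intro u
    have h1 : S (.inr u) = Finset.univ.biUnion fun φ : E u →+* L =>
        ((P u).map φ).roots.toFinset := by
      ext z
      rw [hS, (hB u).root, Finset.mem_biUnion]
      constructor
      · rintro ⟨φ, hφ⟩
        exact ⟨φ, Finset.mem_univ _, by
          rw [Multiset.mem_toFinset, mem_roots ((hB u).monic.map φ).ne_zero]
          exact hφ⟩
      · rintro ⟨φ, -, hφ⟩
        rw [Multiset.mem_toFinset, mem_roots ((hB u).monic.map φ).ne_zero] at hφ
        exact ⟨φ, hφ⟩
    rw [h1, Finset.prod_biUnion]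
    · refine Finset.prod_congr rfl fun φ _ => ?_
      have h2 : ∀ z ∈ ((P u).map φ).roots.toFinset, z ^ e (.inr u) z = z ^ k u φ := by
        intro z hz
        rw [Multiset.mem_toFinset, mem_roots ((hB u).monic.map φ).ne_zero] at hz
        rw [hek u φ z hz]
      rw [Finset.prod_congr rfl h2, Finset.prod_zpow]
      congr 1
      have h3 : ∏ z ∈ ((P u).map φ).roots.toFinset, z = ((P u).map φ).roots.prod := by
        rw [Finset.prod_eq_multiset_prod, Multiset.toFinset_val,
          ((hB u).nodup φ).dedup, Multiset.map_id']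
      rw [h3]
      have h4 := ((hB u).splits φ).coeff_zero_eq_prod_roots_of_monic ((hB u).monic.map φ)
      rw [(hB u).monic.natDegree_map, coeff_map] at h4
      rw [hδ]
      simp only
      rw [map_mul, map_pow, map_neg, map_one, h4, ← mul_assoc, ← pow_add, ← two_mul, pow_mul]
      simp
    · intro φ _ φ' _ hφφ
      rw [Function.onFun, Finset.disjoint_left]
      intro z hz hz'
      rw [Multiset.mem_toFinset, mem_roots ((hB u).monic.map φ).ne_zero] at hz
      rw [Multiset.mem_toFinset, mem_roots ((hB u).monic.map φ').ne_zero] at hz'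
      exact hφφ ((hB u).disj φ φ' z hz hz')
  have hprod : ∏ i, ∏ z ∈ S i, z ^ e i z = ∏ u, ∏ φ : E u →+* L, φ (δ u) ^ k u φ := by
    rw [Fintype.prod_sum_type, Finset.prod_congr rfl fun i _ => hprodI i, Finset.prod_const_one,
      one_mul, Finset.prod_congr rfl fun u _ => hprodU u]
  -- the relation between the determinants
  set Q : ℕ := (l.map fun x => q x.1).prod with hQ
  have hQ0 : 0 < Q := by
    rw [Nat.pos_iff_ne_zero, hQ]
    intro h0
    rw [List.prod_eq_zero_iff, List.mem_map] at h0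
    obtain ⟨x, -, hx⟩ := h0
    exact hq _ hx
  have hQL : (l.map fun x => (q x.1 : L)).prod = (Q : L) := by
    rw [hQ, Nat.cast_list_prod, List.map_map]
    rfl
  have hkey : (l.map fun x => x.2).prod ^ 2 =
      (Q : L) * ∏ u, ∏ φ : E u →+* L, φ (δ u) ^ k u φ := by
    rw [← hprod, ← hQL]
    exact key
  set Pr : L := ∏ u, ∏ φ : E u →+* L, φ (δ u) ^ k u φ with hPr
  have h2 : (Q : L) ^ t * Pr ^ t * ν ^ 2 = (c₀ : L) ^ 2 := by
    rw [← hrel, mul_pow, ← mul_pow, ← hkey]
    ring
  have h3 : j (Pr ^ t) * (j ν * j ν) = (((c₀ : ℚ) ^ 2 / (Q : ℚ) ^ t : ℚ) : ℂ) := by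
    have h4 := congrArg j h2
    rw [map_mul, map_mul, map_pow, map_natCast, map_pow j ν, map_pow j (c₀ : L), map_natCast] at h4
    have hQC : ((Q : ℕ) : ℂ) ^ t ≠ 0 := pow_ne_zero _ (by exact_mod_cast hQ0.ne')
    push_cast
    rw [eq_div_iff hQC, ← h4]
    ring
  -- the embeddings
  have hbij : ∀ u, Function.Bijective (fun φ : E u →+* L => j.comp φ) := fun u =>
    ⟨fun φ φ' hφ => RingHom.ext fun x => j.injective (DFunLike.congr_fun hφ x),
      fun φ' => (hB u).emb φ'⟩
  let em : ∀ u, (E u →+* L) ≃ (E u →+* ℂ) := fun u => Equiv.ofBijective _ (hbij u)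
  have hem : ∀ u φ, em u φ = j.comp φ := fun u φ => rfl
  have h5 : j (Pr ^ t) = ∏ u, ∏ φ : E u →+* ℂ, φ (δ u) ^ ((t : ℤ) * k u ((em u).symm φ)) := by
    rw [map_pow, hPr, map_prod, ← Finset.prod_pow]
    refine Finset.prod_congr rfl fun u _ => ?_
    rw [map_prod, ← Finset.prod_pow]
    refine Fintype.prod_equiv (em u) _ _ fun φ => ?_
    rw [(em u).symm_apply_apply, hem, map_zpow₀, mul_comm, zpow_mul, zpow_natCast]
    rfl
  have h6 := hN (fun u φ => (t : ℤ) * k u ((em u).symm φ)) (by
    intro u φ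
    have h7 : (em u).symm (ComplexEmbedding.conjugate φ) = ((em u).symm φ).comp (c u) := by
      rw [Equiv.symm_apply_eq, hem, ← RingHom.comp_assoc, ← hem, (em u).apply_symm_apply,
        (hB u).conj]
    rw [h7, hodd]
    ring) (j ν * j ν) (mul_mem hν hν) ((c₀ : ℚ) ^ 2 / (Q : ℚ) ^ t) (by
      have : (0 : ℚ) < c₀ := by exact_mod_cast hc₀
      have : (0 : ℚ) < Q := by exact_mod_cast hQ0
      positivity) (by rw [← h5]; exact h3)
  obtain ⟨φ, hφ⟩ := ((hB u).root z).1 hz
  have h7 := h6 u (em u φ)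
  simp only [Equiv.symm_apply_apply] at h7
  have h8 : k u φ = 0 := by
    rcases mul_eq_zero.1 h7 with h8 | h8
    · have : t = 0 := by exact_mod_cast h8
      omega
    · exact h8
  have h9 := hek u φ z hφ
  rw [h8] at h9
  simp only [he] at h9
  omega

end Main

end Pool.Agent.K7.H1.UM
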