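import Pool.Agent.K7.H1.UM.Frob

/-!
# Primes which split completely in a number field
-/

set_option autoImplicit false

open Polynomial NumberField

namespace Pool.Agent.K7.H1.UM

open Pool.Agent.W458.MF Pool.Agent.W521.Frob

/-- `θ` is an integral generator of the number field `E`, a root of the polynomial `f`, and the
index of the order generated by `θ` divides `D`. -/
structure Prim (E : Type) [Field E] [NumberField E] (f : ℤ[X]) (θ : 𝓞 E) (D : ℕ) : Prop where
  monic : f.Monic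
  sep : (f.map (Int.castRingHom ℚ)).Separable
  root : aeval θ f = 0
  pos : 0 < D
  idx : ∀ x : 𝓞 E, ∃ g : ℤ[X], (D : 𝓞 E) * x = aeval θ g
  lift : ∀ (L : Type) [Field L] [CharZero L] (y : L), aeval y f = 0 →
    ∃ φ : E →+* L, φ (θ : E) = y

theorem exists_prim (E : Type) [Field E] [NumberField E] :
    ∃ (f : ℤ[X]) (θ : 𝓞 E) (D : ℕ), Prim E f θ D := by
  obtain ⟨α, hα⟩ := Field.exists_primitive_element ℚ E
  obtain ⟨n, hn, hint⟩ := ((IsFractionRing.isAlgebraic_iff ℤ ℚ E).2
    (Algebra.IsAlgebraic.isAlgebraic α)).exists_integral_multiple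
  set t : E := n • α with ht
  have htop : IntermediateField.adjoin ℚ {t} = ⊤ := by
    rw [eq_top_iff, ← hα, IntermediateField.adjoin_simple_le_iff]
    have h1 : t ∈ IntermediateField.adjoin ℚ {t} := IntermediateField.mem_adjoin_simple_self ℚ t
    have h2 : α = ((n : ℚ)⁻¹) • t := by
      rw [ht, ← Int.cast_smul_eq_zsmul ℚ n α, smul_smul, inv_mul_cancel₀ (by exact_mod_cast hn),
        one_smul]
    rw [h2]
    exact IntermediateField.smul_mem _ h1
  set θ : 𝓞 E := ⟨t, hint⟩ with hθ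
  have hθt : (θ : E) = t := rfl
  have hintQ : IsIntegral ℚ t := Algebra.IsIntegral.isIntegral t
  have hmin : minpoly ℚ t = (minpoly ℤ t).map (algebraMap ℤ ℚ) :=
    minpoly.isIntegrallyClosed_eq_field_fractions' ℚ hint
  -- the power basis
  let pb : PowerBasis ℚ E := (IntermediateField.adjoin.powerBasis hintQ).map
    ((IntermediateField.equivOfEq htop).trans IntermediateField.topEquiv)
  have hgen : pb.gen = t := by
    simp only [pb, PowerBasis.map_gen]
    rfl
  have hgint : IsIntegral ℤ pb.gen := by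
    rw [hgen]
    exact hint
  have hdint : IsIntegral ℤ (Algebra.discr ℚ pb.basis) := by
    apply Algebra.discr_isIntegral
    intro i
    rw [pb.basis_eq_pow]
    exact hgint.pow _
  obtain ⟨D, hD⟩ := IsIntegrallyClosed.isIntegral_iff.1 hdint
  have hD0 : D ≠ 0 := by
    rintro rfl
    rw [map_zero] at hD
    exact Algebra.discr_not_zero_of_basis ℚ pb.basis hD.symm
  refine ⟨minpoly ℤ t, θ, D.natAbs, minpoly.monic hint, ?_, ?_, ?_, ?_, ?_⟩
  · have h1 := (minpoly.irreducible hintQ).separable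
    rw [hmin] at h1
    exact h1
  · apply RingOfIntegers.coe_injective
    have h5 := aeval_algebraMap_apply E θ (minpoly ℤ t)
    exact h5.symm.trans ((minpoly.aeval ℤ t).trans (map_zero _).symm)
  · exact Int.natAbs_pos.2 hD0
  · intro x
    have h1 := Algebra.discr_mul_isIntegral_mem_adjoin (K := ℚ) hgint (z := (x : E)) x.2
    rw [← hD, hgen, Algebra.adjoin_singleton_eq_range_aeval] at h1
    obtain ⟨g, hg⟩ := h1
    have h2 : ((D : 𝓞 E) * x) = aeval θ g := by
      apply RingOfIntegers.coe_injective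
      have h5 := aeval_algebraMap_apply E θ g
      have h6 : (algebraMap (𝓞 E) E) (aeval θ g) = aeval t g := h5.symm
      rw [h6]
      have h7 : (aeval t g : E) = (algebraMap ℤ ℚ D) • (x : E) := hg
      rw [h7, map_mul, map_intCast, Algebra.smul_def]
      simp
    rcases Int.natAbs_eq D with h | h
    · refine ⟨g, ?_⟩
      rw [← h2]
      congr 1
      conv_rhs => rw [h]
      simp
    · refine ⟨-g, ?_⟩
      rw [map_neg, ← h2]
      have h3 : ((D : ℤ) : 𝓞 E) = -((D.natAbs : ℕ) : 𝓞 E) := by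
        conv_lhs => rw [h]
        simp
      rw [h3]
      ring
  · intro L _ _ y hy
    have h1 : aeval y (minpoly ℚ pb.gen) = 0 := by
      rw [hgen, hmin, aeval_map_algebraMap]
      exact hy
    refine ⟨(pb.lift y h1 : E →+* L), ?_⟩
    have h2 := pb.lift_gen y h1
    rw [hgen] at h2
    exact h2

section Split

variable {E : Type} [Field E] [NumberField E] {f : ℤ[X]} {θ : 𝓞 E} {D : ℕ}

/-- homomorphisms are determined by the image of the generator -/
lemma Prim.ext_int {k : Type*} [Field k] (H : Prim E f θ D) (hD : (D : k) ≠ 0)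
    (χ χ' : 𝓞 E →+* k) (h : χ θ = χ' θ) : χ = χ' := by
  ext x
  obtain ⟨g, hg⟩ := H.idx x
  have h1 : ∀ χ : 𝓞 E →+* k, (D : k) * χ x = eval₂ (Int.castRingHom k) (χ θ) g := by
    intro χ
    have h2 := congrArg χ hg
    rw [map_mul, map_natCast] at h2
    rw [h2]
    have h3 := Polynomial.hom_eval₂ g (algebraMap ℤ (𝓞 E)) χ θ
    rw [RingHom.ext_int (χ.comp (algebraMap ℤ (𝓞 E))) (Int.castRingHom k)] at h3
    exact h3
  apply mul_left_cancel₀ hD
  rw [h1 χ, h1 χ', h]

lemma Prim.ext {L : Type*} [Field L] [CharZero L] (H : Prim E f θ D) (φ φ' : E →+* L)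
    (h : φ (θ : E) = φ' (θ : E)) : φ = φ' := by
  have h1 : φ.comp (algebraMap (𝓞 E) E) = φ'.comp (algebraMap (𝓞 E) E) := by
    refine H.ext_int ?_ _ _ h
    exact_mod_cast H.pos.ne'
  exact IsLocalization.ringHom_ext (nonZeroDivisors (𝓞 E)) h1

variable {l : ℕ} [Fact l.Prime]

/-- homomorphisms to fields of characteristic `l` have values in the prime field -/
lemma Prim.factor {k : Type*} [Field k] [CharP k l] (H : Prim E f θ D) (hD : ¬ l ∣ D)
    (hf : SplitsMod f l) (χ : 𝓞 E →+* k) :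
    ∃ ψ : 𝓞 E →+* ZMod l, ∀ x, χ x = ZMod.castHom (dvd_refl l) k (ψ x) := by
  set cst := ZMod.castHom (dvd_refl l) k with hcst
  have hDl : (D : ZMod l) ≠ 0 := by
    rw [Ne, ZMod.natCast_eq_zero_iff]
    exact hD
  have hDk : (D : k) ≠ 0 := by
    intro h
    apply hDl
    apply cst.injective
    rw [map_natCast, h, map_zero]
  obtain ⟨T, hT⟩ := hf
  obtain ⟨t, ht⟩ : ∃ t : ZMod l, χ θ = cst t := by
    have h1 : eval₂ (Int.castRingHom k) (χ θ) f = 0 := by
      have h3 := Polynomial.hom_eval₂ f (algebraMap ℤ (𝓞 E)) χ θ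
      rw [RingHom.ext_int (χ.comp (algebraMap ℤ (𝓞 E))) (Int.castRingHom k)] at h3
      rw [← h3]
      have h4 : eval₂ (algebraMap ℤ (𝓞 E)) θ f = 0 := H.root
      rw [h4, map_zero]
    rw [← RingHom.ext_int (cst.comp (Int.castRingHom (ZMod l))) (Int.castRingHom k),
      ← eval_map, ← Polynomial.map_map, hT, Polynomial.map_prod, eval_prod,
      Finset.prod_eq_zero_iff] at h1
    obtain ⟨t, -, ht⟩ := h1
    rw [Polynomial.map_sub, map_X, map_C, eval_sub, eval_X, eval_C, sub_eq_zero] at ht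
    exact ⟨t, ht⟩
  have hex : ∀ x, ∃ c : ZMod l, χ x = cst c := by
    intro x
    obtain ⟨g, hg⟩ := H.idx x
    have h2 := congrArg χ hg
    rw [map_mul, map_natCast] at h2
    have h3 := Polynomial.hom_eval₂ g (algebraMap ℤ (𝓞 E)) χ θ
    rw [RingHom.ext_int (χ.comp (algebraMap ℤ (𝓞 E))) (cst.comp (Int.castRingHom (ZMod l))),
      ht, ← Polynomial.hom_eval₂] at h3
    refine ⟨eval₂ (Int.castRingHom (ZMod l)) t g / (D : ZMod l), ?_⟩
    rw [map_div₀, map_natCast, eq_div_iff hDk, mul_comm, h2, ← h3]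
    rfl
  choose ψ hψ using hex
  refine ⟨⟨⟨⟨ψ, ?_⟩, ?_⟩, ?_, ?_⟩, hψ⟩
  · apply cst.injective
    rw [← hψ, map_one, map_one]
  · intro x y
    apply cst.injective
    rw [← hψ, map_mul, map_mul, ← hψ, ← hψ]
  · apply cst.injective
    change cst (ψ 0) = _
    rw [← hψ, map_zero, map_zero]
  · intro x y
    apply cst.injective
    change cst (ψ (x + y)) = cst (ψ x + ψ y)
    rw [← hψ, map_add, map_add, ← hψ, ← hψ]

lemma Prim.sep_mod {k : Type*} [Field k] [CharP k l] (hf : SplitsMod f l) :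
    (f.map (Int.castRingHom k)).Separable := by
  obtain ⟨T, hT⟩ := hf
  set cst := ZMod.castHom (dvd_refl l) k with hcst
  have h1 : f.map (Int.castRingHom k) = ∏ t ∈ T, (X - C (cst t)) := by
    rw [← RingHom.ext_int (cst.comp (Int.castRingHom (ZMod l))) (Int.castRingHom k),
      ← Polynomial.map_map, hT, Polynomial.map_prod]
    refine Finset.prod_congr rfl fun t _ => ?_
    rw [Polynomial.map_sub, map_X, map_C]
  rw [h1]
  refine separable_prod_X_sub_C_iff'.2 ?_
  intro a _ b _ hab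
  exact cst.injective hab

/-- an automorphism does not fix any homomorphism -/
lemma Prim.conj_ne (H : Prim E f θ D) (hf : SplitsMod f l) (c : E →+* E) (hc : c ≠ RingHom.id E)
    (c' : 𝓞 E →+* 𝓞 E) (hc' : ∀ x, ((c' x : 𝓞 E) : E) = c x) (ψ : 𝓞 E →+* ZMod l) :
    ψ.comp c' ≠ ψ := by
  intro h
  have h1 : c' θ ≠ θ := by
    intro h2
    apply hc
    refine H.ext c _ ?_
    rw [← hc', h2]
    rfl
  have h2 : ψ (c' θ) = ψ θ := DFunLike.congr_fun h θ
  apply h1
  refine eq_of_map_eq ψ f ?_ (c' θ) θ ?_ H.root h2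
  · have := Prim.sep_mod (k := ZMod l) hf
    exact this
  · have h3 := Polynomial.hom_eval₂ f (algebraMap ℤ (𝓞 E)) c' θ
    rw [RingHom.ext_int (c'.comp (algebraMap ℤ (𝓞 E))) (algebraMap ℤ (𝓞 E))] at h3
    have h4 : eval₂ (algebraMap ℤ (𝓞 E)) θ f = 0 := H.root
    rw [h4, map_zero] at h3
    exact h3.symm

end Split

section Galois

variable {E : Type} [Field E] [NumberField E] {f : ℤ[X]} {θ : 𝓞 E} {D : ℕ}
  {L : Type} [Field L] [NumberField L] {k : Type} [Field k] {l : ℕ} [Fact l.Prime] [CharP k l]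

/-- The Frobenius element fixes the conjugates of `E`. -/
lemma Prim.fixed (H : Prim E f θ D) (hD : ¬ l ∣ D) (hf : SplitsMod f l) (ρ : 𝓞 L →+* k)
    (σ : L ≃ₐ[ℚ] L) (hσ : ∀ x : 𝓞 L, ρ (σ • x) = ρ x ^ l) (φ : E →+* L) (x : E) :
    σ (φ x) = φ x := by
  have h1 : ((σ : L →+* L).comp φ) = φ := by
    refine H.ext _ _ ?_
    set b : 𝓞 L := RingOfIntegers.mapRingHom φ θ with hb
    have hbL : (b : L) = φ (θ : E) := rfl
    obtain ⟨ψ, hψ⟩ := H.factor hD hf (ρ.comp (RingOfIntegers.mapRingHom φ))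
    have h2 : ρ b = ZMod.castHom (dvd_refl l) k (ψ θ) := hψ θ
    have hroot : ∀ y : 𝓞 L, aeval (y : L) f = 0 → aeval y f = 0 := by
      intro y hy
      apply RingOfIntegers.coe_injective
      have h5 := aeval_algebraMap_apply L y f
      exact h5.symm.trans (hy.trans (map_zero _).symm)
    have hφθ : aeval (φ (θ : E)) f = 0 := by
      have h3 := Polynomial.hom_eval₂ f (algebraMap ℤ (𝓞 E)) (φ.comp (algebraMap (𝓞 E) E)) θ
      rw [RingHom.ext_int ((φ.comp (algebraMap (𝓞 E) E)).comp (algebraMap ℤ (𝓞 E)))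
        (algebraMap ℤ L)] at h3
      have h4 : eval₂ (algebraMap ℤ (𝓞 E)) θ f = 0 := H.root
      rw [h4, map_zero] at h3
      exact h3.symm
    have h3 : σ • b = b := by
      refine eq_of_map_eq ρ f (Prim.sep_mod hf) (σ • b) b ?_ ?_ ?_
      · apply hroot
        have h4 : (((σ • b : 𝓞 L)) : L) = σ (φ (θ : E)) := rfl
        rw [h4]
        have h5 := Polynomial.hom_eval₂ f (algebraMap ℤ L) (σ : L →+* L) (φ (θ : E))
        rw [RingHom.ext_int ((σ : L →+* L).comp (algebraMap ℤ L)) (algebraMap ℤ L)] at h5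
        have h6 : eval₂ (algebraMap ℤ L) (φ (θ : E)) f = 0 := hφθ
        rw [h6, map_zero] at h5
        exact h5.symm
      · exact hroot b hφθ
      · rw [hσ, h2, cast_pow]
    have h4 : (((σ • b : 𝓞 L)) : L) = σ (φ (θ : E)) := rfl
    change σ (φ (θ : E)) = φ (θ : E)
    rw [← h4, h3]
    exact hbL
  exact DFunLike.congr_fun h1 x

/-- Every homomorphism to the prime field comes from an embedding. -/
lemma Prim.exists_emb (H : Prim E f θ D) (hD : ¬ l ∣ D) (hspl : (f.map (algebraMap ℤ L)).Splits)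
    (ρ : 𝓞 L →+* k) (ψ : 𝓞 E →+* ZMod l) : ∃ φ : E →+* L, ∀ x : 𝓞 E,
      ρ (RingOfIntegers.mapRingHom φ x) = ZMod.castHom (dvd_refl l) k (ψ x) := by
  set cst := ZMod.castHom (dvd_refl l) k with hcst
  have hDl : (D : ZMod l) ≠ 0 := by
    rw [Ne, ZMod.natCast_eq_zero_iff]
    exact hD
  have hDk : (D : k) ≠ 0 := by
    intro h
    apply hDl
    apply cst.injective
    rw [map_natCast, h, map_zero]
  -- the roots in `𝓞 L`
  have hlift : ∀ R : Multiset L, (∀ x ∈ R, IsIntegral ℤ x) →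
      ∃ R' : Multiset (𝓞 L), R'.map (algebraMap (𝓞 L) L) = R := by
    intro R
    induction R using Multiset.induction_on with
    | empty => exact fun _ => ⟨0, rfl⟩
    | cons a s ih =>
      intro hR
      obtain ⟨R', hR'⟩ := ih fun x hx => hR x (Multiset.mem_cons_of_mem hx)
      obtain ⟨a', ha'⟩ : ∃ a' : 𝓞 L, algebraMap (𝓞 L) L a' = a :=
        ⟨⟨a, hR a (Multiset.mem_cons_self a s)⟩, rfl⟩
      refine ⟨a' ::ₘ R', ?_⟩
      rw [Multiset.map_cons, hR', ha']
  obtain ⟨R', hR'⟩ := hlift (f.map (algebraMap ℤ L)).roots (by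
    intro x hx
    have h1 := (mem_roots'.1 hx).2
    rw [IsRoot.def, eval_map] at h1
    exact ⟨f, H.monic, h1⟩)
  have h2 : f.map (algebraMap ℤ (𝓞 L)) = (R'.map (fun a => X - C a)).prod := by
    apply Polynomial.map_injective (algebraMap (𝓞 L) L) RingOfIntegers.coe_injective
    rw [map_prod_sub, hR', Polynomial.map_map]
    exact hspl.eq_prod_roots_of_monic (H.monic.map _)
  have h3 : eval₂ (Int.castRingHom k) (cst (ψ θ)) f = 0 := by
    have h3 := Polynomial.hom_eval₂ f (algebraMap ℤ (𝓞 E)) (cst.comp ψ) θ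
    rw [RingHom.ext_int ((cst.comp ψ).comp (algebraMap ℤ (𝓞 E))) (Int.castRingHom k)] at h3
    have h4 : eval₂ (algebraMap ℤ (𝓞 E)) θ f = 0 := H.root
    rw [h4, map_zero] at h3
    exact h3.symm
  have h4 : (f.map (Int.castRingHom k)) = ((R'.map ρ).map (fun a => X - C a)).prod := by
    rw [← map_prod_sub, ← h2, Polynomial.map_map]
    congr 1
    exact RingHom.ext_int _ _
  rw [← eval_map, h4, eval_prod_iff, Multiset.mem_map] at h3
  obtain ⟨y, hy, hyθ⟩ := h3
  have h5 : aeval (y : L) f = 0 := by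
    have h6 : (f.map (algebraMap ℤ L)).IsRoot (y : L) := by
      refine (mem_roots'.1 ?_).2
      rw [← hR']
      exact Multiset.mem_map_of_mem _ hy
    rw [IsRoot.def, eval_map] at h6
    exact h6
  obtain ⟨φ, hφ⟩ := H.lift L (y : L) h5
  refine ⟨φ, fun x => ?_⟩
  have h6 : (ρ.comp (RingOfIntegers.mapRingHom φ)) = cst.comp ψ := by
    refine H.ext_int hDk _ _ ?_
    change ρ (RingOfIntegers.mapRingHom φ θ) = cst (ψ θ)
    rw [← hyθ]
    congr 1
    apply RingOfIntegers.coe_injective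
    exact hφ
  exact DFunLike.congr_fun h6 x

end Galois

end Pool.Agent.K7.H1.UM
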